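import Mathlib
import Pool.Agent.H37.Stk.Def
import Pool.Graph.R_pool_sql_team_seeded_c8625f6e.K4H74.ST.Fin

/-!
# Orders of vanishing of linear Artin L-functions: definitions

Artin invariants (`ArtinInvariant`) and the conditions `TrivOne`, `TrivRational`, `TrivOdd`,
`TrivMixed` are defined in `Pool.Agent.K4H74.ST`, the conditions `TorsionIn` and `TrivialOver` in
`Pool.Agent.H37.Stk.Def`.
-/

set_option autoImplicit false
set_option linter.unusedSectionVars false

namespace Pool.Agent.H99.Ov

open NumberField Pool.Agent.K4H74.ST Pool.Agent.H37.Stk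

/-- The number of the infinite places `v` of `K` such that the linear character `ψ` of `Gal(L/K)` is
trivial on the decomposition groups of `v` (which are generated by the complex conjugations above
`v` if `v` is real, and are trivial if `v` is complex). For `ψ ≠ 1` this is the order of vanishing
of the Artin `L`-function `L(s, ψ)` at `s = 0`. -/
noncomputable def ord (K L : Type) [Field K] [Field L] [Algebra K L]
    (ψ : (L ≃ₐ[K] L) →* ℂˣ) : ℕ :=
  Nat.card {v : InfinitePlace K // ∀ (φ : L →+* ℂ) (c : L ≃ₐ[K] L),
    InfinitePlace.mk (φ.comp (algebraMap K L)) = v → ComplexEmbedding.IsConj φ c → ψ c = 1}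

section

variable {M : Type} [CommGroup M] (A : ArtinInvariant M)

/-- The invariant is trivial on the nontrivial linear characters whose order of vanishing is `0` or
in `D`. -/
def TrivOrders (D : Set ℕ) : Prop :=
  ∀ (K L : Type) [Field K] [NumberField K] [Field L] [NumberField L] [Algebra K L] [IsGalois K L]
    (ψ : (L ≃ₐ[K] L) →* ℂˣ), ψ ≠ 1 → (ord K L ψ = 0 ∨ ord K L ψ ∈ D) →
      A.val K L (fun g => ((ψ g : ℂˣ) : ℂ)) = 1

/-- The invariant is trivial on the linear characters over the totally complex fields of the degrees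
`2 d` with `d` in `D`. -/
def TrivDegrees (D : Set ℕ) : Prop :=
  ∀ (K L : Type) [Field K] [NumberField K] [Field L] [NumberField L] [Algebra K L] [IsGalois K L]
    (ψ : (L ≃ₐ[K] L) →* ℂˣ), IsTotallyComplex K → (∃ d ∈ D, Module.finrank ℚ K = 2 * d) →
      A.val K L (fun g => ((ψ g : ℂˣ) : ℂ)) = 1

/-- The invariant is trivial on the linear characters over the fields with a real place. -/
def TrivReal : Prop :=
  ∀ (K L : Type) [Field K] [NumberField K] [Field L] [NumberField L] [Algebra K L] [IsGalois K L]
    (ψ : (L ≃ₐ[K] L) →* ℂˣ), ¬ IsTotallyComplex K → A.val K L (fun g => ((ψ g : ℂˣ) : ℂ)) = 1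

/-- The invariant is trivial on the characters of `Gal(L/K)` for the abelian extensions `L` of `ℚ`. -/
def TrivAbelian : Prop :=
  ∀ (K L : Type) [Field K] [NumberField K] [Field L] [NumberField L] [Algebra K L] [IsGalois K L],
    IsGalois ℚ L → (∀ a b : L ≃ₐ[ℚ] L, a * b = b * a) →
      ∀ χ : (L ≃ₐ[K] L) → ℂ, IsChar χ → A.val K L χ = 1

end

/-- Every Artin invariant, with values in an abelian group whose torsion is in `P`, which satisfies
the condition `Φ`, is trivial on all characters. -/
def Suff (P : Set ℕ) (Φ : ∀ {M : Type} [CommGroup M], ArtinInvariant M → Prop) : Prop :=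
  ∀ (M : Type) [CommGroup M], TorsionIn P M → ∀ A : ArtinInvariant M, Φ A →
    ∀ (K : Type) [Field K] [NumberField K], TrivialOver A K

/-- The arithmetical condition on the set `D`: for every `m ≥ 1` and `p ∈ P` there is a multiple `d`
of `m` in `D` such that `d / m` is prime to `p`. -/
def Rich (P D : Set ℕ) : Prop :=
  ∀ m > 0, ∀ p ∈ P, p.Prime → ∃ d ∈ D, m ∣ d ∧ ¬ p * m ∣ d

end Pool.Agent.H99.Ov
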