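import Mathlib

/-!
# Finite `p`-groups: homomorphisms to the group of `p`-th roots of unity; weighted orbit sums
-/

set_option autoImplicit false
set_option linter.unusedSectionVars false

namespace Pool.Agent.H99.Ov

/-- `μ_p` in `ℂ` -/
abbrev Mu (p : ℕ) : Type := rootsOfUnity p ℂ

instance finMu (p : ℕ) [Fact p.Prime] : Finite (Mu p) := by
  have : NeZero p := ⟨(Fact.out : p.Prime).ne_zero⟩
  infer_instance

instance finHom (P : Type) [Group P] [Finite P] (p : ℕ) [Fact p.Prime] : Finite (P →* Mu p) :=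
  DFunLike.finite _

/-- a proper subgroup of a finite `p`-group is contained in the kernel of a nontrivial homomorphism
to `μ_p` -/
theorem exists_hom {p : ℕ} [hp : Fact p.Prime] {P : Type} [Group P] [Finite P] (hP : IsPGroup p P)
    {Q : Subgroup P} (hQ : Q ≠ ⊤) : ∃ τ : P →* Mu p, τ ≠ 1 ∧ ∀ x ∈ Q, τ x = 1 := by
  classical
  obtain ⟨M, hM, hQM⟩ := (eq_top_or_exists_le_coatom Q).resolve_left hQ
  have hnil : Group.IsNilpotent P := hP.isNilpotent
  have hMn : M.Normal :=
    Subgroup.NormalizerCondition.normal_of_coatom M Group.normalizerCondition_of_isNilpotent hM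
  have hQt : IsPGroup p (P ⧸ M) := hP.to_quotient M
  have hnt : Nontrivial (P ⧸ M) := by
    rw [← not_subsingleton_iff_nontrivial]
    intro h
    apply hM.1
    rw [← QuotientGroup.ker_mk' M]
    ext x
    simp only [MonoidHom.mem_ker, Subgroup.mem_top, iff_true]
    exact Subsingleton.elim _ _
  have hfin : Finite (P ⧸ M) := inferInstance
  obtain ⟨n, hn, hcard⟩ := hQt.nontrivial_iff_card.mp hnt
  obtain ⟨x, hx⟩ := exists_prime_orderOf_dvd_card' (G := P ⧸ M) p (by
    rw [hcard]; exact dvd_pow_self p hn.ne')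
  have htop : Subgroup.zpowers x = ⊤ := by
    have h1 : M < (Subgroup.zpowers x).comap (QuotientGroup.mk' M) := by
      rw [SetLike.lt_iff_le_and_exists]
      constructor
      · intro y hy
        rw [Subgroup.mem_comap, QuotientGroup.mk'_apply, (QuotientGroup.eq_one_iff y).mpr hy]
        exact one_mem _
      · obtain ⟨y, rfl⟩ := QuotientGroup.mk_surjective x
        refine ⟨y, ?_, ?_⟩
        · rw [Subgroup.mem_comap]
          exact Subgroup.mem_zpowers _
        · intro hy
          rw [(QuotientGroup.eq_one_iff y).mpr hy, orderOf_one] at hx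
          exact hp.out.one_lt.ne hx
    have h2 := hM.2 _ h1
    rw [eq_top_iff]
    intro z _
    obtain ⟨y, rfl⟩ := QuotientGroup.mk_surjective z
    have h3 : y ∈ (Subgroup.zpowers x).comap (QuotientGroup.mk' M) := by rw [h2]; trivial
    exact h3
  have hc : Nat.card (P ⧸ M) = p := by
    rw [← hx, ← Nat.card_zpowers, htop, Subgroup.card_top]
  have hcyc : IsCyclic (P ⧸ M) := ⟨x, fun z => by
    have h : z ∈ Subgroup.zpowers x := by rw [htop]; trivial
    exact h⟩
  have hne : NeZero p := ⟨hp.out.ne_zero⟩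
  have hMu : Nat.card (Mu p) = p := Complex.card_rootsOfUnity p
  have hcyc' : IsCyclic (Mu p) := inferInstance
  let e : (P ⧸ M) ≃* Mu p := mulEquivOfCyclicCardEq (by rw [hc, hMu])
  refine ⟨e.toMonoidHom.comp (QuotientGroup.mk' M), ?_, fun y hy => ?_⟩
  · intro h
    obtain ⟨z, hz⟩ := exists_ne (1 : P ⧸ M)
    obtain ⟨y, rfl⟩ := QuotientGroup.mk_surjective z
    apply hz
    have h1 := DFunLike.congr_fun h y
    apply e.injective
    rw [map_one]
    exact h1
  · change e (QuotientGroup.mk y) = 1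
    rw [(QuotientGroup.eq_one_iff y).mpr (hQM hy), map_one]

/-- weighted orbit sums -/
theorem wsum {Q X : Type} [Group Q] [Finite Q] [Fintype X] [MulAction Q X] (h : X → ℕ)
    (hinv : ∀ (q : Q) x, h (q • x) = h x) :
    ∃ _ : Fintype (MulAction.orbitRel.Quotient Q X),
      ∑ x : X, Nat.card (MulAction.stabilizer Q x) * h x =
        Nat.card Q * ∑ ω : MulAction.orbitRel.Quotient Q X, h ω.out := by
  classical
  let _ : Fintype (MulAction.orbitRel.Quotient Q X) := Fintype.ofFinite _
  refine ⟨inferInstance, ?_⟩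
  let mk : X → MulAction.orbitRel.Quotient Q X := Quotient.mk _
  rw [← Finset.sum_fiberwise Finset.univ mk, Finset.mul_sum]
  refine Finset.sum_congr rfl fun ω _ => ?_
  have hout : mk ω.out = ω := Quotient.out_eq ω
  have h1 : ∀ x ∈ Finset.univ.filter (fun x => mk x = ω),
      Nat.card (MulAction.stabilizer Q x) * h x =
        Nat.card (MulAction.stabilizer Q ω.out) * h ω.out := by
    intro x hx
    have h2 : mk x = mk ω.out := by rw [(Finset.mem_filter.mp hx).2, hout]
    obtain ⟨q, hq⟩ := MulAction.orbitRel_apply.mp (Quotient.exact h2)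
    simp only at hq
    rw [← hq, hinv]
    congr 1
    exact Nat.card_congr (MulAction.stabilizerEquivStabilizer rfl).symm.toEquiv
  rw [Finset.sum_congr rfl h1, Finset.sum_const, smul_eq_mul, ← mul_assoc]
  congr 1
  have h3 : (Finset.univ.filter (fun x => mk x = ω)).card = Nat.card (MulAction.orbit Q ω.out) := by
    rw [← Fintype.card_subtype, ← Nat.card_eq_fintype_card]
    refine Nat.card_congr (Equiv.subtypeEquivRight fun y => ?_)
    rw [← MulAction.orbitRel_apply]
    constructor
    · intro h; exact Quotient.exact (h.trans hout.symm)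
    · intro h; exact (Quotient.sound h).trans hout
  rw [h3]
  let _ : Fintype Q := Fintype.ofFinite _
  let _ : Fintype (MulAction.orbit Q ω.out) := Fintype.ofFinite _
  let _ : Fintype (MulAction.stabilizer Q ω.out) := Fintype.ofFinite _
  have h4 := MulAction.card_orbit_mul_card_stabilizer_eq_card_group Q ω.out
  rw [← Nat.card_eq_fintype_card, ← Nat.card_eq_fintype_card, ← Nat.card_eq_fintype_card] at h4
  exact h4

/-- the subgroup of the homomorphisms which are trivial on a subgroup has order divisible by `p` -/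
theorem dvd_card_coset {p : ℕ} [hp : Fact p.Prime] {P : Type} [Group P] [Finite P]
    (hP : IsPGroup p P) (Q : Subgroup P) (hQ : Q ≠ ⊤) (f : Q → ℂˣ) :
    p ∣ Nat.card {τ : P →* Mu p // ∀ x : Q, ((τ x : Mu p) : ℂˣ) = f x} := by
  classical
  rcases isEmpty_or_nonempty {τ : P →* Mu p // ∀ x : Q, ((τ x : Mu p) : ℂˣ) = f x} with h | ⟨⟨τ₀, h₀⟩⟩
  · rw [Nat.card_of_isEmpty]; exact dvd_zero p
  · let Y₀ : Subgroup (P →* Mu p) :=
      { carrier := {τ | ∀ x : Q, τ x = 1}
        mul_mem' := by
          intro a b ha hb x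
          rw [MonoidHom.mul_apply, ha, hb, mul_one]
        one_mem' := fun x => rfl
        inv_mem' := by
          intro a ha x
          rw [MonoidHom.inv_apply, ha, inv_one] }
    have h1 : Nat.card {τ : P →* Mu p // ∀ x : Q, ((τ x : Mu p) : ℂˣ) = f x} = Nat.card Y₀ := by
      refine Nat.card_congr ⟨fun τ => ⟨τ.1 * τ₀⁻¹, fun x => ?_⟩, fun τ => ⟨τ.1 * τ₀, fun x => ?_⟩,
        fun τ => ?_, fun τ => ?_⟩
      · rw [MonoidHom.mul_apply, MonoidHom.inv_apply, mul_inv_eq_one]
        apply Subtype.ext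
        rw [τ.2, h₀]
      · have h2 : τ.1 x = 1 := τ.2 x
        rw [MonoidHom.mul_apply, h2, one_mul, h₀]
      · apply Subtype.ext
        simp
      · apply Subtype.ext
        simp
    rw [h1]
    obtain ⟨τ, hτ, hτQ⟩ := exists_hom hP hQ
    have h2 : (⟨τ, fun x => hτQ x x.2⟩ : Y₀) ≠ 1 := fun h => hτ (congrArg Subtype.val h)
    have h3 : (⟨τ, fun x => hτQ x x.2⟩ : Y₀) ^ p = 1 := by
      apply Subtype.ext
      ext x
      change ((((τ ^ p) x : Mu p) : ℂˣ) : ℂ) = 1
      rw [MonoidHom.pow_apply]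
      have h4 := (τ x).2
      rw [mem_rootsOfUnity] at h4
      have h5 : ((τ x ^ p : Mu p) : ℂˣ) = 1 := h4
      exact congrArg Units.val h5
    have h4 : orderOf (⟨τ, fun x => hτQ x x.2⟩ : Y₀) = p := orderOf_eq_prime h3 h2
    have h5 := orderOf_dvd_natCard (⟨τ, fun x => hτQ x x.2⟩ : Y₀)
    rwa [h4] at h5

end Pool.Agent.H99.Ov
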