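import Mathlib
import Pool.Agent.H99.Ov.Pgr
import Pool.Graph.R_seed8.R389.Ind

/-!
# A functional on the class functions of a finite group, and its values on induced characters
-/

set_option autoImplicit false
set_option linter.unusedSectionVars false

namespace Pool.Agent.H99.Ov

open Pool.Agent.R389

variable {G : Type} [Group G] [Finite G] {p : ℕ} [hp : Fact p.Prime]

/-- `x ↦ g⁻¹ x g` on `P` -/
def cjg (P : Subgroup G) (g : G) : P →* G :=
  MonoidHom.mk' (fun x => g⁻¹ * x * g) (fun a b => by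
    rw [Subgroup.coe_mul]; group)

lemma cjg_apply (P : Subgroup G) (g : G) (x : P) : cjg P g x = g⁻¹ * x * g := rfl

/-- the elements `x` of `P` such that `g⁻¹ x g ∈ V` -/
def Pg (P V : Subgroup G) (g : G) : Subgroup P := V.comap (cjg P g)

lemma mem_Pg {P V : Subgroup G} {g : G} {x : P} : x ∈ Pg P V g ↔ g⁻¹ * x * g ∈ V := Iff.rfl

/-- the character `x ↦ lam (g⁻¹ x g)` -/
def lamg (P : Subgroup G) {V : Subgroup G} (lam : V →* ℂˣ) (g : G) : Pg P V g →* ℂˣ :=
  lam.comp ((cjg P g).subgroupComap V)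

lemma lamg_apply (P : Subgroup G) {V : Subgroup G} (lam : V →* ℂˣ) (g : G) (x : Pg P V g) :
    lamg P lam g x = lam ⟨g⁻¹ * x * g, x.2⟩ := rfl

/-- the number of the `τ` such that `α τ` agrees with the conjugate of `lam` -/
noncomputable def ng (p : ℕ) [Fact p.Prime] (P : Subgroup G) (α : P →* ℂˣ) {V : Subgroup G}
    (lam : V →* ℂˣ) (g : G) : ℕ :=
  Nat.card {τ : P →* Mu p // ∀ x : Pg P V g, ((τ x : Mu p) : ℂˣ) = lamg P lam g x * (α x)⁻¹}

/-- the functional -/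
noncomputable def Fn (p : ℕ) [Fact p.Prime] (P : Subgroup G) (α : P →* ℂˣ) (θ : G → ℂ) : ℂ :=
  (Nat.card P : ℂ)⁻¹ * ∑ᶠ τ : P →* Mu p, ∑ᶠ x : P, θ x * (((α x * τ x)⁻¹ : ℂˣ) : ℂ)

lemma Fn_eq [Fintype G] (P : Subgroup G) [Fintype P] [Fintype (P →* Mu p)] (α : P →* ℂˣ)
    (θ : G → ℂ) : Fn p P α θ =
      (Nat.card P : ℂ)⁻¹ * ∑ τ : P →* Mu p, ∑ x : P, θ x * (((α x * τ x)⁻¹ : ℂˣ) : ℂ) := by
  rw [Fn, finsum_eq_sum_of_fintype]
  congr 1
  exact Finset.sum_congr rfl fun τ _ => finsum_eq_sum_of_fintype _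

lemma Fn_add (P : Subgroup G) (α : P →* ℂˣ) (θ θ' : G → ℂ) :
    Fn p P α (θ + θ') = Fn p P α θ + Fn p P α θ' := by
  classical
  have : Fintype G := Fintype.ofFinite _
  have : Fintype P := Fintype.ofFinite _
  have : Fintype (P →* Mu p) := Fintype.ofFinite _
  rw [Fn_eq, Fn_eq, Fn_eq, ← mul_add, ← Finset.sum_add_distrib]
  congr 1
  refine Finset.sum_congr rfl fun τ _ => ?_
  rw [← Finset.sum_add_distrib]
  refine Finset.sum_congr rfl fun x _ => ?_
  rw [Pi.add_apply, add_mul]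

/-- the functional as a homomorphism -/
noncomputable def FnHom (p : ℕ) [Fact p.Prime] (P : Subgroup G) (α : P →* ℂˣ) : (G → ℂ) →+ ℂ :=
  AddMonoidHom.mk' (Fn p P α) (Fn_add P α)

/-- the action of `P × V` on `G` -/
@[instance_reducible]
def dact (P V : Subgroup G) : MulAction (P × V) G where
  smul q g := (q.1 : G) * g * (q.2 : G)⁻¹
  one_smul g := by
    change ((1 : P) : G) * g * ((1 : V) : G)⁻¹ = g
    simp
  mul_smul a b g := by
    change ((a.1 * b.1 : P) : G) * g * ((a.2 * b.2 : V) : G)⁻¹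
      = (a.1 : G) * ((b.1 : G) * g * (b.2 : G)⁻¹) * (a.2 : G)⁻¹
    rw [Subgroup.coe_mul, Subgroup.coe_mul]
    group

lemma inner_sum (P V : Subgroup G) [Fintype P] (α : P →* ℂˣ) (lam : V →* ℂˣ) (g : G)
    (τ : P →* Mu p) [Decidable (∀ x : Pg P V g, ((τ x : Mu p) : ℂˣ) = lamg P lam g x * (α x)⁻¹)] :
    ∑ x : P, ext V (fun v => ((lam v : ℂˣ) : ℂ)) (g⁻¹ * x * g) * (((α x * τ x)⁻¹ : ℂˣ) : ℂ)
      = if (∀ x : Pg P V g, ((τ x : Mu p) : ℂˣ) = lamg P lam g x * (α x)⁻¹) then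
        (Nat.card (Pg P V g) : ℂ) else 0 := by
  classical
  let f₀ : Pg P V g →* ℂˣ := lamg P lam g *
    ((α.comp (Pg P V g).subtype) * (((rootsOfUnity p ℂ).subtype.comp τ).comp (Pg P V g).subtype))⁻¹
  let f : Pg P V g →* ℂ := (Units.coeHom ℂ).comp f₀
  have i1 : Fintype (Pg P V g) := Fintype.ofFinite _
  have h1 : ∑ x : P, ext V (fun v => ((lam v : ℂˣ) : ℂ)) (g⁻¹ * x * g) *
      (((α x * τ x)⁻¹ : ℂˣ) : ℂ) = ∑ x : Pg P V g, f x := by
    have h2 : ∀ x : Pg P V g, f x = (fun x : P => ext V (fun v => ((lam v : ℂˣ) : ℂ))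
        (g⁻¹ * x * g) * (((α x * τ x)⁻¹ : ℂˣ) : ℂ)) x := by
      intro x
      simp only
      rw [ext_mem V _ (mem_Pg.mp x.2)]
      change ((lamg P lam g x * ((α x) * (τ x : ℂˣ))⁻¹ : ℂˣ) : ℂ) = _
      rw [Units.val_mul]
      rfl
    rw [Finset.sum_congr rfl (fun x _ => h2 x),
      ← Finset.sum_subtype (Finset.univ.filter fun x : P => x ∈ Pg P V g) (by simp)
        (fun x : P => ext V (fun v => ((lam v : ℂˣ) : ℂ)) (g⁻¹ * x * g) *
          (((α x * τ x)⁻¹ : ℂˣ) : ℂ)), Finset.sum_filter]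
    refine Finset.sum_congr rfl fun x _ => ?_
    by_cases h : x ∈ Pg P V g
    · rw [if_pos h]
    · rw [if_neg h, ext_not V _ (fun h' => h (mem_Pg.mpr h')), zero_mul]
  rw [h1, sum_hom_units]
  have h3 : f = 1 ↔ (∀ x : Pg P V g, ((τ x : Mu p) : ℂˣ) = lamg P lam g x * (α x)⁻¹) := by
    rw [DFunLike.ext_iff]
    refine forall_congr' fun x => ?_
    change ((lamg P lam g x * ((α x) * (τ x : ℂˣ))⁻¹ : ℂˣ) : ℂ) = ((1 : ℂˣ) : ℂ) ↔ _
    rw [Units.val_inj, mul_inv_eq_one, eq_mul_inv_iff_mul_eq, mul_comm (α _), eq_comm]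
  by_cases h : f = 1
  · rw [if_pos h, if_pos (h3.mp h), Nat.card_eq_fintype_card]
  · rw [if_neg h, if_neg (fun h' => h (h3.mpr h'))]
    simp

lemma ng_smul (P V : Subgroup G) (α : P →* ℂˣ) (lam : V →* ℂˣ) (y : P) (v : V) (g : G) :
    ng p P α lam ((y : G) * g * (v : G)⁻¹) = ng p P α lam g := by
  unfold ng
  refine Nat.card_congr (Equiv.subtypeEquivRight fun τ => ?_)
  have key : ∀ (y : P) (v : V) (g : G),
      (∀ x : Pg P V g, ((τ x : Mu p) : ℂˣ) = lamg P lam g x * (α x)⁻¹) →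
      ∀ x : Pg P V ((y : G) * g * (v : G)⁻¹), ((τ x : Mu p) : ℂˣ)
        = lamg P lam ((y : G) * g * (v : G)⁻¹) x * (α x)⁻¹ := by
    intro y v g h x
    have hx := mem_Pg.mp x.2
    have h1 : g⁻¹ * ((y⁻¹ * (x : P) * y : P) : G) * g ∈ V := by
      have h2 := V.mul_mem (V.mul_mem (V.inv_mem v.2) hx) v.2
      have h3 : (v : G)⁻¹ * (((y : G) * g * (v : G)⁻¹)⁻¹ * ((x : P) : G) * ((y : G) * g * (v : G)⁻¹))
          * v = g⁻¹ * ((y⁻¹ * (x : P) * y : P) : G) * g := by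
        rw [Subgroup.coe_mul, Subgroup.coe_mul, Subgroup.coe_inv]
        group
      rwa [h3] at h2
    have h4 := h ⟨y⁻¹ * (x : P) * y, h1⟩
    have h5 : τ (y⁻¹ * (x : P) * y) = τ x := by
      rw [map_mul, map_mul, map_inv, mul_comm (τ y)⁻¹, inv_mul_cancel_right]
    have h6 : α (y⁻¹ * (x : P) * y) = α x := by
      rw [map_mul, map_mul, map_inv, mul_comm (α y)⁻¹, inv_mul_cancel_right]
    simp only at h4
    rw [h5, h6, lamg_apply] at h4
    rw [h4, lamg_apply]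
    congr 1
    have h7 : (⟨g⁻¹ * ((y⁻¹ * (x : P) * y : P) : G) * g, h1⟩ : V)
        = v⁻¹ * ⟨((y : G) * g * (v : G)⁻¹)⁻¹ * ((x : P) : G) * ((y : G) * g * (v : G)⁻¹), hx⟩ * v := by
      apply Subtype.ext
      simp only [Subgroup.coe_mul, Subgroup.coe_inv]
      group
    change lam ⟨g⁻¹ * ((y⁻¹ * (x : P) * y : P) : G) * g, h1⟩ = _
    rw [h7, map_mul, map_mul, map_inv, mul_comm (lam v)⁻¹, inv_mul_cancel_right]
  constructor
  · intro h
    have h1 := key y⁻¹ v⁻¹ _ h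
    have h2 : ((y⁻¹ : P) : G) * ((y : G) * g * (v : G)⁻¹) * ((v⁻¹ : V) : G)⁻¹ = g := by
      rw [Subgroup.coe_inv, Subgroup.coe_inv]
      group
    rwa [h2] at h1
  · intro h
    exact key y v g h

/-- the value on an induced linear character -/
theorem Fn_ind (P V : Subgroup G) (α : P →* ℂˣ) (lam : V →* ℂˣ) :
    ∃ (Ω : Type) (_ : Fintype Ω) (r : Ω → G),
      Fn p P α (ind V (fun v => ((lam v : ℂˣ) : ℂ))) = ∑ ω, (ng p P α lam (r ω) : ℂ) ∧
      (∀ g, ∃! ω, ∃ (y : P) (v : V), (y : G) * g * (v : G)⁻¹ = r ω) := by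
  classical
  have : Fintype G := Fintype.ofFinite _
  have : Fintype P := Fintype.ofFinite _
  have : Fintype V := Fintype.ofFinite _
  have : Fintype (P →* Mu p) := Fintype.ofFinite _
  let _ : MulAction (P × V) G := dact P V
  obtain ⟨iF, hw⟩ := wsum (Q := P × V) (X := G) (fun g => ng p P α lam g) (by
    rintro ⟨y, v⟩ g
    exact ng_smul P V α lam y v g)
  refine ⟨MulAction.orbitRel.Quotient (P × V) G, iF, fun ω => ω.out, ?_, ?_⟩
  · rw [Fn_eq]
    have hP : (Nat.card P : ℂ) ≠ 0 := by exact_mod_cast Nat.card_pos.ne'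
    have hV : (Nat.card V : ℂ) ≠ 0 := by exact_mod_cast Nat.card_pos.ne'
    have h1 : ∑ τ : P →* Mu p, ∑ x : P, ind V (fun v => ((lam v : ℂˣ) : ℂ)) (x : G) *
        (((α x * τ x)⁻¹ : ℂˣ) : ℂ) = (Nat.card V : ℂ)⁻¹ * ∑ g : G,
          ((Nat.card (MulAction.stabilizer (P × V) g) * ng p P α lam g : ℕ) : ℂ) := by
      have h2 : ∀ τ : P →* Mu p, ∑ x : P, ind V (fun v => ((lam v : ℂˣ) : ℂ)) (x : G) *
          (((α x * τ x)⁻¹ : ℂˣ) : ℂ) = (Nat.card V : ℂ)⁻¹ * ∑ g : G,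
            if (∀ x : Pg P V g, ((τ x : Mu p) : ℂˣ) = lamg P lam g x * (α x)⁻¹) then
              (Nat.card (Pg P V g) : ℂ) else 0 := by
        intro τ
        have h3 : ∀ x : P, ind V (fun v => ((lam v : ℂˣ) : ℂ)) (x : G) *
            (((α x * τ x)⁻¹ : ℂˣ) : ℂ) = (Nat.card V : ℂ)⁻¹ * ∑ g : G,
              ext V (fun v => ((lam v : ℂˣ) : ℂ)) (g⁻¹ * x * g) *
                (((α x * τ x)⁻¹ : ℂˣ) : ℂ) := by
          intro x
          rw [ind_eq, mul_assoc, Finset.sum_mul]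
        rw [Finset.sum_congr rfl (fun x _ => h3 x), ← Finset.mul_sum, Finset.sum_comm]
        congr 1
        exact Finset.sum_congr rfl fun g _ => inner_sum P V α lam g τ
      rw [Finset.sum_congr rfl (fun τ _ => h2 τ), ← Finset.mul_sum, Finset.sum_comm]
      congr 1
      refine Finset.sum_congr rfl fun g _ => ?_
      have h4 : Nat.card (MulAction.stabilizer (P × V) g) = Nat.card (Pg P V g) := by
        refine Nat.card_congr ⟨fun s => ⟨s.1.1, ?_⟩, fun x => ⟨(x, ⟨g⁻¹ * x * g, x.2⟩), ?_⟩,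
          fun s => ?_, fun x => ?_⟩
        · have h5 : (s.1.1 : G) * g * (s.1.2 : G)⁻¹ = g := s.2
          rw [mul_inv_eq_iff_eq_mul] at h5
          rw [mem_Pg, mul_assoc, h5, inv_mul_cancel_left]
          exact s.1.2.2
        · change ((x : P) : G) * g * (g⁻¹ * (x : P) * g)⁻¹ = g
          group
        · have h5 : (s.1.1 : G) * g * (s.1.2 : G)⁻¹ = g := s.2
          rw [mul_inv_eq_iff_eq_mul] at h5
          apply Subtype.ext
          apply Prod.ext
          · rfl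
          · apply Subtype.ext
            change g⁻¹ * (s.1.1 : G) * g = s.1.2
            rw [mul_assoc, h5, inv_mul_cancel_left]
        · rfl
      rw [h4, ← Finset.sum_filter, Finset.sum_const, nsmul_eq_mul, Nat.cast_mul, mul_comm]
      congr 2
      rw [ng, ← Fintype.card_subtype, ← Nat.card_eq_fintype_card]
    rw [h1, ← Nat.cast_sum, hw, Nat.card_prod, Nat.cast_mul, Nat.cast_mul, Nat.cast_sum]
    field_simp
  · intro g
    refine ⟨Quotient.mk _ g, ?_, ?_⟩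
    · have h1 : (Quotient.mk (MulAction.orbitRel (P × V) G) (Quotient.mk
          (MulAction.orbitRel (P × V) G) g).out) = Quotient.mk _ g := Quotient.out_eq _
      obtain ⟨q, hq⟩ := MulAction.orbitRel_apply.mp (Quotient.exact h1)
      exact ⟨q.1, q.2, hq⟩
    · rintro ω ⟨y, v, h⟩
      rw [← Quotient.out_eq ω]
      apply Quotient.sound
      change MulAction.orbitRel (P × V) G _ _
      rw [MulAction.orbitRel_apply]
      exact ⟨(y, v), h⟩

end Pool.Agent.H99.Ov
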