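import Mathlib
import Pool.Agent.H99.Ov.Fnl
import Pool.Agent.H37.Stk.Van

/-!
# Divisibility of the values of the functional
-/

set_option autoImplicit false
set_option linter.unusedSectionVars false

namespace Pool.Agent.H99.Ov

open Pool.Agent.R389 Pool.Agent.H37.Stk Pool.Agent.K4H74.ST Pool.Agent.W446.AS

/-- `p` times an algebraic integer -/
def PI (p : ℕ) (z : ℂ) : Prop := ∃ y : ℂ, IsIntegral ℤ y ∧ z = p * y

lemma PI.add {p : ℕ} {z w : ℂ} (h : PI p z) (h' : PI p w) : PI p (z + w) := by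
  obtain ⟨y, hy, rfl⟩ := h
  obtain ⟨y', hy', rfl⟩ := h'
  exact ⟨y + y', hy.add hy', by ring⟩

lemma PI.neg {p : ℕ} {z : ℂ} (h : PI p z) : PI p (-z) := by
  obtain ⟨y, hy, rfl⟩ := h
  exact ⟨-y, hy.neg, by ring⟩

lemma PI.zero {p : ℕ} : PI p 0 := ⟨0, isIntegral_zero, by ring⟩

lemma PI.of_dvd {p n : ℕ} (h : p ∣ n) : PI p n := by
  obtain ⟨m, rfl⟩ := h
  exact ⟨m, isIntegral_natCast m, by push_cast; ring⟩

lemma PI.sum {p : ℕ} {ι : Type} (s : Finset ι) {f : ι → ℂ} (h : ∀ i ∈ s, PI p (f i)) :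
    PI p (∑ i ∈ s, f i) := by
  classical
  induction s using Finset.induction_on with
  | empty => rw [Finset.sum_empty]; exact PI.zero
  | insert a s ha ih =>
    rw [Finset.sum_insert ha]
    exact (h a (Finset.mem_insert_self a s)).add
      (ih fun i hi => h i (Finset.mem_insert_of_mem hi))

/-- integers which are `p` times an algebraic integer -/
lemma PI.int {p : ℕ} {n : ℤ} (h : PI p n) : (p : ℤ) ∣ n := by
  rcases Nat.eq_zero_or_pos p with rfl | hp
  · obtain ⟨y, -, hy⟩ := h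
    rw [Nat.cast_zero, zero_mul] at hy
    have : n = 0 := by exact_mod_cast hy
    rw [this]
    exact dvd_zero _
  · obtain ⟨y, hy, h⟩ := h
    have hp0 : (p : ℂ) ≠ 0 := by exact_mod_cast hp.ne'
    have h1 : y = algebraMap ℚ ℂ ((n : ℚ) / p) := by
      rw [map_div₀, map_intCast, map_natCast, h]
      field_simp
    rw [h1] at hy
    have h2 : IsIntegral ℤ ((n : ℚ) / p) := (isIntegral_algebraMap_iff (algebraMap ℚ ℂ).injective).mp hy
    obtain ⟨k, hk⟩ := IsIntegrallyClosed.isIntegral_iff.mp h2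
    refine ⟨k, ?_⟩
    have hp1 : (p : ℚ) ≠ 0 := by exact_mod_cast hp.ne'
    have h3 : (n : ℚ) = p * k := by
      have h4 : (k : ℚ) = (n : ℚ) / p := hk
      rw [h4]
      field_simp
    exact_mod_cast h3

variable {G : Type} [Group G] [Finite G] {p : ℕ} [hp : Fact p.Prime]

/-- the terms for the conjugates which do not contain `P` -/
lemma dvd_ng {P V : Subgroup G} (hP : IsPGroup p P) (α : P →* ℂˣ) (lam : V →* ℂˣ) {g : G}
    (h : (∀ x : P, g⁻¹ * x * g ∈ V) →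
      ¬ ∀ (x : P) (hx : g⁻¹ * x * g ∈ V), lam ⟨g⁻¹ * x * g, hx⟩ ^ p = α x ^ p) :
    p ∣ ng p P α lam g := by
  by_cases hV : ∀ x : P, g⁻¹ * x * g ∈ V
  · have h1 := h hV
    rw [ng]
    have h2 : IsEmpty {τ : P →* Mu p // ∀ x : Pg P V g,
        ((τ x : Mu p) : ℂˣ) = lamg P lam g x * (α x)⁻¹} := by
      refine ⟨?_⟩
      rintro ⟨τ, hτ⟩
      apply h1
      intro x hx
      have h3 := hτ ⟨x, hx⟩
      have h4 : ((τ x : Mu p) : ℂˣ) ^ p = 1 := by
        have := (τ x).2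
        rwa [mem_rootsOfUnity] at this
      simp only [] at h3
      rw [h3, mul_pow, inv_pow, mul_inv_eq_one] at h4
      exact h4
    rw [Nat.card_of_isEmpty]
    exact dvd_zero p
  · apply dvd_card_coset hP
    intro h1
    apply hV
    intro x
    have h2 : x ∈ Pg P V g := by rw [h1]; trivial
    exact h2

/-- induced linear characters -/
theorem Fn_ind_dvd {P V : Subgroup G} (hP : IsPGroup p P) (α : P →* ℂˣ) (lam : V →* ℂˣ)
    (h : ∀ g : G, (∀ x : P, g⁻¹ * x * g ∈ V) →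
      ¬ ∀ (x : P) (hx : g⁻¹ * x * g ∈ V), lam ⟨g⁻¹ * x * g, hx⟩ ^ p = α x ^ p) :
    PI p (Fn p P α (ind V (fun v => ((lam v : ℂˣ) : ℂ)))) := by
  obtain ⟨Ω, _, r, h1, -⟩ := Fn_ind (p := p) P V α lam
  rw [h1]
  exact PI.sum _ fun ω _ => PI.of_dvd (dvd_ng hP α lam (h _))

/-- the induced linear character which is not in the group -/
theorem Fn_ind_one {P U : Subgroup G} (hP : IsPGroup p P) (hPU : P ≤ U) (ψ : U →* ℂˣ)
    (h : ∀ g : G, g ∉ U → (∀ x : P, g⁻¹ * x * g ∈ U) →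
      ¬ ∀ (x : P) (hx : g⁻¹ * x * g ∈ U), ψ ⟨g⁻¹ * x * g, hx⟩ ^ p = ψ ⟨x, hPU x.2⟩ ^ p) :
    PI p (Fn p P (ψ.comp (Subgroup.inclusion hPU)) (ind U (fun v => ((ψ v : ℂˣ) : ℂ))) - 1) := by
  classical
  obtain ⟨Ω, _, r, h1, h2⟩ := Fn_ind (p := p) P U (ψ.comp (Subgroup.inclusion hPU)) ψ
  obtain ⟨ω₁, ⟨y, v, hω₁⟩, huniq⟩ := h2 1
  have h3 : ng p P (ψ.comp (Subgroup.inclusion hPU)) ψ (r ω₁) = 1 := by
    rw [← hω₁, ng_smul]
    rw [ng]
    have h4 : ∀ τ : P →* Mu p, (∀ x : Pg P U 1, ((τ x : Mu p) : ℂˣ)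
        = lamg P ψ 1 x * (ψ.comp (Subgroup.inclusion hPU) x)⁻¹) ↔ τ = 1 := by
      intro τ
      constructor
      · intro h
        ext x
        have hx : (x : P) ∈ Pg P U 1 := by
          rw [mem_Pg]
          simpa using hPU x.2
        have h5 := h ⟨x, hx⟩
        rw [lamg_apply] at h5
        have h6 : (⟨(1 : G)⁻¹ * ((x : P) : G) * 1, hx⟩ : U) = ⟨x, hPU x.2⟩ := by
          apply Subtype.ext
          simp
        change ((τ x : Mu p) : ℂˣ) = ψ ⟨(1 : G)⁻¹ * ((x : P) : G) * 1, hx⟩ *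
          (ψ ⟨x, hPU x.2⟩)⁻¹ at h5
        rw [h6, mul_inv_cancel] at h5
        rw [h5]
        rfl
      · rintro rfl x
        rw [lamg_apply]
        have h6 : (⟨(1 : G)⁻¹ * ((x : P) : G) * 1, x.2⟩ : U) = ⟨(x : P), hPU (x : P).2⟩ := by
          apply Subtype.ext
          simp
        change (1 : ℂˣ) = ψ ⟨(1 : G)⁻¹ * ((x : P) : G) * 1, x.2⟩ *
          (ψ ⟨(x : P), hPU (x : P).2⟩)⁻¹
        rw [h6, mul_inv_cancel]
    rw [Nat.card_congr (Equiv.subtypeEquivRight h4)]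
    exact Nat.card_unique
  rw [h1, ← Finset.add_sum_erase Finset.univ _ (Finset.mem_univ ω₁), h3, Nat.cast_one,
    add_sub_cancel_left]
  refine PI.sum _ fun ω hω => PI.of_dvd (dvd_ng hP _ _ ?_)
  intro hV
  apply h (r ω) _ hV
  intro hr
  apply (Finset.mem_erase.mp hω).1
  apply huniq
  exact ⟨1, ⟨(r ω)⁻¹, U.inv_mem hr⟩, by simp⟩

/-- Galois conjugation of a rational linear combination of roots of unity -/
lemma conj_sum {X : Type} [Fintype X] (q : X → ℚ) (β : X → ℂ) {n : ℕ} (hn : 0 < n)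
    (hβ : ∀ x, β x ^ n = 1) {a : ℕ} (ha : a.Coprime n) {r : ℚ}
    (h : ∑ x, (q x : ℂ) * β x = r) : ∑ x, (q x : ℂ) * β x ^ a = r := by
  have hn0 : NeZero n := ⟨hn.ne'⟩
  have hζ := Complex.isPrimitiveRoot_exp n hn.ne'
  set ζ := Complex.exp (2 * Real.pi * Complex.I / n)
  have h1 : ∀ x, ∃ e : ℕ, ζ ^ e = β x := by
    intro x
    obtain ⟨i, -, hi⟩ := hζ.eq_pow_of_pow_eq_one (hβ x)
    exact ⟨i, hi⟩
  choose e he using h1
  let F : Polynomial ℚ := ∑ x, Polynomial.C (q x) * Polynomial.X ^ e x - Polynomial.C r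
  have hF : ∀ z : ℂ, Polynomial.aeval z F = ∑ x, (q x : ℂ) * z ^ e x - r := by
    intro z
    simp only [F, map_sub, map_sum, map_mul, map_pow, Polynomial.aeval_X, Polynomial.aeval_C]
    rfl
  have h2 : Polynomial.aeval ζ F = 0 := by
    rw [hF, sub_eq_zero, ← h]
    exact Finset.sum_congr rfl fun x _ => by rw [he]
  have h3 : minpoly ℚ ζ ∣ F := minpoly.dvd ℚ ζ h2
  have hζ' : IsPrimitiveRoot (ζ ^ a) n := hζ.pow_of_coprime a ha
  have h4 : minpoly ℚ (ζ ^ a) = minpoly ℚ ζ := by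
    rw [← Polynomial.cyclotomic_eq_minpoly_rat hζ hn, ← Polynomial.cyclotomic_eq_minpoly_rat hζ' hn]
  have h5 : Polynomial.aeval (ζ ^ a) F = 0 := by
    obtain ⟨R, hR⟩ := h3
    rw [hR, map_mul, ← h4, minpoly.aeval, zero_mul]
  rw [hF, sub_eq_zero] at h5
  rw [← h5]
  refine Finset.sum_congr rfl fun x _ => ?_
  rw [← he x, ← pow_mul, ← pow_mul, mul_comm a]

/-- the term of the functional -/
noncomputable def mt (P : Subgroup G) (β : P →* ℂˣ) (θ : G → ℂ) : ℂ :=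
  (Nat.card P : ℂ)⁻¹ * ∑ᶠ x : P, θ x * (((β x)⁻¹ : ℂˣ) : ℂ)

lemma mt_int {P : Subgroup G} (β : P →* ℂˣ) {θ : G → ℂ} (hθ : IsChar θ) :
    ∃ k : ℤ, mt P β θ = k := by
  classical
  have h1 : Virt (fun x : P => θ x) := (IsChar.comp' hθ P.subtype).virt
  have h2 : Virt (lc β) := (IsChar.lc β).virt
  obtain ⟨k, hk⟩ := Virt.pr_int' h1 h2
  refine ⟨k, ?_⟩
  have h3 : mt P β θ = pr (fun x : P => θ x) (lc β) := by
    rw [mt, pr]
    have h4 : ∀ x : P, (((β x)⁻¹ : ℂˣ) : ℂ) = lc β x⁻¹ := by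
      intro x
      rw [lc, map_inv]
    simp only [h4]
  rw [h3, hk]

lemma mt_pow {P : Subgroup G} {β β' : P →* ℂˣ} {θ : G → ℂ} (hθ : IsChar θ)
    (hr : ∀ g, ∃ q : ℚ, θ g = q) {a : ℕ} (ha : a.Coprime (Nat.card P))
    (hβ : ∀ x, β' x = β x ^ a) : mt P β' θ = mt P β θ := by
  classical
  have : Fintype P := Fintype.ofFinite _
  choose q hq using hr
  obtain ⟨k, hk⟩ := mt_int β hθ
  have hP0 : (Nat.card P : ℂ) ≠ 0 := by exact_mod_cast Nat.card_pos.ne'
  have h1 : ∑ x : P, (q x : ℂ) * (((β x)⁻¹ : ℂˣ) : ℂ) = ((Nat.card P * k : ℚ) : ℂ) := by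
    have h2 : (Nat.card P : ℂ) * mt P β θ = Nat.card P * k := by rw [hk]
    rw [mt, mul_inv_cancel_left₀ hP0, finsum_eq_sum_of_fintype] at h2
    push_cast
    rw [← h2]
    exact Finset.sum_congr rfl fun x _ => by rw [hq, Units.val_inv_eq_inv_val]
  have h3 := conj_sum (fun x : P => q x) (fun x : P => (((β x)⁻¹ : ℂˣ) : ℂ))
    (n := Nat.card P) Nat.card_pos (by
      intro x
      rw [← Units.val_pow_eq_pow_val, inv_pow, ← map_pow, pow_card_eq_one', map_one, inv_one,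
        Units.val_one]) ha h1
  have h5 : mt P β' θ = (Nat.card P : ℂ)⁻¹ *
      ∑ x : P, (q x : ℂ) * (((β x)⁻¹ : ℂˣ) : ℂ) ^ a := by
    rw [mt, finsum_eq_sum_of_fintype]
    have h6 : ∀ x : P, θ x * (((β' x)⁻¹ : ℂˣ) : ℂ) = (q x : ℂ) * (((β x)⁻¹ : ℂˣ) : ℂ) ^ a := by
      intro x
      rw [hq, ← Units.val_pow_eq_pow_val, hβ, inv_pow]
    rw [Finset.sum_congr rfl (fun x _ => h6 x)]
  rw [h5, h3, hk]
  push_cast
  field_simp

/-- rational valued characters -/
theorem Fn_rat {P : Subgroup G} (hP : IsPGroup p P) (α : P →* ℂˣ) (hα : ∀ x, α x ^ (p ^ 2) = 1)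
    (hα' : ∃ x, α x ^ p ≠ 1) {θ : G → ℂ} (hθ : IsChar θ) (hr : ∀ g, ∃ q : ℚ, θ g = q) :
    PI p (Fn p P α θ) := by
  classical
  have : Fintype G := Fintype.ofFinite _
  have : Fintype P := Fintype.ofFinite _
  have : Fintype (P →* Mu p) := Fintype.ofFinite _
  let tw : (P →* Mu p) → (P →* ℂˣ) := fun τ => α * (rootsOfUnity p ℂ).subtype.comp τ
  have htw : ∀ τ x, tw τ x = α x * (τ x : ℂˣ) := fun τ x => rfl
  let m : (P →* Mu p) → ℂ := fun τ => mt P (tw τ) θ
  have hm : Fn p P α θ = ∑ τ, m τ := by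
    rw [Fn_eq, Finset.mul_sum]
    refine Finset.sum_congr rfl fun τ _ => ?_
    simp only [m]
    rw [mt, finsum_eq_sum_of_fintype]
    simp only [htw]
  -- integrality
  have hint : ∀ τ, ∃ k : ℤ, m τ = k := fun τ => mt_int (tw τ) hθ
  -- the twist
  let η : P →* Mu p :=
    { toFun := fun x => ⟨α x ^ p, by
        rw [mem_rootsOfUnity, ← pow_mul, ← pow_two, hα]⟩
      map_one' := by
        apply Subtype.ext
        simp
      map_mul' := by
        intro a b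
        apply Subtype.ext
        simp [mul_pow] }
  have hη : ∀ x, ((η x : Mu p) : ℂˣ) = α x ^ p := fun x => rfl
  have hinv : ∀ τ, m (η * τ) = m τ := by
    intro τ
    obtain ⟨N, hN⟩ := IsPGroup.iff_card.mp hP
    have hcop : (1 + p).Coprime (Nat.card P) := by
      rw [hN]
      apply Nat.Coprime.pow_right
      rw [Nat.coprime_add_self_left]
      exact Nat.coprime_one_left p
    refine mt_pow hθ hr hcop fun x => ?_
    have h6 : ((τ x : Mu p) : ℂˣ) ^ p = 1 := by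
      have := (τ x).2
      rwa [mem_rootsOfUnity] at this
    have h7 : (((η * τ) x : Mu p) : ℂˣ) = α x ^ p * (τ x : ℂˣ) := rfl
    rw [htw, htw, h7, mul_pow, pow_add, pow_add, pow_one, pow_one, h6, mul_one, mul_assoc]
  -- the orbits
  rw [hm]
  have hη1 : η ≠ 1 := by
    obtain ⟨x, hx⟩ := hα'
    intro h
    apply hx
    rw [← hη, h]
    rfl
  let S : Subgroup (P →* Mu p) := Subgroup.zpowers η
  have hηp : η ^ p = 1 := by
    ext x
    have h1 : (((η ^ p) x : Mu p) : ℂˣ) = (α x ^ p) ^ p := rfl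
    rw [h1, ← pow_mul, ← pow_two, hα]
    rfl
  obtain ⟨y, hy, h1⟩ := sum_orbits (p := p) (X := P →* Mu p) (S := S) (by
      rintro ⟨s, hs⟩
      refine ⟨1, fun x => ?_⟩
      rw [pow_one]
      have h2 : (⟨s, hs⟩ : S) ^ p = 1 := by
        obtain ⟨k, rfl⟩ := hs
        apply Subtype.ext
        change (η ^ k) ^ p = 1
        rw [← zpow_natCast, zpow_comm, zpow_natCast, hηp, one_zpow]
      rw [h2, one_smul]) (by
      intro x
      refine ⟨⟨η, Subgroup.mem_zpowers η⟩, fun h => hη1 ?_⟩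
      have h2 : η * x = x := h
      exact mul_eq_right.mp h2) m (by
      rintro ⟨s, k, rfl⟩ x
      change m (η ^ k * x) = m x
      have hz : ∀ (n : ℕ) (x : P →* Mu p), m (η ^ n * x) = m x := by
        intro n
        induction n with
        | zero => intro x; rw [pow_zero, one_mul]
        | succ n ih =>
          intro x
          rw [pow_succ', mul_assoc, hinv, ih]
      obtain ⟨l, rfl | rfl⟩ := k.eq_nat_or_neg
      · rw [zpow_natCast, hz]
      · rw [zpow_neg, zpow_natCast]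
        have h3 := hz l ((η ^ l)⁻¹ * x)
        rw [mul_inv_cancel_left] at h3
        exact h3.symm) (by
      intro x
      obtain ⟨k, hk⟩ := hint x
      rw [hk]
      exact isIntegral_intCast k)
  rw [finsum_eq_sum_of_fintype] at h1
  exact ⟨y, hy, h1⟩

end Pool.Agent.H99.Ov
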