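import Mathlib
import Pool.Agent.H99.Ov.Fnl2

/-!
# Separated characters
-/

set_option autoImplicit false
set_option linter.unusedSectionVars false

namespace Pool.Agent.H99.Ov

open Pool.Agent.R389 Pool.Agent.H37.Stk Pool.Agent.K4H74.ST Pool.Agent.W446.AS

/-- homomorphisms of `p`-power order which are trivial on a subgroup of index prime to `p` -/
lemma hom_trivial {p : ℕ} (hp : p.Prime) {B : Type} [Group B] [Finite B] (D : B →* ℂˣ)
    (H : Subgroup B) (hH : ∀ h ∈ H, D h = 1) (hidx : ¬ p ∣ H.index) (k : ℕ)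
    (hD : ∀ b, D b ^ p ^ k = 1) (b : B) : D b = 1 := by
  have h1 : H ≤ D.ker := fun h hh => hH h hh
  have h2 : Nat.card D.range ∣ H.index := by
    rw [← Subgroup.index_ker]
    exact Subgroup.index_dvd_of_le h1
  have h3 : orderOf (D b) ∣ Nat.card D.range := by
    have hb : D b ∈ D.range := MonoidHom.mem_range.mpr ⟨b, rfl⟩
    have h4 : orderOf (⟨D b, hb⟩ : D.range) ∣ Nat.card D.range := orderOf_dvd_natCard _
    rwa [Subgroup.orderOf_mk] at h4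
  have h4 : orderOf (D b) ∣ p ^ k := orderOf_dvd_of_pow_eq_one (hD b)
  obtain ⟨j, -, hj⟩ := (Nat.dvd_prime_pow hp).mp h4
  rcases Nat.eq_zero_or_pos j with rfl | hj0
  · rw [pow_zero] at hj
    exact orderOf_eq_one_iff.mp hj
  · exfalso
    apply hidx
    refine (Dvd.dvd.trans ?_ h3).trans h2
    rw [hj]
    exact dvd_pow_self p hj0.ne'

/-- the index of the intersection of a Sylow subgroup with a normal subgroup -/
lemma sylow_relIndex {p : ℕ} [hp : Fact p.Prime] {U : Type} [Group U] [Finite U] (Q : Sylow p U)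
    (A : Subgroup U) [hA : A.Normal] : ¬ p ∣ (Q : Subgroup U).relIndex A := by
  set Q' : Subgroup U := (Q : Subgroup U) with hQ'
  have h1 : A.relIndex (Q' ⊔ A) = A.relIndex Q' := Subgroup.relIndex_sup_right Q' A
  have c1 : Nat.card A * A.relIndex (Q' ⊔ A) = Nat.card ↥(Q' ⊔ A) := by
    have := Subgroup.relIndex_mul_relIndex (⊥ : Subgroup U) A (Q' ⊔ A) bot_le le_sup_right
    rwa [Subgroup.relIndex_bot_left, Subgroup.relIndex_bot_left] at this
  have c2 : Nat.card Q' * Q'.relIndex (Q' ⊔ A) = Nat.card ↥(Q' ⊔ A) := by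
    have := Subgroup.relIndex_mul_relIndex (⊥ : Subgroup U) Q' (Q' ⊔ A) bot_le le_sup_left
    rwa [Subgroup.relIndex_bot_left, Subgroup.relIndex_bot_left] at this
  have c3 : Nat.card ↥(Q' ⊓ A) * A.relIndex Q' = Nat.card Q' := by
    have := Subgroup.relIndex_mul_relIndex (⊥ : Subgroup U) (Q' ⊓ A) Q' bot_le inf_le_left
    rw [Subgroup.relIndex_bot_left, Subgroup.relIndex_bot_left] at this
    rw [← this, inf_comm, Subgroup.inf_relIndex_right]
  have c4 : Nat.card ↥(Q' ⊓ A) * Q'.relIndex A = Nat.card A := by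
    have := Subgroup.relIndex_mul_relIndex (⊥ : Subgroup U) (Q' ⊓ A) A bot_le inf_le_right
    rw [Subgroup.relIndex_bot_left, Subgroup.relIndex_bot_left] at this
    rw [← this, Subgroup.inf_relIndex_right]
  have h5 : Q'.relIndex A = Q'.relIndex (Q' ⊔ A) := by
    have p1 : 0 < Nat.card ↥(Q' ⊓ A) := Nat.card_pos
    have p2 : 0 < A.relIndex Q' := Nat.pos_of_ne_zero Subgroup.index_ne_zero_of_finite
    rw [h1] at c1
    rw [← c4] at c1
    rw [← c3] at c2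
    have h6 : Nat.card ↥(Q' ⊓ A) * A.relIndex Q' * Q'.relIndex A
        = Nat.card ↥(Q' ⊓ A) * A.relIndex Q' * Q'.relIndex (Q' ⊔ A) := by
      rw [c2, ← c1]
      ring
    exact Nat.eq_of_mul_eq_mul_left (Nat.mul_pos p1 p2) h6
  rw [h5]
  intro h
  have h7 : Q'.relIndex (Q' ⊔ A) ∣ Q'.index := Subgroup.relIndex_dvd_index_of_le le_sup_left
  exact Q.not_dvd_index (h.trans h7)

/-- The character `ψ` of the subgroup `U` is separated by the normal subgroup `A`. -/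
structure Sep (p : ℕ) {G : Type} [Group G] (U A : Subgroup G) (ψ : U →* ℂˣ) : Prop where
  /-- normal -/
  hA : A.Normal
  /-- contained in `U` -/
  hAU : A ≤ U
  /-- the order of the character divides `p ^ 2` -/
  pw : ∀ u, ψ u ^ (p ^ 2) = 1
  /-- separation -/
  sep : ∀ w, w ∉ U → ∃ (a : G) (_ : a ∈ A) (h1 : w * a * w⁻¹ ∈ U) (h2 : a ∈ U),
    ψ ⟨w * a * w⁻¹, h1⟩ ^ p ≠ ψ ⟨a, h2⟩ ^ p
  /-- nontriviality -/
  nt : ∃ u, ψ u ^ p ≠ 1

/-- pulling back -/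
lemma Sep.comap {p : ℕ} {G G' : Type} [Group G] [Group G'] {U A : Subgroup G} {ψ : U →* ℂˣ}
    (h : Sep p U A ψ) {π : G' →* G} (hπ : Function.Surjective π) :
    Sep p (U.comap π) (A.comap π) (ψ.comp (π.subgroupComap U)) := by
  have := h.hA
  refine ⟨inferInstance, fun x hx => h.hAU hx, fun u => h.pw _, fun w hw => ?_, ?_⟩
  · obtain ⟨a, ha, h1, h2, h3⟩ := h.sep (π w) hw
    obtain ⟨a, rfl⟩ := hπ a
    have e1 : π (w * a * w⁻¹) = π w * π a * (π w)⁻¹ := by rw [map_mul, map_mul, map_inv]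
    refine ⟨a, ha, ?_, h2, ?_⟩
    · change π (w * a * w⁻¹) ∈ U
      rw [e1]
      exact h1
    · intro h4
      apply h3
      have h5 : (π.subgroupComap U) ⟨w * a * w⁻¹, by
          change π (w * a * w⁻¹) ∈ U
          rw [e1]
          exact h1⟩ = ⟨π w * π a * (π w)⁻¹, h1⟩ := Subtype.ext e1
      rw [← h5]
      exact h4
  · obtain ⟨u, hu⟩ := h.nt
    obtain ⟨g, hg⟩ := hπ (u : G)
    refine ⟨⟨g, by change π g ∈ U; rw [hg]; exact u.2⟩, ?_⟩
    have h5 : (π.subgroupComap U) ⟨g, by change π g ∈ U; rw [hg]; exact u.2⟩ = u := Subtype.ext hg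
    rw [MonoidHom.comp_apply, h5]
    exact hu

section

variable {p : ℕ} [hp : Fact p.Prime] {G : Type} [Group G] [Finite G] {U A P : Subgroup G}
  {ψ : U →* ℂˣ}

/-- conjugation into `U` -/
def cjU (A U : Subgroup G) (hA : A.Normal) (hAU : A ≤ U) (w : G) : A →* U :=
  MonoidHom.mk' (fun a => ⟨w * a * w⁻¹, hAU (hA.conj_mem a a.2 w)⟩) (fun a b => by
    apply Subtype.ext
    simp only [Subgroup.coe_mul]
    group)

lemma Sep.trivial (h : Sep p U A ψ) (hidx : ¬ p ∣ P.relIndex A) {w : G}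
    (hw : ∀ (a : G) (_ : a ∈ A) (_ : a ∈ P) (h1 : w * a * w⁻¹ ∈ U) (h2 : a ∈ U),
      ψ ⟨w * a * w⁻¹, h1⟩ ^ p = ψ ⟨a, h2⟩ ^ p) : w ∈ U := by
  by_contra hwU
  obtain ⟨a, ha, h1, h2, h3⟩ := h.sep w hwU
  apply h3
  let E : A →* ℂˣ := (ψ.comp (cjU A U h.hA h.hAU w)) ^ p *
    ((ψ.comp (Subgroup.inclusion h.hAU)) ^ p)⁻¹
  have hE : ∀ a : A, E a = ψ ⟨w * a * w⁻¹, h.hAU (h.hA.conj_mem a a.2 w)⟩ ^ p *
      (ψ ⟨a, h.hAU a.2⟩ ^ p)⁻¹ := fun a => rfl
  have h4 : E ⟨a, ha⟩ = 1 := by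
    refine hom_trivial hp.out E (P.subgroupOf A) ?_ hidx 1 ?_ _
    · intro x hx
      rw [hE, mul_inv_eq_one]
      exact hw x x.2 hx _ _
    · intro x
      rw [hE, mul_pow, inv_pow, pow_one, ← pow_mul, ← pow_mul, ← pow_two, h.pw, h.pw, inv_one,
        mul_one]
  rw [hE, mul_inv_eq_one] at h4
  exact h4

/-- **Containment**, for the elements `v` which normalise `V` and fix the character. -/
theorem Sep.contains' (h : Sep p U A ψ) (hPU : P ≤ U) (hidx : ¬ p ∣ P.relIndex A) {V : Subgroup G}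
    (lam : V →* ℂˣ) {g : G} (hPV : ∀ x : P, g⁻¹ * x * g ∈ V)
    (hlam : ∀ (x : P) (hx : g⁻¹ * x * g ∈ V), lam ⟨g⁻¹ * x * g, hx⟩ ^ p = ψ ⟨x, hPU x.2⟩ ^ p)
    {v : G} (hv : ∀ (y : G) (hy : y ∈ V), ∃ h1 : v * y * v⁻¹ ∈ V,
      lam ⟨v * y * v⁻¹, h1⟩ = lam ⟨y, hy⟩) : g * v * g⁻¹ ∈ U := by
  classical
  -- the exponent
  obtain ⟨k, n', hn', hcard⟩ := Nat.exists_eq_pow_mul_and_not_dvd (n := Nat.card G) Nat.card_pos.ne'
    p hp.out.ne_one
  have hcop : p.Coprime n' := (Nat.Prime.coprime_iff_not_dvd hp.out).mpr hn'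
  obtain ⟨s, hs1, hs2⟩ := Nat.chineseRemainder hcop 1 0
  have hord : ∀ y : V, lam y ^ (s * p ^ k) = 1 := by
    intro y
    obtain ⟨b, hb⟩ := Nat.modEq_zero_iff_dvd.mp hs2
    have h1 : s * p ^ k = Nat.card G * b := by
      rw [hb, hcard]
      ring
    have h2 : lam y ^ Nat.card G = 1 := by
      rw [← map_pow]
      have h3 : y ^ Nat.card G = 1 := by
        apply Subtype.ext
        rw [Subgroup.coe_pow, pow_card_eq_one', Subgroup.coe_one]
      rw [h3, map_one]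
    rw [h1, pow_mul, h2, one_pow]
  have hψs : ∀ u : U, (ψ u ^ p) ^ s = ψ u ^ p := by
    intro u
    have h1 : (ψ u ^ p) ^ p = 1 := by rw [← pow_mul, ← pow_two, h.pw]
    have h2 : orderOf (ψ u ^ p) ∣ p := orderOf_dvd_of_pow_eq_one h1
    have h3 : s ≡ 1 [MOD orderOf (ψ u ^ p)] := hs1.of_dvd h2
    have h4 := pow_eq_pow_iff_modEq.mpr h3
    rwa [pow_one] at h4
  -- the subgroup `B`
  let cj : A →* G := MonoidHom.mk' (fun a => g⁻¹ * a * g) (fun a b => by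
    rw [Subgroup.coe_mul]; group)
  let B : Subgroup A := V.comap cj
  have hB : ∀ a : A, a ∈ B ↔ g⁻¹ * a * g ∈ V := fun a => Iff.rfl
  let f₁ : B →* V := cj.subgroupComap V
  let D : B →* ℂˣ := (lam.comp f₁) ^ (s * p) *
    ((ψ.comp ((Subgroup.inclusion h.hAU).comp B.subtype)) ^ p)⁻¹
  have hD : ∀ b : B, D b = lam ⟨g⁻¹ * (b : A) * g, b.2⟩ ^ (s * p) *
      (ψ ⟨((b : A) : G), h.hAU (b : A).2⟩ ^ p)⁻¹ := fun b => rfl
  have hPB : P.subgroupOf A ≤ B := by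
    intro x hx
    exact hPV ⟨x, hx⟩
  have hD1 : ∀ b, D b = 1 := by
    refine hom_trivial hp.out D ((P.subgroupOf A).subgroupOf B) ?_ ?_ (k + 1) ?_
    · intro x hx
      have hx' : ((x : A) : G) ∈ P := hx
      rw [hD, mul_inv_eq_one, mul_comm s p, pow_mul]
      have h1 := hlam ⟨((x : A) : G), hx'⟩ x.2
      rw [h1, hψs]
    · intro h1
      apply hidx
      have h2 := Subgroup.relIndex_mul_index hPB
      have h3 : (P.subgroupOf A).index = P.relIndex A := rfl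
      rw [h3] at h2
      rw [← h2]
      exact Dvd.dvd.mul_right h1 _
    · intro b
      rw [hD, mul_pow, inv_pow, ← pow_mul, ← pow_mul]
      have e1 : s * p * p ^ (k + 1) = (s * p ^ k) * (p * p) := by ring
      have e2 : p * p ^ (k + 1) = p ^ 2 * p ^ k := by ring
      rw [e1, e2, pow_mul, hord, one_pow, pow_mul, h.pw, one_pow, inv_one, mul_one]
  have hkey : ∀ b : A, g⁻¹ * b * g ∈ V → ∀ (h1 : g⁻¹ * b * g ∈ V),
      lam ⟨g⁻¹ * b * g, h1⟩ ^ (s * p) = ψ ⟨b, h.hAU b.2⟩ ^ p := by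
    intro b hb h1
    have h2 := hD1 ⟨b, hb⟩
    rw [hD, mul_inv_eq_one] at h2
    exact h2
  -- conclusion
  apply h.trivial hidx
  intro a haA haP h1 h2
  have haV : g⁻¹ * a * g ∈ V := hPV ⟨a, haP⟩
  have hconj : g * v * g⁻¹ * a * (g * v * g⁻¹)⁻¹ ∈ A := h.hA.conj_mem a haA _
  obtain ⟨hV1, hV2⟩ := hv _ haV
  have e : g⁻¹ * (g * v * g⁻¹ * a * (g * v * g⁻¹)⁻¹) * g = v * (g⁻¹ * a * g) * v⁻¹ := by group
  have hconjV : g⁻¹ * (g * v * g⁻¹ * a * (g * v * g⁻¹)⁻¹) * g ∈ V := by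
    rw [e]
    exact hV1
  have k1 := hkey ⟨_, hconj⟩ hconjV hconjV
  have k2 := hkey ⟨a, haA⟩ haV haV
  have k3 : lam ⟨g⁻¹ * (g * v * g⁻¹ * a * (g * v * g⁻¹)⁻¹) * g, hconjV⟩ = lam ⟨g⁻¹ * a * g, haV⟩ := by
    rw [← hV2]
    congr 1
    exact Subtype.ext e
  rw [← k1, ← k2]
  exact congrArg (· ^ (s * p)) k3

/-- **Containment.** -/
theorem Sep.contains (h : Sep p U A ψ) (hPU : P ≤ U) (hidx : ¬ p ∣ P.relIndex A) {V : Subgroup G}
    (lam : V →* ℂˣ) {g : G} (hPV : ∀ x : P, g⁻¹ * x * g ∈ V)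
    (hlam : ∀ (x : P) (hx : g⁻¹ * x * g ∈ V), lam ⟨g⁻¹ * x * g, hx⟩ ^ p = ψ ⟨x, hPU x.2⟩ ^ p)
    {v : G} (hv : v ∈ V) : g * v * g⁻¹ ∈ U := by
  refine h.contains' hPU hidx lam hPV hlam fun y hy => ?_
  refine ⟨V.mul_mem (V.mul_mem hv hy) (V.inv_mem hv), ?_⟩
  have e : (⟨v * y * v⁻¹, V.mul_mem (V.mul_mem hv hy) (V.inv_mem hv)⟩ : V)
      = ⟨v, hv⟩ * ⟨y, hy⟩ * ⟨v, hv⟩⁻¹ := by
    apply Subtype.ext
    simp only [Subgroup.coe_mul, Subgroup.coe_inv]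
  rw [e, map_mul, map_mul, map_inv, mul_comm (lam ⟨v, hv⟩), mul_inv_cancel_right]

/-- **The value for the separated character.** -/
theorem Sep.value (h : Sep p U A ψ) (hP : IsPGroup p P) (hPU : P ≤ U) (hidx : ¬ p ∣ P.relIndex A) :
    PI p (Fn p P (ψ.comp (Subgroup.inclusion hPU)) (ind U (fun v => ((ψ v : ℂˣ) : ℂ))) - 1) := by
  apply Fn_ind_one hP hPU
  intro g hg hgU hcon
  have h1 : g⁻¹ ∈ U := by
    apply h.trivial hidx
    intro a haA haP h1 h2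
    have h3 := hcon ⟨a, haP⟩ (hgU ⟨a, haP⟩)
    have e : (⟨g⁻¹ * a * g⁻¹⁻¹, h1⟩ : U) = ⟨g⁻¹ * a * g, hgU ⟨a, haP⟩⟩ := by
      apply Subtype.ext
      simp
    rw [e]
    exact h3
  exact hg (by simpa using U.inv_mem h1)

/-- the index -/
theorem index_of_contains (hidx : ¬ p ∣ P.relIndex U) {V : Subgroup G} {g : G}
    (hPV : ∀ x : P, g⁻¹ * x * g ∈ V) (hVU : ∀ v ∈ V, g * v * g⁻¹ ∈ U) :
    ∃ t : ℕ, ¬ p ∣ t ∧ V.index = t * U.index := by
  let V' : Subgroup G := V.map (MulAut.conj g).toMonoidHom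
  have h1 : V'.index = V.index := Subgroup.index_map_equiv V (MulAut.conj g)
  have h2 : V' ≤ U := by
    rintro _ ⟨v, hv, rfl⟩
    exact hVU v hv
  have h3 : P ≤ V' := by
    intro x hx
    refine ⟨g⁻¹ * x * g, hPV ⟨x, hx⟩, ?_⟩
    change g * (g⁻¹ * x * g) * g⁻¹ = x
    group
  have h4 := Subgroup.relIndex_mul_index h2
  refine ⟨V'.relIndex U, ?_, by rw [h4, h1]⟩
  intro h5
  apply hidx
  have h6 := Subgroup.relIndex_mul_relIndex P V' U h3 h2
  rw [← h6]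
  exact Dvd.dvd.mul_left h5 _

end

end Pool.Agent.H99.Ov
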