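import Mathlib
import Pool.Agent.H99.Ov.Gn
import Pool.Graph.R_seed8.H391R2.T4.Fin
import Pool.Graph.R_pool_sql_team_seeded_c8625f6e.K4H74.ST.Fld

/-!
# Number fields with separated characters
-/

set_option autoImplicit false
set_option linter.unusedSectionVars false

namespace Pool.Agent.H99.Ov

open Pool.Agent.H391R2 Pool.Agent.H391R2.T4 Pool.Agent.K4H74.ST

section grp

variable (Γ C : Type) [Group Γ] [CommGroup C] (n : ℕ)

/-- the action of `Γ` on the functions on `Γ` -/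
abbrev phi : Γ →* MulAut (Γ → C) := mulAutArrow

/-- the group -/
abbrev GG : Type := EG (phi Γ C) n

variable {Γ C n}

/-- coordinates -/
def co (z : GG Γ C n) (i : Fin n) (x : Γ) : C := z.left.left i x

lemma co_mul (a b : GG Γ C n) (i : Fin n) (x : Γ) :
    co (a * b) i x = co a i x * co b (a.left.right⁻¹ i) (a.right⁻¹ * x) := rfl

/-- the projection to the top group -/
def top : GG Γ C n →* Equiv.Perm (Fin n) × Γ :=
  MonoidHom.mk' (fun z => (z.left.right, z.right)) (fun _ _ => rfl)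

lemma top_apply (z : GG Γ C n) : top z = (z.left.right, z.right) := rfl

lemma top_surj : Function.Surjective (top : GG Γ C n →* Equiv.Perm (Fin n) × Γ) := by
  rintro ⟨s, x⟩
  exact ⟨⟨⟨1, s⟩, x⟩, rfl⟩

variable (Γ C) in
/-- the subgroup `U` -/
def UU (i₀ : Fin n) : Subgroup (GG Γ C n) :=
  ((MulAction.stabilizer (Equiv.Perm (Fin n)) i₀).prod ⊥).comap top

lemma mem_UU {i₀ : Fin n} {z : GG Γ C n} : z ∈ UU Γ C i₀ ↔ z.left.right i₀ = i₀ ∧ z.right = 1 := by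
  rw [UU, Subgroup.mem_comap, top_apply, Subgroup.mem_prod]
  rfl

/-- the character -/
def psi (i₀ : Fin n) : UU Γ C i₀ →* C :=
  MonoidHom.mk' (fun z => co (z : GG Γ C n) i₀ 1) (fun a b => by
    obtain ⟨h1, h2⟩ := mem_UU.mp a.2
    rw [Subgroup.coe_mul, co_mul, h2, inv_one, one_mul]
    have h3 : ((a : GG Γ C n).left.right)⁻¹ i₀ = i₀ := by
      rw [Equiv.Perm.inv_eq_iff_eq]
      exact h1.symm
    rw [h3])

lemma psi_apply (i₀ : Fin n) (z : UU Γ C i₀) : psi i₀ z = co (z : GG Γ C n) i₀ 1 := rfl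

lemma index_UU (i₀ : Fin n) : (UU Γ C i₀).index = n * Nat.card Γ := by
  have h0 := Subgroup.index_comap_of_surjective (f := (top : GG Γ C n →* _))
    ((MulAction.stabilizer (Equiv.Perm (Fin n)) i₀).prod (⊥ : Subgroup Γ)) top_surj
  rw [UU, h0, Subgroup.index_prod, Subgroup.index_bot, MulAction.index_stabilizer]
  congr 1
  have h1 : MulAction.orbit (Equiv.Perm (Fin n)) i₀ = Set.univ := by
    rw [Set.eq_univ_iff_forall]
    intro j
    exact ⟨Equiv.swap i₀ j, Equiv.swap_apply_left i₀ j⟩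
  rw [h1, Set.ncard_univ, Nat.card_eq_fintype_card, Fintype.card_fin]

lemma co_conj {a : GG Γ C n} (ha : a ∈ (top : GG Γ C n →* _).ker) (w : GG Γ C n) (i : Fin n)
    (x : Γ) : co (w * a * w⁻¹) i x = co a (w.left.right⁻¹ i) (w.right⁻¹ * x) := by
  have h1 : w * a * w⁻¹ ∈ (top : GG Γ C n →* _).ker := (MonoidHom.normal_ker top).conj_mem a ha w
  have h2 : top (w * a * w⁻¹) = 1 := h1
  rw [top_apply, Prod.mk_eq_one] at h2
  have h3 := co_mul (w * a * w⁻¹) w i x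
  rw [inv_mul_cancel_right, h2.1, h2.2, co_mul, inv_one, inv_one, one_mul, Equiv.Perm.one_apply,
    mul_comm (co w i x)] at h3
  exact (mul_right_cancel h3).symm

end grp

section sep

variable {Γ : Type} [Group Γ] {n : ℕ} (p : ℕ) [hp : Fact p.Prime]

/-- the element which is concentrated at one point -/
noncomputable def elt {C : Type} [CommGroup C] (i₀ : Fin n) (z : C) : GG Γ C n :=
  ⟨⟨fun i x => @ite _ (i = i₀ ∧ x = 1) (Classical.propDecidable _) z 1, 1⟩, 1⟩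

lemma co_elt {C : Type} [CommGroup C] (i₀ : Fin n) (z : C) :
    co (elt (Γ := Γ) i₀ z) i₀ 1 = z := by
  change @ite _ (i₀ = i₀ ∧ (1 : Γ) = 1) (Classical.propDecidable _) z 1 = z
  rw [if_pos ⟨rfl, rfl⟩]

lemma co_elt' {C : Type} [CommGroup C] (i₀ : Fin n) (z : C) {i : Fin n} {x : Γ}
    (h : ¬ (i = i₀ ∧ x = 1)) : co (elt (Γ := Γ) i₀ z) i x = 1 := by
  change @ite _ (i = i₀ ∧ x = 1) (Classical.propDecidable _) z 1 = 1
  rw [if_neg h]

lemma elt_ker {C : Type} [CommGroup C] (i₀ : Fin n) (z : C) :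
    elt (Γ := Γ) i₀ z ∈ (top : GG Γ C n →* _).ker := rfl

lemma exists_root : ∃ z : rootsOfUnity (p ^ 2) ℂ, ((z : ℂˣ)) ^ p ≠ 1 := by
  have hp2 : p ^ 2 ≠ 0 := pow_ne_zero 2 hp.out.ne_zero
  have : NeZero (p ^ 2) := ⟨hp2⟩
  have hζ := Complex.isPrimitiveRoot_exp (p ^ 2) hp2
  set ζ := Complex.exp (2 * Real.pi * Complex.I / (p ^ 2 : ℕ))
  refine ⟨hζ.toRootsOfUnity, fun h => ?_⟩
  have h1 : ζ ^ p = 1 := by
    have h2 := congrArg Units.val h
    rw [Units.val_pow_eq_pow_val] at h2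
    exact h2
  have h2 := Nat.le_of_dvd hp.out.pos (hζ.dvd_of_pow_eq_one p h1)
  have := hp.out.two_le
  nlinarith

theorem sep_GG (i₀ : Fin n) : Sep p (UU Γ (rootsOfUnity (p ^ 2) ℂ) i₀)
    (top : GG Γ (rootsOfUnity (p ^ 2) ℂ) n →* _).ker
    ((rootsOfUnity (p ^ 2) ℂ).subtype.comp (psi i₀)) := by
  classical
  obtain ⟨ζ, hζ⟩ := exists_root p
  have hAU : (top : GG Γ (rootsOfUnity (p ^ 2) ℂ) n →* _).ker
      ≤ UU Γ (rootsOfUnity (p ^ 2) ℂ) i₀ := by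
    intro z hz
    have h1 : top z = 1 := hz
    rw [top_apply, Prod.mk_eq_one] at h1
    rw [mem_UU, h1.1, h1.2]
    exact ⟨rfl, rfl⟩
  refine ⟨MonoidHom.normal_ker _, hAU, fun u => ?_, fun w hw => ?_, ?_⟩
  · have := (psi i₀ u).2
    rw [mem_rootsOfUnity] at this
    exact this
  · have ha := elt_ker (Γ := Γ) i₀ ζ
    have hconj := (MonoidHom.normal_ker (top : GG Γ (rootsOfUnity (p ^ 2) ℂ) n →* _)).conj_mem _ ha w
    refine ⟨elt i₀ ζ, ha, hAU hconj, hAU ha, ?_⟩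
    change ((co (w * elt i₀ ζ * w⁻¹) i₀ 1 : rootsOfUnity (p ^ 2) ℂ) : ℂˣ) ^ p
      ≠ ((co (elt i₀ ζ) i₀ 1 : rootsOfUnity (p ^ 2) ℂ) : ℂˣ) ^ p
    rw [co_conj ha, co_elt, co_elt']
    · rw [Subgroup.coe_one, one_pow]
      exact fun h => hζ h.symm
    · rintro ⟨h1, h2⟩
      apply hw
      rw [mem_UU]
      rw [Equiv.Perm.inv_eq_iff_eq] at h1
      rw [mul_one, inv_eq_one] at h2
      exact ⟨h1.symm, h2⟩
  · refine ⟨⟨elt i₀ ζ, hAU (elt_ker i₀ ζ)⟩, ?_⟩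
    change ((co (elt i₀ ζ) i₀ 1 : rootsOfUnity (p ^ 2) ℂ) : ℂˣ) ^ p ≠ 1
    rw [co_elt]
    exact hζ

end sep

/-- transport along an isomorphism -/
lemma exists_gauss : ∃ (L : Type) (_ : Field L) (_ : NumberField L) (_ : IsGalois ℚ L),
    Nat.card (L ≃ₐ[ℚ] L) = 2 ∧ ∃ j : L, j * j = -1 := by
  have h4 : NeZero (4 : ℕ) := ⟨by norm_num⟩
  let L := CyclotomicField 4 ℚ
  have i1 : IsCyclotomicExtension {4} ℚ L := CyclotomicField.isCyclotomicExtension 4 ℚ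
  have i2 : NumberField L := IsCyclotomicExtension.numberField {4} ℚ L
  have i3 : IsGalois ℚ L := IsCyclotomicExtension.isGalois {4} ℚ L
  refine ⟨L, inferInstance, i2, i3, ?_, ?_⟩
  · rw [IsGalois.card_aut_eq_finrank, IsCyclotomicExtension.finrank (n := 4) L
      (Polynomial.cyclotomic.irreducible_rat (by norm_num))]
    rfl
  · have hζ := IsCyclotomicExtension.zeta_spec 4 ℚ L
    set ζ := IsCyclotomicExtension.zeta 4 ℚ L
    refine ⟨ζ, ?_⟩
    have h1 : (ζ * ζ) * (ζ * ζ) = 1 := by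
      have := hζ.pow_eq_one
      calc (ζ * ζ) * (ζ * ζ) = ζ ^ 4 := by ring
        _ = 1 := this
    rcases mul_self_eq_one_iff.mp h1 with h2 | h2
    · exfalso
      have h3 : ζ ^ 2 = 1 := by rw [pow_two]; exact h2
      have h4 := Nat.le_of_dvd (by norm_num) (hζ.dvd_of_pow_eq_one 2 h3)
      omega
    · exact h2

lemma fd_aux (p : ℕ) [hp : Fact p.Prime] {L F : Type} [Field L] [NumberField L] [IsGalois ℚ L]
    (hcard : Nat.card (L ≃ₐ[ℚ] L) = 2) {j : L} (hj : j * j = -1) {n : ℕ} (hn0 : 0 < n)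
    [Field F] [hch : CharZero F] (i2 : Algebra ℚ F) (h2 : i2 = DivisionRing.toRatAlgebra)
    [i3 : Algebra L F] (i7 : FiniteDimensional ℚ F) (i8 : IsGalois ℚ F)
    (γ : (F ≃ₐ[ℚ] F) ≃* GG (L ≃ₐ[ℚ] L) (rootsOfUnity (p ^ 2) ℂ) n)
    (hγ : ∀ (σ : F ≃ₐ[ℚ] F) (x : L), σ (algebraMap L F x) = algebraMap L F ((γ σ).right x)) :
    ∃ (F : Type) (_ : Field F) (_ : NumberField F) (_ : IsGalois ℚ F)
      (U A : Subgroup (F ≃ₐ[ℚ] F)) (ψ : U →* ℂˣ), Sep p U A ψ ∧ U.index = n * 2 ∧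
        ∀ c ∈ CC ℚ F, c ∉ U := by
  subst h2
  have hNF : NumberField F := ⟨⟩
  let i₀ : Fin n := ⟨0, hn0⟩
  have hs := (sep_GG (Γ := (L ≃ₐ[ℚ] L)) p i₀).comap (π := γ.toMonoidHom) γ.surjective
  refine ⟨F, _, hNF, i8, _, _, _, hs, ?_, ?_⟩
  · rw [Subgroup.index_comap_of_surjective _ γ.surjective, index_UU, hcard]
  · rintro c ⟨φ, hφ⟩ hc
    have h1 : (γ c).right = 1 := (mem_UU.mp hc).2
    have h2 := hγ c j
    rw [h1] at h2
    have h3 : algebraMap L F j * algebraMap L F j = -1 := by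
      rw [← map_mul, hj, map_neg, map_one]
    have e0 : φ (algebraMap L F j * algebraMap L F j) = -1 := by
      rw [h3, map_neg, map_one]
    have e1 : (φ (algebraMap L F j * algebraMap L F j)).im = 0 := by
      rw [e0]; simp
    have e2 : (φ (algebraMap L F j * algebraMap L F j)).re < 0 := by
      rw [e0]; simp
    have h4 : c (algebraMap L F j) = - algebraMap L F j := sqrt_neg hφ e1 e2
    rw [h4] at h2
    have h5 : algebraMap L F j = 0 := self_eq_neg.mp h2.symm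
    rw [h5, mul_zero] at h3
    exact one_ne_zero (neg_eq_zero.mp h3.symm)

theorem exists_sep (p : ℕ) [hp : Fact p.Prime] : ∃ n₀ : ℕ, ∀ n ≥ n₀, 0 < n →
    ∃ (F : Type) (_ : Field F) (_ : NumberField F) (_ : IsGalois ℚ F)
      (U A : Subgroup (F ≃ₐ[ℚ] F)) (ψ : U →* ℂˣ), Sep p U A ψ ∧ U.index = n * 2 ∧
        ∀ c ∈ CC ℚ F, c ∉ U := by
  classical
  obtain ⟨L, _, _, _, hcard, j, hj⟩ := exists_gauss
  have hp2 : NeZero (p ^ 2) := ⟨pow_ne_zero 2 hp.out.ne_zero⟩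
  obtain ⟨n₀, hn₀⟩ := (rat_fin ((L ≃ₐ[ℚ] L) → rootsOfUnity (p ^ 2) ℂ)).2 L
    (phi (L ≃ₐ[ℚ] L) (rootsOfUnity (p ^ 2) ℂ))
  refine ⟨n₀, fun n hn hn0 => ?_⟩
  obtain ⟨F, i1, i2, i3, i4, i5, i6, i7, i8, γ, hγ, _⟩ := hn₀ n hn
  have hch : CharZero F := charZero_of_injective_algebraMap (algebraMap ℚ F).injective
  exact fd_aux p hcard hj hn0 (F := F) i2 (Subsingleton.elim _ _) i7 i8 γ hγ

end Pool.Agent.H99.Ov
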