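import Mathlib
import Pool.Agent.H99.Ov.Pgr
import Pool.Graph.R_seed8.TH377.IG.Final
import Pool.Agent.H37.Stk.Suf

/-!
# Independent characters which are trivial on complex conjugations
-/

set_option autoImplicit false
set_option linter.unusedSectionVars false

namespace Pool.Agent.H99.Ov

open NumberField Pool.Agent.R389 Pool.Agent.H37.Stk Pool.Agent.K4H74.ST Pool.Agent.H391R2

/-- the product of the coordinates -/
def prd (C : Type) [CommGroup C] (n : ℕ) : Wr C n →* C :=
  MonoidHom.mk' (fun z => ∏ i, z.left i) (fun a b => by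
    simp only [wr_mul_left]
    rw [Finset.prod_mul_distrib]
    congr 1
    exact Equiv.prod_comp (a.right⁻¹ : Equiv.Perm (Fin n)) b.left)

lemma prd_surj (C : Type) [CommGroup C] {n : ℕ} (hn : 0 < n) : Function.Surjective (prd C n) := by
  classical
  intro c
  refine ⟨⟨Pi.mulSingle ⟨0, hn⟩ c, 1⟩, ?_⟩
  change ∏ i, (Pi.mulSingle (⟨0, hn⟩ : Fin n) c : Fin n → C) i = c
  rw [Finset.prod_eq_single (⟨0, hn⟩ : Fin n)]
  · simp
  · intro j _ hj
    simp [hj]
  · intro h
    exact absurd (Finset.mem_univ _) h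

lemma finite_of_aut {k L : Type} [Field k] [Field L] [Algebra k L] [IsGalois k L]
    (h : IsOpen ({1} : Set (L ≃ₐ[k] L))) : FiniteDimensional k L := by
  have h1 := (InfiniteGalois.isOpen_iff_finite (⊤ : IntermediateField k L)).mp (by
    rw [IntermediateField.fixingSubgroup_top]
    exact h)
  exact (IntermediateField.topEquiv (F := k) (E := L)).toLinearEquiv.finiteDimensional

/-- a totally real field with independent characters, which remain so over `M` -/
def RealField (ℓ : ℕ) (M R : Type) [Field M] [Field R] [Algebra ℚ R] : Prop :=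
  IsTotallyReal R ∧
    (∀ (X : Type) [Field X] (a : R →+* X) (b : M →+* X) (x : R) (y : M), a x = b y →
      x ∈ (algebraMap ℚ R).range) ∧
    ∃ l₁ l₂ : (R ≃ₐ[ℚ] R) →* Mu ℓ, (∃ g, l₁ g ≠ 1 ∧ l₂ g = 1) ∧ ∃ g, l₂ g ≠ 1

lemma real_aux {ℓ : ℕ} {M R : Type} [Field M] [Field R] [hch : CharZero R] (i2 : Algebra ℚ R)
    (h2 : i2 = DivisionRing.toRatAlgebra) (h3 : IsGalois ℚ R) (h4 : FiniteDimensional ℚ R)
    (h5 : RealField ℓ M R) : ∃ (R : Type) (_ : Field R) (_ : NumberField R) (_ : IsGalois ℚ R),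
      RealField ℓ M R := by
  subst h2
  exact ⟨R, inferInstance, ⟨⟩, h3, h5⟩

theorem exists_real (ℓ : ℕ) [hℓ : Fact ℓ.Prime] (M : Type) [Field M] [NumberField M] :
    ∃ (R : Type) (_ : Field R) (_ : NumberField R) (_ : IsGalois ℚ R), RealField ℓ M R := by
  classical
  obtain ⟨n₀, C₀, hmain⟩ := Pool.Agent.TH377.IG.main_thm
  let n : ℕ := n₀ (Mu ℓ) + C₀ (Mu ℓ) * 0 + 1
  obtain ⟨R, i1, i2, i3, e, hopen, hreal, hdisj, -⟩ := hmain Bool (fun _ => Mu ℓ) (fun _ => 0)
    (fun _ => n) (fun _ => Nat.zero_le _) (fun _ => Nat.le_succ _) (fun _ => ∅)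
    (fun _ _ _ => 1) (fun _ _ _ h => absurd h (Finset.notMem_empty _)) M
  have hn : 0 < n := Nat.succ_pos _
  have hfd : FiniteDimensional ℚ R := by
    apply finite_of_aut
    have h1 : ({1} : Set (R ≃ₐ[ℚ] R)) = ⋂ i : Bool, {s : R ≃ₐ[ℚ] R | e s i = 1} := by
      ext s
      rw [Set.mem_singleton_iff, Set.mem_iInter]
      constructor
      · rintro rfl i
        change e 1 i = 1
        rw [map_one]
        rfl
      · intro h
        apply e.injective
        rw [map_one]
        funext i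
        exact h i
    rw [h1]
    exact isOpen_iInter_of_finite hopen
  have hch : CharZero R := charZero_of_injective_algebraMap (algebraMap ℚ R).injective
  refine real_aux i2 (Subsingleton.elim _ _) i3 hfd ⟨hreal, hdisj, ?_⟩
  have hMu : Nontrivial (Mu ℓ) := by
    have h1 : Nat.card (Mu ℓ) = ℓ := by
      have : NeZero ℓ := ⟨hℓ.out.ne_zero⟩
      exact Complex.card_rootsOfUnity ℓ
    exact Finite.one_lt_card_iff_nontrivial.mp (by rw [h1]; exact hℓ.out.one_lt)
  obtain ⟨ζ, hζ⟩ := exists_ne (1 : Mu ℓ)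
  obtain ⟨z, hz⟩ := prd_surj (Mu ℓ) hn ζ
  let ev : Bool → ((R ≃ₐ[ℚ] R) →* Mu ℓ) := fun b => (prd (Mu ℓ) n).comp
    ((Pi.evalMonoidHom (fun _ : Bool => Wr (Mu ℓ) n) b).comp e.toMonoidHom)
  have hev : ∀ (b : Bool) (w : ∀ _ : Bool, Wr (Mu ℓ) n), ev b (e.symm w) = prd (Mu ℓ) n (w b) := by
    intro b w
    change prd (Mu ℓ) n (e (e.symm w) b) = _
    rw [MulEquiv.apply_symm_apply]
  refine ⟨ev true, ev false, ⟨e.symm (fun b => if b then z else 1), ?_, ?_⟩,
    e.symm (fun _ => z), ?_⟩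
  · rw [hev, if_pos rfl, hz]
    exact hζ
  · rw [hev, if_neg (by simp), map_one]
  · rw [hev, hz]
    exact hζ

/-- restriction to a field which is Galois over `ℚ` -/
noncomputable def resR (K N R : Type) [Field K] [NumberField K] [Field N] [NumberField N]
    [Field R] [NumberField R] [IsGalois ℚ R] [Algebra K N] [Algebra R N]
    [IsScalarTower ℚ K N] [IsScalarTower ℚ R N] : (N ≃ₐ[K] N) →* (R ≃ₐ[ℚ] R) :=
  (AlgEquiv.restrictNormalHom R : (N ≃ₐ[ℚ] N) →* (R ≃ₐ[ℚ] R)).comp
    (MonoidHom.mk' (fun g => g.restrictScalars ℚ) (fun _ _ => rfl))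

lemma resR_apply {K N R : Type} [Field K] [NumberField K] [Field N] [NumberField N]
    [Field R] [NumberField R] [IsGalois ℚ R] [Algebra K N] [Algebra R N]
    [IsScalarTower ℚ K N] [IsScalarTower ℚ R N] (g : N ≃ₐ[K] N) (x : R) :
    algebraMap R N (resR K N R g x) = g (algebraMap R N x) :=
  AlgEquiv.restrictNormal_commutes (g.restrictScalars ℚ) R x

/-- the image of the Galois group over a subfield -/
lemma resR_surj {K N R : Type} [Field K] [NumberField K] [Field N] [NumberField N]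
    [Field R] [NumberField R] [IsGalois ℚ R] [Algebra K N] [IsGalois K N] [Algebra R N]
    [IsScalarTower ℚ K N] [IsScalarTower ℚ R N]
    (hdisj : ∀ (X : Type) [Field X] (a : R →+* X) (b : K →+* X) (x : R) (y : K), a x = b y →
      x ∈ (algebraMap ℚ R).range) : Function.Surjective (resR K N R) := by
  have hfin : FiniteDimensional K N := Module.Finite.of_restrictScalars_finite ℚ K N
  rw [← MonoidHom.range_eq_top]
  have h1 : IntermediateField.fixedField (resR K N R).range = ⊥ := by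
    rw [eq_bot_iff]
    intro x hx
    have h2 : ∀ g : N ≃ₐ[K] N, g (algebraMap R N x) = algebraMap R N x := by
      intro g
      rw [← resR_apply]
      exact congrArg _ (hx ⟨resR K N R g, g, rfl⟩)
    obtain ⟨y, hy⟩ := (IsGalois.mem_range_algebraMap_iff_fixed (F := K) _).mpr h2
    obtain ⟨q, hq⟩ := hdisj N (algebraMap R N) (algebraMap K N) x y hy.symm
    exact IntermediateField.mem_bot.mpr ⟨q, hq⟩
  rw [← IntermediateField.fixingSubgroup_fixedField (resR K N R).range, h1,
    IntermediateField.fixingSubgroup_bot]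

/-- complex conjugations -/
lemma resR_conj {K N R : Type} [Field K] [NumberField K] [Field N] [NumberField N]
    [Field R] [NumberField R] [IsGalois ℚ R] [Algebra K N] [Algebra R N]
    [IsScalarTower ℚ K N] [IsScalarTower ℚ R N] [IsTotallyReal R] {c : N ≃ₐ[K] N}
    (hc : c ∈ CC K N) : resR K N R c = 1 := by
  obtain ⟨φ, hφ⟩ := hc
  ext x
  apply (φ.comp (algebraMap R N)).injective
  have h1 := IsTotallyReal.complexEmbedding_isReal (φ.comp (algebraMap R N))
  change φ (algebraMap R N (resR K N R c x)) = φ (algebraMap R N x)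
  rw [resR_apply, hφ.eq]
  exact RingHom.congr_fun h1 x

/-- **Two independent characters which are trivial on the complex conjugations.** -/
theorem exists_pair (ℓ : ℕ) [hℓ : Fact ℓ.Prime] (K L : Type) [Field K] [NumberField K] [Field L]
    [NumberField L] [Algebra K L] [IsGalois K L] :
    ∃ (N : Type) (_ : Field N) (_ : NumberField N) (_ : Algebra K N) (_ : Algebra L N)
      (_ : IsScalarTower K L N) (_ : IsGalois K N) (l₁ l₂ : (N ≃ₐ[K] N) →* Mu ℓ),
      (∀ c ∈ CC K N, l₁ c = 1 ∧ l₂ c = 1) ∧ (∃ g, l₁ g ≠ 1 ∧ l₂ g = 1) ∧ ∃ g, l₂ g ≠ 1 := by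
  obtain ⟨R, _, _, _, hR, hdisj, l₁, l₂, ⟨g₁, h1, h2⟩, g₂, h3⟩ := exists_real ℓ K
  obtain ⟨N, j1, j2, j3, ⟨i⟩, ⟨a⟩⟩ := exists_big L R
  let aL : Algebra L N := i.toAlgebra
  let aR : Algebra R N := a.toAlgebra
  let aK : Algebra K N := ((algebraMap L N).comp (algebraMap K L)).toAlgebra
  have t1 : IsScalarTower K L N := IsScalarTower.of_algebraMap_eq fun x => rfl
  have t2 : IsScalarTower ℚ K N := IsScalarTower.of_algebraMap_eq' (Subsingleton.elim _ _)
  have t3 : IsScalarTower ℚ R N := IsScalarTower.of_algebraMap_eq' (Subsingleton.elim _ _)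
  have t4 : IsGalois K N := IsGalois.tower_top_of_isGalois ℚ K N
  have hs := resR_surj (K := K) (N := N) hdisj
  refine ⟨N, j1, j2, aK, aL, t1, t4, l₁.comp (resR K N R), l₂.comp (resR K N R), ?_, ?_, ?_⟩
  · intro c hc
    rw [MonoidHom.comp_apply, MonoidHom.comp_apply, resR_conj hc, map_one, map_one]
    exact ⟨rfl, rfl⟩
  · obtain ⟨g, hg⟩ := hs g₁
    refine ⟨g, ?_, ?_⟩
    · rw [MonoidHom.comp_apply, hg]; exact h1
    · rw [MonoidHom.comp_apply, hg]; exact h2
  · obtain ⟨g, hg⟩ := hs g₂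
    exact ⟨g, by rw [MonoidHom.comp_apply, hg]; exact h3⟩

end Pool.Agent.H99.Ov
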