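import Mathlib
import Pool.Agent.H99.Ov.Def
import Pool.Agent.H99.Ov.Gn

/-!
# Finite levels
-/

set_option autoImplicit false
set_option linter.unusedSectionVars false

namespace Pool.Agent.H99.Ov

open NumberField Pool.Agent.R389 Pool.Agent.H37.Stk Pool.Agent.K4H74.ST Pool.Agent.K4H74.SC
  Pool.Agent.W446.AS

/-- the field of the algebraic numbers -/
def EE : Type := AlgebraicClosure ℚ

noncomputable instance : Field EE := inferInstanceAs (Field (AlgebraicClosure ℚ))

instance : CharZero EE := inferInstanceAs (CharZero (AlgebraicClosure ℚ))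

instance : IsAlgClosed EE := inferInstanceAs (IsAlgClosed (AlgebraicClosure ℚ))

instance : Algebra.IsAlgebraic ℚ EE := by
  have h1 : @Algebra.IsAlgebraic ℚ (AlgebraicClosure ℚ) _ _ (AlgebraicClosure.instAlgebra ℚ) :=
    inferInstance
  have h2 : (AlgebraicClosure.instAlgebra ℚ : Algebra ℚ (AlgebraicClosure ℚ))
      = DivisionRing.toRatAlgebra := Subsingleton.elim _ _
  rw [h2] at h1
  exact h1

instance : IsAlgClosure ℚ EE := ⟨inferInstance, inferInstance⟩

instance : IsGalois ℚ EE := IsAlgClosure.isGalois ℚ EE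

/-- an embedding of the field of the algebraic numbers -/
noncomputable def jj : EE →+* ℂ := (IsAlgClosed.lift : EE →ₐ[ℚ] ℂ).toRingHom

section level

variable {N : Type} [Field N] [NumberField N]

lemma exists_emb (N : Type) [Field N] [NumberField N] : Nonempty (N →+* EE) := by
  let f : N →ₐ[ℚ] EE := IsAlgClosed.lift
  exact ⟨f.toRingHom⟩

variable [IsGalois ℚ N]

/-- lifting automorphisms -/
lemma exists_lift_aut (ι : N →+* EE) (g : N ≃ₐ[ℚ] N) :
    ∃ c : EE ≃ₐ[ℚ] EE, Tw (c : EE ≃+* EE) ι g := by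
  let _ : Algebra N EE := ι.toAlgebra
  have h1 : IsScalarTower ℚ N EE := IsScalarTower.of_algebraMap_eq' (Subsingleton.elim _ _)
  obtain ⟨c, hc⟩ := AlgEquiv.restrictNormalHom_surjective (F := ℚ) (K₁ := N) EE g
  refine ⟨c, fun x => ?_⟩
  have h2 := AlgEquiv.restrictNormal_commutes c N x
  change ι (AlgEquiv.restrictNormalHom N c x) = c (ι x) at h2
  rw [hc] at h2
  exact h2.symm

/-- the values on the characters of the group of the level -/
lemma tv_level {c : EE ≃ₐ[ℚ] EE} {ι : N →+* EE} {g : N ≃ₐ[ℚ] N} (h : Tw (c : EE ≃+* EE) ι g)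
    {χ : (N ≃ₐ[ℚ] N) → ℂ} (hχ : IsChar χ) : tv (c : EE ≃+* EE) ℚ N χ = χ g := by
  rw [tv_eq_fix jj hχ]
  have h1 : Unique (FixEmb ℚ c) :=
    { default := ⟨algebraMap ℚ EE, fun x => by simp⟩
      uniq := fun a => Subtype.ext (Subsingleton.elim _ _) }
  rw [finsum_eq_single _ (default : FixEmb ℚ c) (fun x hx => absurd (Subsingleton.elim _ _) hx)]
  rw [at'_same (c := c) jj hχ (τ' := ι) (Subsingleton.elim _ _), at'_eq h]

end level

/-- induction in terms of the subgroup of the automorphisms which fix the intermediate field -/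
lemma indChar_range (K F L : Type) [Field K] [NumberField K] [Field F] [NumberField F] [Field L]
    [NumberField L] [Algebra K F] [Algebra F L] [Algebra K L] [IsScalarTower K F L] :
    ∃ (H : Subgroup (L ≃ₐ[K] L)) (e : H ≃* (L ≃ₐ[F] L)),
      (∀ h, (e h).restrictScalars K = (h : L ≃ₐ[K] L)) ∧
      ∀ χ : (L ≃ₐ[F] L) → ℂ, indChar K F L χ = ind H (fun h => χ (e h)) := by
  classical
  let r : (L ≃ₐ[F] L) →* (L ≃ₐ[K] L) :=
    { toFun := fun h => h.restrictScalars K
      map_one' := rfl
      map_mul' := fun _ _ => rfl }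
  have hr : Function.Injective r := by
    intro a b hab
    ext x
    exact DFunLike.congr_fun hab x
  let e : r.range ≃* (L ≃ₐ[F] L) := (MonoidHom.ofInjective hr).symm
  have he : ∀ h : r.range, (e h).restrictScalars K = (h : L ≃ₐ[K] L) := by
    intro h
    have h2 := (MonoidHom.ofInjective hr).apply_symm_apply h
    exact congrArg Subtype.val h2
  refine ⟨r.range, e, he, fun χ => ?_⟩
  have hc : Nat.card r.range = Nat.card (L ≃ₐ[F] L) := Nat.card_congr e.toEquiv
  funext g
  rw [ind, indChar, hc]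
  congr 1
  refine finsum_congr fun x => ?_
  by_cases hx : x⁻¹ * g * x ∈ r.range
  · rw [ext_mem _ _ hx]
    rw [finsum_eq_single _ (e ⟨_, hx⟩)]
    · rw [finsum_eq_single _ (he ⟨_, hx⟩)]
      intro h1 h2
      exact absurd rfl h2
    · intro h hh
      refine @finsum_of_isEmpty _ _ _ ⟨fun h1 => ?_⟩ _
      apply hh
      apply e.symm.injective
      rw [MulEquiv.symm_apply_apply]
      apply Subtype.ext
      have h2 := he (e.symm h)
      rw [MulEquiv.apply_symm_apply] at h2
      rw [← h2, h1]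
  · rw [ext_not _ _ hx]
    apply finsum_eq_zero_of_forall_eq_zero
    intro h
    refine @finsum_of_isEmpty _ _ _ ⟨fun h1 => ?_⟩ _
    apply hx
    rw [← h1]
    have h2 := he (e.symm h)
    rw [MulEquiv.apply_symm_apply] at h2
    rw [h2]
    exact (e.symm h).2

/-- the order over a totally complex field -/
lemma ord_complex (K L : Type) [Field K] [NumberField K] [Field L] [NumberField L] [Algebra K L]
    [hK : IsTotallyComplex K] (ψ : (L ≃ₐ[K] L) →* ℂˣ) :
    Module.finrank ℚ K = ord K L ψ * 2 := by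
  classical
  have h1 : ord K L ψ = Nat.card (InfinitePlace K) := by
    refine Nat.card_congr ⟨fun v => v.1, fun v => ⟨v, ?_⟩, fun v => rfl, fun v => rfl⟩
    intro φ c hv hc
    exfalso
    have h2 : InfinitePlace.IsComplex v := hK.isComplex v
    rw [← hv] at h2
    have h3 : InfinitePlace.IsReal (InfinitePlace.mk (φ.comp (algebraMap K L))) :=
      ⟨_, hc.isReal_comp, rfl⟩
    exact InfinitePlace.not_isReal_iff_isComplex.mpr h2 h3
  have h2 : Nat.card (InfinitePlace K) = InfinitePlace.nrComplexPlaces K := by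
    rw [InfinitePlace.nrComplexPlaces, ← Nat.card_eq_fintype_card]
    exact Nat.card_congr ⟨fun v => ⟨v, hK.isComplex v⟩, fun v => v.1, fun v => rfl, fun v => rfl⟩
  rw [h1, h2, mul_comm, ← NumberField.IsTotallyComplex.finrank K]

end Pool.Agent.H99.Ov
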