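import Mathlib
import Pool.Agent.H99.Ov.Def
import Pool.Agent.H37.Stk.Inv

/-!
# Orders of vanishing over extensions of the base field
-/

set_option autoImplicit false
set_option linter.unusedSectionVars false

namespace Pool.Agent.H99.Ov

open NumberField Pool.Agent.R389 Pool.Agent.H37.Stk Pool.Agent.K4H74.ST

/-- `ψ` is trivial on the decomposition groups of `v` -/
def gd (K L : Type) [Field K] [Field L] [Algebra K L] (ψ : (L ≃ₐ[K] L) →* ℂˣ)
    (v : InfinitePlace K) : Prop :=
  ∀ (φ : L →+* ℂ) (c : L ≃ₐ[K] L),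
    InfinitePlace.mk (φ.comp (algebraMap K L)) = v → ComplexEmbedding.IsConj φ c → ψ c = 1

lemma ord_eq (K L : Type) [Field K] [Field L] [Algebra K L] (ψ : (L ≃ₐ[K] L) →* ℂˣ) :
    ord K L ψ = Nat.card {v : InfinitePlace K // gd K L ψ v} := rfl

open Classical in
/-- the order as a sum over the embeddings -/
lemma ord_sum (K L : Type) [Field K] [NumberField K] [Field L] [Algebra K L]
    (ψ : (L ≃ₐ[K] L) →* ℂˣ) :
    2 * ord K L ψ = ∑ κ : K →+* ℂ,
      if gd K L ψ (InfinitePlace.mk κ) then 3 - (InfinitePlace.mk κ).mult else 0 := by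
  let h : InfinitePlace K → ℕ := fun v => if gd K L ψ v then 3 - v.mult else 0
  have h1 : ∑ κ : K →+* ℂ, h (InfinitePlace.mk κ) = ∑ v : InfinitePlace K, v.mult * h v := by
    rw [← Finset.sum_fiberwise Finset.univ (fun κ : K →+* ℂ => InfinitePlace.mk κ)]
    refine Finset.sum_congr rfl fun v _ => ?_
    rw [Finset.sum_congr rfl (g := fun _ => h v)
      (fun κ hκ => by rw [(Finset.mem_filter.mp hκ).2]), Finset.sum_const, smul_eq_mul,
      InfinitePlace.card_filter_mk_eq]
  change _ = ∑ κ : K →+* ℂ, h (InfinitePlace.mk κ)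
  rw [h1, ord_eq, Nat.card_eq_fintype_card, Fintype.card_subtype, mul_comm, ← smul_eq_mul,
    ← Finset.sum_const, Finset.sum_filter]
  refine Finset.sum_congr rfl fun v _ => ?_
  by_cases hv : gd K L ψ v
  · simp only [h]
    rw [if_pos hv, if_pos hv]
    rcases v.isReal_or_isComplex with h2 | h2
    · rw [InfinitePlace.mult_isReal ⟨v, h2⟩]
    · rw [InfinitePlace.mult_isComplex ⟨v, h2⟩]
  · simp only [h]
    rw [if_neg hv, if_neg hv, mul_zero]

section tower

variable {K F N : Type} [Field K] [NumberField K] [Field F] [NumberField F] [Field N]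
  [NumberField N] [Algebra K F] [Algebra F N] [Algebra K N] [IsScalarTower K F N] [IsGalois K N]

/-- **The order over an extension of the base field.** -/
theorem ord_tower (hCC : ∀ c ∈ CC K N, ∃ c' : N ≃ₐ[F] N, c'.restrictScalars K = c)
    (ψ : (N ≃ₐ[K] N) →* ℂˣ) (ψ' : (N ≃ₐ[F] N) →* ℂˣ)
    (hψ : ∀ c' : N ≃ₐ[F] N, c'.restrictScalars K ∈ CC K N → ψ' c' = ψ (c'.restrictScalars K)) :
    ord F N ψ' = Module.finrank K F * ord K N ψ := by
  classical
  have hKFN : ∀ φ : N →+* ℂ, (φ.comp (algebraMap F N)).comp (algebraMap K F)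
      = φ.comp (algebraMap K N) := by
    intro φ
    ext x
    change φ (algebraMap F N (algebraMap K F x)) = φ (algebraMap K N x)
    rw [← IsScalarTower.algebraMap_apply K F N]
  have hconj : ∀ κ' : F →+* ℂ, ComplexEmbedding.IsReal (κ'.comp (algebraMap K F)) →
      ∃ (φ : N →+* ℂ) (c' : N ≃ₐ[F] N), φ.comp (algebraMap F N) = κ' ∧
        ComplexEmbedding.IsConj φ (c'.restrictScalars K) := by
    intro κ' hκ
    let φ : N →+* ℂ := ComplexEmbedding.lift N κ'
    have h2 : φ.comp (algebraMap F N) = κ' := ComplexEmbedding.lift_comp_algebraMap N _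
    obtain ⟨c, hc⟩ := exists_conj (K := K) (φ := φ) (by rw [← hKFN, h2]; exact hκ)
    obtain ⟨c', rfl⟩ := hCC c ⟨φ, hc⟩
    exact ⟨φ, c', h2, hc⟩
  have hreal : ∀ κ' : F →+* ℂ, ComplexEmbedding.IsReal κ' ↔
      ComplexEmbedding.IsReal (κ'.comp (algebraMap K F)) := by
    intro κ'
    constructor
    · intro h
      ext x
      exact RingHom.congr_fun h (algebraMap K F x)
    · intro h
      obtain ⟨φ, c', h1, h2⟩ := hconj κ' h
      ext x
      rw [← h1]
      change star (φ (algebraMap F N x)) = φ (algebraMap F N x)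
      rw [← h2.eq]
      congr 1
      exact c'.commutes x
  have hmult : ∀ κ' : F →+* ℂ, (InfinitePlace.mk κ').mult
      = (InfinitePlace.mk (κ'.comp (algebraMap K F))).mult := by
    intro κ'
    by_cases h : ComplexEmbedding.IsReal κ'
    · rw [InfinitePlace.mult_isReal ⟨_, InfinitePlace.isReal_mk_iff.mpr h⟩,
        InfinitePlace.mult_isReal ⟨_, InfinitePlace.isReal_mk_iff.mpr ((hreal κ').mp h)⟩]
    · have h' : ¬ ComplexEmbedding.IsReal (κ'.comp (algebraMap K F)) := fun h1 =>
        h ((hreal κ').mpr h1)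
      rw [InfinitePlace.mult_isComplex ⟨_, InfinitePlace.isComplex_mk_iff.mpr h⟩,
        InfinitePlace.mult_isComplex ⟨_, InfinitePlace.isComplex_mk_iff.mpr h'⟩]
  have hgd : ∀ κ' : F →+* ℂ, gd F N ψ' (InfinitePlace.mk κ') ↔
      gd K N ψ (InfinitePlace.mk (κ'.comp (algebraMap K F))) := by
    intro κ'
    constructor
    · intro h φ c h1 hc
      have h2 : ComplexEmbedding.IsReal (φ.comp (algebraMap K N)) := hc.isReal_comp
      have h3 : κ'.comp (algebraMap K F) = φ.comp (algebraMap K N) := by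
        rcases InfinitePlace.mk_eq_iff.mp h1 with h4 | h4
        · exact h4.symm
        · rw [← h4]
          exact h2
      obtain ⟨φ₀, c', h5, h6⟩ := hconj κ' (by rw [h3]; exact h2)
      have h7 : ComplexEmbedding.IsConj φ₀ c' := by
        ext x
        exact (h6.eq x).symm
      have h8 := h φ₀ c' (by rw [h5]) h7
      rw [hψ c' ⟨φ₀, h6⟩] at h8
      rw [← h8]
      exact conj_same ψ hc h6 (by rw [← hKFN φ₀, h5, h3])
    · intro h φ c' h1 hc
      have h2 : ComplexEmbedding.IsConj φ (c'.restrictScalars K) := by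
        ext x
        exact (hc.eq x).symm
      rw [hψ c' ⟨φ, h2⟩]
      refine h φ _ ?_ h2
      rw [← hKFN, ← InfinitePlace.comap_mk, h1, InfinitePlace.comap_mk]
  have key : 2 * ord F N ψ' = 2 * (Module.finrank K F * ord K N ψ) := by
    rw [ord_sum]
    have h1 : 2 * (Module.finrank K F * ord K N ψ) = Module.finrank K F * (2 * ord K N ψ) := by
      ring
    rw [h1, ord_sum K N ψ, Finset.mul_sum]
    let H : (K →+* ℂ) → ℕ := fun κ =>
      if gd K N ψ (InfinitePlace.mk κ) then 3 - (InfinitePlace.mk κ).mult else 0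
    have h2 : ∀ κ' : F →+* ℂ, (if gd F N ψ' (InfinitePlace.mk κ') then
        3 - (InfinitePlace.mk κ').mult else 0) = H (κ'.comp (algebraMap K F)) := by
      intro κ'
      simp only [H]
      rw [hmult κ']
      by_cases h3 : gd F N ψ' (InfinitePlace.mk κ')
      · rw [if_pos h3, if_pos ((hgd κ').mp h3)]
      · rw [if_neg h3, if_neg (fun h4 => h3 ((hgd κ').mpr h4))]
    rw [Finset.sum_congr rfl (fun κ' _ => h2 κ'),
      ← Finset.sum_fiberwise Finset.univ (fun κ' : F →+* ℂ => κ'.comp (algebraMap K F))]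
    refine Finset.sum_congr rfl fun κ _ => ?_
    rw [Finset.sum_congr rfl (g := fun _ => H κ)
      (fun κ' hκ => by rw [(Finset.mem_filter.mp hκ).2]), Finset.sum_const, smul_eq_mul]
    congr 1
    rw [← card_lift (E := ℂ) (N := F) κ, Nat.card_eq_fintype_card, Fintype.card_subtype]
  exact Nat.eq_of_mul_eq_mul_left (by norm_num) key

end tower

/-- inflation -/
theorem ord_infl (K L N : Type) [Field K] [NumberField K] [Field L] [NumberField L] [Field N]
    [NumberField N] [Algebra K L] [IsGalois K L] [Algebra K N] [IsGalois K N] [Algebra L N]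
    [IsScalarTower K L N] (ψ : (L ≃ₐ[K] L) →* ℂˣ) :
    ord K N (ψ.comp (AlgEquiv.restrictNormalHom L)) = ord K L ψ := by
  have hKLN : ∀ φ : N →+* ℂ, (φ.comp (algebraMap L N)).comp (algebraMap K L)
      = φ.comp (algebraMap K N) := by
    intro φ
    ext x
    change φ (algebraMap L N (algebraMap K L x)) = φ (algebraMap K N x)
    rw [← IsScalarTower.algebraMap_apply K L N]
  rw [ord_eq, ord_eq]
  refine Nat.card_congr (Equiv.subtypeEquivRight fun v => ?_)
  constructor
  · intro h φ c h1 hc
    let φ' : N →+* ℂ := ComplexEmbedding.lift N φ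
    have h2 : φ'.comp (algebraMap L N) = φ := ComplexEmbedding.lift_comp_algebraMap N _
    have h3 : φ'.comp (algebraMap K N) = φ.comp (algebraMap K L) := by rw [← hKLN, h2]
    obtain ⟨c', hc'⟩ := exists_conj (K := K) (φ := φ') (by rw [h3]; exact hc.isReal_comp)
    have h4 := h φ' c' (by rw [h3]; exact h1) hc'
    have h5 : ComplexEmbedding.IsConj φ (AlgEquiv.restrictNormalHom L c') := by
      have := isConj_res (L := L) hc'
      rwa [h2] at this
    have h6 := h5.ext hc
    rw [← h6]
    exact h4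
  · intro h φ c h1 hc
    exact h _ _ (by rw [hKLN]; exact h1) (isConj_res hc)

end Pool.Agent.H99.Ov
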