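import Mathlib
import Pool.Agent.H99.Ov.Ord
import Pool.Agent.H99.Ov.Fr
import Pool.Agent.H99.Ov.Lvl

/-!
# Sufficiency
-/

set_option autoImplicit false
set_option linter.unusedSectionVars false

namespace Pool.Agent.H99.Ov

open NumberField Pool.Agent.R389 Pool.Agent.H37.Stk Pool.Agent.K4H74.ST Pool.Agent.K4H74.SC

section sums

/-- the sum of the powers -/
noncomputable def SS (ℓ : ℕ) (z : ℂ) : ℂ := ∑ t ∈ Finset.range ℓ, z ^ t

lemma SS_one (ℓ : ℕ) : SS ℓ 1 = ℓ := by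
  simp [SS]

lemma SS_ne {ℓ : ℕ} {z : ℂ} (hz : z ^ ℓ = 1) (h : z ≠ 1) : SS ℓ z = 0 := by
  rw [SS, geom_sum_eq h, hz, sub_self, zero_div]

lemma SS_key {ℓ : ℕ} [hℓ : Fact ℓ.Prime] {x y : ℂ} (hy : y ^ ℓ = 1) :
    ∑ s ∈ Finset.range ℓ, SS ℓ (x * y ^ s) + SS ℓ y - ∑ a ∈ Finset.range ℓ, x ^ a * SS ℓ y
      = ℓ := by
  by_cases h : y = 1
  · subst h
    simp only [one_pow, mul_one, SS_one, Finset.sum_const, Finset.card_range, nsmul_eq_mul]
    rw [← Finset.sum_mul]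
    change (ℓ : ℂ) * SS ℓ x + ℓ - SS ℓ x * ℓ = ℓ
    ring
  · rw [SS_ne hy h]
    simp only [mul_zero, Finset.sum_const_zero, sub_zero, add_zero]
    have h1 : ∑ s ∈ Finset.range ℓ, SS ℓ (x * y ^ s)
        = ∑ t ∈ Finset.range ℓ, x ^ t * SS ℓ (y ^ t) := by
      simp only [SS, Finset.mul_sum]
      rw [Finset.sum_comm]
      refine Finset.sum_congr rfl fun t _ => Finset.sum_congr rfl fun s _ => ?_
      rw [mul_pow, ← pow_mul, ← pow_mul, mul_comm s t]
    have hord : orderOf y = ℓ := orderOf_eq_prime hy h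
    rw [h1, Finset.sum_eq_single 0]
    · rw [pow_zero, pow_zero, SS_one, one_mul]
    · intro t ht ht0
      rw [SS_ne, mul_zero]
      · rw [← pow_mul, mul_comm, pow_mul, hy, one_pow]
      · intro h2
        have h3 := orderOf_dvd_of_pow_eq_one h2
        rw [hord] at h3
        have h4 := Nat.le_of_dvd (Nat.pos_of_ne_zero ht0) h3
        have h5 := Finset.mem_range.mp ht
        omega
    · intro h2
      exact absurd (Finset.mem_range.mpr hℓ.out.pos) h2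

end sums

section ker

variable {G : Type} [Group G] [Finite G] {ℓ : ℕ} [hℓ : Fact ℓ.Prime]

/-- the coercion of a character with values in the roots of unity -/
noncomputable def cx (l : G →* Mu ℓ) : G →* ℂˣ := (rootsOfUnity ℓ ℂ).subtype.comp l

lemma cx_apply (l : G →* Mu ℓ) (g : G) : cx l g = ((l g : Mu ℓ) : ℂˣ) := rfl

lemma cx_pow (l : G →* Mu ℓ) (g : G) : ((cx l g : ℂˣ) : ℂ) ^ ℓ = 1 := by
  have h := (l g).2
  rw [mem_rootsOfUnity] at h
  rw [← Units.val_pow_eq_pow_val, cx_apply, h, Units.val_one]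

lemma ker_index {l : G →* Mu ℓ} (hl : ∃ g, l g ≠ 1) : l.ker.index = ℓ := by
  rw [Subgroup.index_ker]
  have hc : Nat.card (Mu ℓ) = ℓ := by
    have : NeZero ℓ := ⟨hℓ.out.ne_zero⟩
    exact Complex.card_rootsOfUnity ℓ
  have h1 : Nat.card l.range ∣ ℓ := by
    have h2 := Subgroup.card_subgroup_dvd_card l.range
    rwa [hc] at h2
  rcases (Nat.dvd_prime hℓ.out).mp h1 with h2 | h2
  · exfalso
    obtain ⟨g, hg⟩ := hl
    apply hg
    have h3 : Subsingleton l.range := (Nat.card_eq_one_iff_unique.mp h2).1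
    have h4 := Subsingleton.elim (⟨l g, MonoidHom.mem_range.mpr ⟨g, rfl⟩⟩ : l.range) 1
    exact congrArg Subtype.val h4
  · exact h2

/-- the sum of the twists by the powers of a character -/
noncomputable def FF (l : G →* Mu ℓ) (ρ : G →* ℂˣ) : G → ℂ :=
  ∑ t ∈ Finset.range ℓ, lc (cx l ^ t * ρ)

lemma FF_apply (l : G →* Mu ℓ) (ρ : G →* ℂˣ) (g : G) :
    FF l ρ g = SS ℓ ((cx l g : ℂˣ) : ℂ) * ((ρ g : ℂˣ) : ℂ) := by
  rw [FF, Finset.sum_apply, SS, Finset.sum_mul]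
  refine Finset.sum_congr rfl fun t _ => ?_
  rw [lc, MonoidHom.mul_apply, MonoidHom.pow_apply, Units.val_mul, Units.val_pow_eq_pow_val]

/-- induction from the kernel -/
lemma ind_ker {l : G →* Mu ℓ} (hl : ∃ g, l g ≠ 1) (ρ : G →* ℂˣ) :
    ind l.ker (fun h => ((ρ h : ℂˣ) : ℂ)) = FF l ρ := by
  classical
  have : Fintype G := Fintype.ofFinite G
  funext g
  rw [ind_eq, FF_apply]
  by_cases hg : l g = 1
  · have h2 : ((cx l g : ℂˣ) : ℂ) = 1 := by rw [cx_apply, hg]; rfl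
    rw [h2, SS_one]
    have h3 : ∀ x : G, ext l.ker (fun h => ((ρ h : ℂˣ) : ℂ)) (x⁻¹ * g * x)
        = ((ρ g : ℂˣ) : ℂ) := by
      intro x
      have h4 : x⁻¹ * g * x ∈ l.ker := by
        rw [MonoidHom.mem_ker, map_mul, map_mul, hg, mul_one, map_inv, inv_mul_cancel]
      rw [ext_mem _ _ h4]
      congr 1
      rw [map_mul, map_mul, map_inv, mul_comm (ρ x)⁻¹, inv_mul_cancel_right]
    rw [Finset.sum_congr rfl (fun x _ => h3 x), Finset.sum_const, Finset.card_univ, nsmul_eq_mul,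
      ← mul_assoc]
    congr 1
    have h5 := l.ker.card_mul_index
    rw [ker_index hl, Nat.card_eq_fintype_card (α := G)] at h5
    have h6 : (Nat.card l.ker : ℂ) ≠ 0 := by exact_mod_cast Nat.card_pos.ne'
    rw [← h5]
    push_cast
    field_simp
  · have h2 : ((cx l g : ℂˣ) : ℂ) ≠ 1 := by
      intro h
      apply hg
      apply Subtype.ext
      exact Units.ext h
    rw [SS_ne (cx_pow l g) h2, zero_mul, Finset.sum_eq_zero, mul_zero]
    intro x _
    rw [ext_not]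
    intro h3
    apply hg
    rw [MonoidHom.mem_ker, map_mul, map_mul, map_inv, mul_comm (l x)⁻¹, inv_mul_cancel_right] at h3
    exact h3

end ker

/-- the elements of order prime to `p` -/
def Pp (p : ℕ) (hp : p.Prime) (M : Type) [CommGroup M] : Subgroup M where
  carrier := {x | ∃ k : ℕ, ¬ p ∣ k ∧ x ^ k = 1}
  one_mem' := ⟨1, fun h => hp.one_lt.ne' (Nat.dvd_one.mp h), one_pow 1⟩
  mul_mem' := by
    rintro a b ⟨k, hk, ha⟩ ⟨l, hl, hb⟩
    refine ⟨k * l, fun h => (hp.dvd_mul.mp h).elim hk hl, ?_⟩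
    rw [mul_pow, pow_mul, ha, one_pow, one_mul, mul_comm, pow_mul, hb, one_pow]
  inv_mem' := by
    rintro a ⟨k, hk, ha⟩
    exact ⟨k, hk, by rw [inv_pow, ha, inv_one]⟩

/-- the values on the characters of order `m` have order prime to `p` (over the totally complex
fields, if `b` holds) -/
def TO (p : ℕ) (hp : p.Prime) (b : Prop) {M : Type} [CommGroup M] (A : ArtinInvariant M)
    (m : ℕ) : Prop :=
  ∀ (K L : Type) [Field K] [NumberField K] [Field L] [NumberField L] [Algebra K L] [IsGalois K L]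
    (ψ : (L ≃ₐ[K] L) →* ℂˣ), (b → IsTotallyComplex K) → ord K L ψ = m →
      A.val K L (lc ψ) ∈ Pp p hp M

section step

variable {M : Type} [CommGroup M] {A : ArtinInvariant M} {p : ℕ} {hp : p.Prime} {b : Prop}

variable {ℓ : ℕ} [hℓ : Fact ℓ.Prime] {K N : Type} [Field K] [NumberField K] [Field N]
  [NumberField N] [Algebra K N] [IsGalois K N]

lemma ker_mem {m : ℕ} (hT : TO p hp b A (ℓ * m)) (hK : b → IsTotallyComplex K) {l : (N ≃ₐ[K] N) →* Mu ℓ}
    (hl : ∃ g, l g ≠ 1) (hlC : ∀ c ∈ CC K N, l c = 1) {ψ ρ : (N ≃ₐ[K] N) →* ℂˣ}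
    (hρ : ∀ c ∈ CC K N, ρ c = ψ c) (hm : ord K N ψ = m) :
    FF l ρ ∈ TT A (K := K) (L := N) (Pp p hp M) := by
  have hfin : FiniteDimensional K N := Module.Finite.of_restrictScalars_finite ℚ K N
  rw [← ind_ker hl ρ]
  have hch : IsChar (fun h : l.ker => ((ρ h : ℂˣ) : ℂ)) := IsChar.lc (ρ.comp l.ker.subtype)
  rw [mem_TT_char A (isChar_ind _ hch), val_ind_fixed A l.ker hch]
  let e := IntermediateField.subgroupEquivAlgEquiv l.ker
  let ρ' : (N ≃ₐ[IntermediateField.fixedField l.ker] N) →* ℂˣ :=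
    (ρ.comp l.ker.subtype).comp e.symm.toMonoidHom
  have he : ∀ h : l.ker, (e h).restrictScalars K = (h : N ≃ₐ[K] N) := by
    intro h
    ext x
    rfl
  have he' : ∀ c', ((e.symm c' : l.ker) : N ≃ₐ[K] N) = c'.restrictScalars K := by
    intro c'
    rw [← he, MulEquiv.apply_symm_apply]
  apply hT (IntermediateField.fixedField l.ker) N ρ'
  · intro hb
    have := hK hb
    exact isTotallyComplex_of_algebra K (IntermediateField.fixedField l.ker)
  rw [ord_tower (K := K) (F := IntermediateField.fixedField l.ker) (N := N) ?_ ψ ρ' ?_, hm]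
  · congr 1
    have h1 := l.ker.card_mul_index
    rw [ker_index hl] at h1
    have h2 : Nat.card l.ker = Module.finrank (IntermediateField.fixedField l.ker) N := by
      rw [IntermediateField.finrank_fixedField_eq_card]
    rw [IsGalois.card_aut_eq_finrank, h2,
      ← Module.finrank_mul_finrank K (IntermediateField.fixedField l.ker) N, mul_comm] at h1
    exact (Nat.eq_of_mul_eq_mul_right Module.finrank_pos h1).symm
  · intro c hc
    exact ⟨e ⟨c, MonoidHom.mem_ker.mpr (hlC c hc)⟩, he _⟩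
  · intro c' hc
    change ρ ((e.symm c' : l.ker) : N ≃ₐ[K] N) = _
    rw [he', hρ _ hc]

end step

/-- **The step.** -/
theorem TO_step {M : Type} [CommGroup M] {A : ArtinInvariant M} {p : ℕ} {hp : p.Prime} {b : Prop}
    {ℓ : ℕ} (hℓ : ℓ.Prime) (hne : ℓ ≠ p) {m : ℕ} (hT : TO p hp b A (ℓ * m)) :
    TO p hp b A m := by
  have : Fact ℓ.Prime := ⟨hℓ⟩
  intro K L _ _ _ _ _ _ ψ hK hψ
  obtain ⟨N, _, _, _, _, _, _, l₁, l₂, hC, ⟨g₁, h1, h2⟩, hg₂⟩ := exists_pair ℓ K L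
  let ψN : (N ≃ₐ[K] N) →* ℂˣ := ψ.comp (AlgEquiv.restrictNormalHom L)
  have hord : ord K N ψN = m := by rw [← hψ]; exact ord_infl K L N ψ
  have hval : A.val K N (lc ψN) = A.val K L (lc ψ) := val_lin_res ψ
  rw [← hval]
  have m1 : ∀ s : ℕ, FF (l₁ * l₂ ^ s) ψN ∈ TT A (K := K) (L := N) (Pp p hp M) := by
    intro s
    refine ker_mem hT hK ⟨g₁, ?_⟩ ?_ (fun c _ => rfl) hord
    · rw [MonoidHom.mul_apply, MonoidHom.pow_apply, h2, one_pow, mul_one]
      exact h1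
    · intro c hc
      rw [MonoidHom.mul_apply, MonoidHom.pow_apply, (hC c hc).1, (hC c hc).2, one_pow, mul_one]
  have m2 : ∀ a : ℕ, FF l₂ (cx l₁ ^ a * ψN) ∈ TT A (K := K) (L := N) (Pp p hp M) := by
    intro a
    refine ker_mem hT hK hg₂ (fun c hc => (hC c hc).2) (fun c hc => ?_) hord
    rw [MonoidHom.mul_apply, MonoidHom.pow_apply, cx_apply, (hC c hc).1]
    change (1 : ℂˣ) ^ a * _ = _
    rw [one_pow, one_mul]
  have hkey : (ℓ : ℕ) • lc ψN = ∑ s ∈ Finset.range ℓ, FF (l₁ * l₂ ^ s) ψN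
      + FF l₂ (cx l₁ ^ 0 * ψN) - ∑ a ∈ Finset.range ℓ, FF l₂ (cx l₁ ^ a * ψN) := by
    funext g
    rw [Pi.sub_apply, Pi.add_apply, Finset.sum_apply, Finset.sum_apply]
    simp only [FF_apply]
    have h3 := SS_key (ℓ := ℓ) (x := ((cx l₁ g : ℂˣ) : ℂ)) (cx_pow l₂ g)
    rw [Pi.smul_apply, nsmul_eq_mul, ← h3]
    have h4 : ∀ s : ℕ, ((cx (l₁ * l₂ ^ s) g : ℂˣ) : ℂ)
        = ((cx l₁ g : ℂˣ) : ℂ) * ((cx l₂ g : ℂˣ) : ℂ) ^ s := by
      intro s
      rw [← Units.val_pow_eq_pow_val, ← Units.val_mul]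
      rfl
    have h5 : ∀ a : ℕ, (((cx l₁ ^ a * ψN) g : ℂˣ) : ℂ)
        = ((cx l₁ g : ℂˣ) : ℂ) ^ a * ((ψN g : ℂˣ) : ℂ) := by
      intro a
      rw [MonoidHom.mul_apply, MonoidHom.pow_apply, Units.val_mul, Units.val_pow_eq_pow_val]
    simp only [h4, h5]
    rw [pow_zero, one_mul, sub_mul, add_mul]
    have h6 : (∑ a ∈ Finset.range ℓ, ((cx l₁ g : ℂˣ) : ℂ) ^ a * SS ℓ ((cx l₂ g : ℂˣ) : ℂ))
        * lc ψN g = ∑ a ∈ Finset.range ℓ, SS ℓ ((cx l₂ g : ℂˣ) : ℂ) *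
          (((cx l₁ g : ℂˣ) : ℂ) ^ a * ((ψN g : ℂˣ) : ℂ)) := by
      rw [Finset.sum_mul]
      refine Finset.sum_congr rfl fun a _ => ?_
      rw [lc]
      ring
    rw [h6, Finset.sum_mul]
    rfl
  have hmem : (ℓ : ℕ) • lc ψN ∈ TT A (K := K) (L := N) (Pp p hp M) := by
    rw [hkey]
    exact sub_mem (add_mem (sum_mem fun s _ => m1 s) (m2 0)) (sum_mem fun a _ => m2 a)
  obtain ⟨v, ⟨k, hk, hv⟩, h3⟩ := hmem
  have h4 := (Val.nsmul A (Val.of_char A (IsChar.lc ψN)) ℓ).unique A h3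
  refine ⟨ℓ * k, fun h => ?_, ?_⟩
  · rcases hp.dvd_mul.mp h with h5 | h5
    · exact hne ((Nat.prime_dvd_prime_iff_eq hp hℓ).mp h5).symm
    · exact hk h5
  · rw [pow_mul, h4, hv]

theorem TO_mul {M : Type} [CommGroup M] {A : ArtinInvariant M} {p : ℕ} {hp : p.Prime}
    {b : Prop} : ∀ (e : ℕ), ¬ p ∣ e → ∀ m : ℕ, TO p hp b A (e * m) → TO p hp b A m := by
  intro e
  induction e using Nat.strong_induction_on with
  | _ e ih =>
    intro he m hT
    by_cases h1 : e = 1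
    · rwa [h1, one_mul] at hT
    · obtain ⟨ℓ, hℓ, e', rfl⟩ := Nat.exists_prime_and_dvd h1
      have he' : ¬ p ∣ e' := fun h => he (h.mul_left ℓ)
      have hne : ℓ ≠ p := fun h => he (h ▸ Dvd.intro e' rfl)
      have he0 : 0 < e' := by
        rcases Nat.eq_zero_or_pos e' with h | h
        · exact absurd (h ▸ dvd_zero p) he'
        · exact h
      have hlt : e' < ℓ * e' := by
        have := hℓ.two_le
        nlinarith
      rw [mul_assoc] at hT
      exact ih e' hlt he' m (TO_step hℓ hne hT)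

/-- the values are trivial if the values on the orders in `D` are -/
theorem val_of_TO {M : Type} [CommGroup M] {A : ArtinInvariant M} {b : Prop} {P D : Set ℕ}
    (hM : TorsionIn P M) (h0 : ∀ m > 0, ∃ d ∈ D, 0 < d ∧ m ∣ d) (h : Rich P D)
    (hTD : ∀ (p : ℕ) (hp : p.Prime) (d : ℕ), d ∈ D → 0 < d → TO p hp b A d)
    {K L : Type} [Field K] [NumberField K] [Field L] [NumberField L] [Algebra K L] [IsGalois K L]
    (ψ : (L ≃ₐ[K] L) →* ℂˣ) (hK : b → IsTotallyComplex K) (hpos : 0 < ord K L ψ) :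
    A.val K L (lc ψ) = 1 := by
  apply eq_one_of_torsion hM
  · obtain ⟨d, hd, hd0, e, he⟩ := h0 _ hpos
    have he0 : 0 < e := by
      rcases Nat.eq_zero_or_pos e with h1 | h1
      · rw [h1, mul_zero] at he
        omega
      · exact h1
    obtain ⟨p, hpe, hp⟩ := Nat.exists_infinite_primes (e + 1)
    have hpe' : ¬ p ∣ e := fun h1 => by
      have := Nat.le_of_dvd he0 h1
      omega
    have h1 := hTD p hp d hd hd0
    rw [he, mul_comm] at h1
    obtain ⟨k, hk, hk1⟩ := TO_mul e hpe' _ h1 K L ψ hK rfl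
    refine ⟨k, ?_, by exact_mod_cast hk1⟩
    intro h2
    apply hk
    have : k = 0 := by exact_mod_cast h2
    rw [this]
    exact dvd_zero p
  · intro p hpP hp
    obtain ⟨d, hd, ⟨e, he⟩, hn⟩ := h _ hpos p hpP hp
    have hpe' : ¬ p ∣ e := by
      rintro ⟨f, rfl⟩
      apply hn
      rw [he]
      exact ⟨f, by ring⟩
    have hd0 : 0 < d := by
      rcases Nat.eq_zero_or_pos d with h1 | h1
      · exact absurd (h1 ▸ dvd_zero _) hn
      · exact h1
    have h1 := hTD p hp d hd hd0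
    rw [he, mul_comm] at h1
    obtain ⟨k, hk, hk1⟩ := TO_mul e hpe' _ h1 K L ψ hK rfl
    exact ⟨k, fun h2 => hk (by exact_mod_cast h2), by exact_mod_cast hk1⟩

lemma Rich.pos {P D : Set ℕ} (h : Rich P D) (hP : ∃ p ∈ P, p.Prime) :
    ∀ m > 0, ∃ d ∈ D, 0 < d ∧ m ∣ d := by
  intro m hm
  obtain ⟨p, hpP, hp⟩ := hP
  obtain ⟨d, hd, h1, h2⟩ := h m hm p hpP hp
  refine ⟨d, hd, ?_, h1⟩
  rcases Nat.eq_zero_or_pos d with h3 | h3
  · exact absurd (h3 ▸ dvd_zero _) h2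
  · exact h3

/-- **Sufficiency**, in terms of the orders of vanishing -/
theorem suff_orders {P D : Set ℕ} (h0 : ∀ m > 0, ∃ d ∈ D, 0 < d ∧ m ∣ d) (h : Rich P D) :
    Suff P fun A => TrivOne A ∧ TrivOrders A D := by
  rintro M _ hM A ⟨hone, hD⟩ K _ _ L _ _ _ _ χ hχ
  have hTD : ∀ (p : ℕ) (hp : p.Prime) (d : ℕ), d ∈ D → 0 < d → TO p hp False A d := by
    intro p hp d hd _ K L _ _ _ _ _ _ ψ _ hψ
    by_cases h1 : ψ = 1
    · rw [h1, val_one hone]
      exact one_mem _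
    · have h2 : A.val K L (lc ψ) = 1 := hD K L ψ h1 (Or.inr (hψ ▸ hd))
      rw [h2]
      exact one_mem _
  have hval : ∀ (K L : Type) [Field K] [NumberField K] [Field L] [NumberField L] [Algebra K L]
      [IsGalois K L] (ψ : (L ≃ₐ[K] L) →* ℂˣ), A.val K L (lc ψ) = 1 := by
    intro K L _ _ _ _ _ _ ψ
    by_cases hψ : ψ = 1
    · rw [hψ]
      exact val_one hone
    rcases Nat.eq_zero_or_pos (ord K L ψ) with hz | hpos
    · exact hD K L ψ hψ (Or.inl hz)
    exact val_of_TO hM h0 h hTD ψ (fun h => h.elim) hpos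
  have h1 : A.val K L χ ∈ (⊥ : Subgroup M) :=
    brauer_red ⊥ (fun U ψ => Subgroup.mem_bot.mpr (hval _ _ ψ)) hχ
  exact Subgroup.mem_bot.mp h1

/-- **Sufficiency**, over the totally complex fields -/
theorem complex_of_degrees {P D : Set ℕ} (h0 : ∀ m > 0, ∃ d ∈ D, 0 < d ∧ m ∣ d) (h : Rich P D)
    {M : Type} [CommGroup M] (hM : TorsionIn P M) {A : ArtinInvariant M}
    (hD : TrivDegrees A D) : TrivComplex A := by
  intro K L _ _ _ _ _ _ hK ψ _
  have hTD : ∀ (p : ℕ) (hp : p.Prime) (d : ℕ), d ∈ D → 0 < d → TO p hp True A d := by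
    intro p hp d hd _ K L _ _ _ _ _ _ ψ hK hψ
    have hK' := hK trivial
    have h2 : A.val K L (lc ψ) = 1 := by
      refine hD K L ψ hK' ⟨d, hd, ?_⟩
      rw [ord_complex K L ψ, hψ, mul_comm]
    rw [h2]
    exact one_mem _
  have hpos : 0 < ord K L ψ := by
    have h1 := ord_complex K L ψ
    have h2 : 0 < Module.finrank ℚ K := Module.finrank_pos
    omega
  exact val_of_TO hM h0 h hTD ψ (fun _ => hK) hpos

theorem suff_mixed {P D : Set ℕ} (h0 : ∀ m > 0, ∃ d ∈ D, 0 < d ∧ m ∣ d) (h : Rich P D) :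
    Suff P fun A => TrivOne A ∧ TrivOdd A ∧ TrivMixed A ∧ TrivDegrees A D := by
  rintro M _ hM A ⟨hone, hodd, hmix, hD⟩ K _ _ L _ _ _ _ χ hχ
  exact main_all A hone (complex_of_degrees h0 h hM hD) hodd hmix K L χ hχ

theorem suff_degrees {P D : Set ℕ} (h0 : ∀ m > 0, ∃ d ∈ D, 0 < d ∧ m ∣ d) (h : Rich P D)
    (h2 : 2 ∉ P) : Suff P fun A => TrivOne A ∧ TrivDegrees A D := by
  rintro M _ hM A ⟨hone, hD⟩ K _ _ L _ _ _ _ χ hχ
  have hC := complex_of_degrees h0 h hM hD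
  have hval : ∀ (K L : Type) [Field K] [NumberField K] [Field L] [NumberField L] [Algebra K L]
      [IsGalois K L] (ψ : (L ≃ₐ[K] L) →* ℂˣ), A.val K L (lc ψ) = 1 := by
    intro K L _ _ _ _ _ _ ψ
    exact hM 2 Nat.prime_two h2 _ (val_lin_sq hone hC ψ)
  have h1 : A.val K L χ ∈ (⊥ : Subgroup M) :=
    brauer_red ⊥ (fun U ψ => Subgroup.mem_bot.mpr (hval _ _ ψ)) hχ
  exact Subgroup.mem_bot.mp h1

end Pool.Agent.H99.Ov
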