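import Mathlib
import Pool.Agent.H99.Ov.Lvl
import Pool.Agent.H99.Ov.Fd

/-!
# The functional at a finite level
-/

set_option autoImplicit false
set_option linter.unusedSectionVars false

namespace Pool.Agent.H99.Ov

open NumberField Pool.Agent.R389 Pool.Agent.H37.Stk Pool.Agent.K4H74.ST Pool.Agent.K4H74.SC
  Pool.Agent.W446.AS

section syl

variable {p : ℕ} [hp : Fact p.Prime] {G : Type} [Group G] [Finite G] {U A : Subgroup G}
  {ψ : U →* ℂˣ}

/-- a Sylow subgroup of `U`, as a subgroup of `G` -/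
def syl (P : Sylow p U) : Subgroup G := (P : Subgroup U).map U.subtype

lemma syl_le (P : Sylow p U) : syl P ≤ U := by
  rintro _ ⟨x, -, rfl⟩
  exact x.2

lemma syl_pgroup (P : Sylow p U) : IsPGroup p (syl P) := P.2.map U.subtype

lemma syl_comap (P : Sylow p U) : (syl P).comap U.subtype = (P : Subgroup U) :=
  Subgroup.comap_map_eq_self_of_injective U.subtype_injective _

lemma syl_relIndex (P : Sylow p U) : ¬ p ∣ (syl P).relIndex U := by
  have h1 : (syl P).relIndex U = (P : Subgroup U).index := by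
    rw [← syl_comap P]
    rfl
  rw [h1]
  exact P.not_dvd_index

lemma Sep.relA (h : Sep p U A ψ) (P : Sylow p U) : ¬ p ∣ (syl P).relIndex A := by
  have hA := h.hA
  have hn : (A.subgroupOf U).Normal := inferInstance
  have h1 := Subgroup.relIndex_comap (syl P) U.subtype (A.subgroupOf U)
  have h2 : (A.subgroupOf U).map U.subtype = A := by
    rw [Subgroup.subgroupOf_map_subtype]
    exact inf_eq_left.mpr h.hAU
  rw [h2, syl_comap] at h1
  rw [← h1]
  exact sylow_relIndex P (A.subgroupOf U)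

/-- the functional -/
noncomputable def lv (ψ : U →* ℂˣ) (P : Sylow p U) : (G → ℂ) →+ ℂ :=
  FnHom p (syl P) (ψ.comp (Subgroup.inclusion (syl_le P)))

lemma Sep.rat (h : Sep p U A ψ) (P : Sylow p U) {θ : G → ℂ} (hθ : IsChar θ)
    (hr : ∀ g, ∃ q : ℚ, θ g = q) : PI p (lv ψ P θ) := by
  refine Fn_rat (syl_pgroup P) _ (fun x => h.pw _) ?_ hθ hr
  by_contra hcon
  push Not at hcon
  obtain ⟨u, hu⟩ := h.nt
  apply hu
  refine hom_trivial hp.out (ψ ^ p) (P : Subgroup U) ?_ P.not_dvd_index 1 ?_ u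
  · intro x hx
    exact hcon ⟨x, ⟨x, hx, rfl⟩⟩
  · intro b
    change (ψ b ^ p) ^ p ^ 1 = 1
    rw [pow_one, ← pow_mul, ← pow_two, h.pw]

lemma Sep.one (h : Sep p U A ψ) (P : Sylow p U) :
    PI p (lv ψ P (ind U (fun v => ((ψ v : ℂˣ) : ℂ))) - 1) :=
  h.value (syl_pgroup P) (syl_le P) (h.relA P)

end syl

section lin

variable {p : ℕ} [hp : Fact p.Prime] {N : Type} [Field N] [NumberField N] [IsGalois ℚ N]
  {U A : Subgroup (N ≃ₐ[ℚ] N)} {ψ : U →* ℂˣ}

variable {K L : Type} [Field K] [NumberField K] [Field L] [NumberField L] [Algebra K L]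
  [IsGalois K L] [Algebra K N] [IsGalois K N] [Algebra L N] [IsScalarTower K L N]

theorem Sep.lin (h : Sep p U A ψ) (P : Sylow p U) {n : ℕ} (hU : U.index = n * 2)
    (hCC : ∀ c ∈ CC ℚ N, c ∉ U) (lam : (L ≃ₐ[K] L) →* ℂˣ)
    (hdeg : ∀ t : ℕ, ¬ p ∣ t → IsTotallyComplex K → Module.finrank ℚ K ≠ t * (n * 2)) :
    PI p (lv ψ P (indChar ℚ K N (fun g => lc lam (AlgEquiv.restrictNormalHom L g)))) := by
  classical
  obtain ⟨V, e, he, hind⟩ := indChar_range ℚ K N
  rw [hind]
  let lam' : V →* ℂˣ := (lam.comp (AlgEquiv.restrictNormalHom L)).comp e.toMonoidHom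
  refine Fn_ind_dvd (V := V) (syl_pgroup P) _ lam' ?_
  intro g hPV hlam
  have hVU : ∀ v ∈ V, g * v * g⁻¹ ∈ U := fun v hv =>
    h.contains (syl_le P) (h.relA P) lam' hPV hlam hv
  obtain ⟨t, ht, hidx⟩ := index_of_contains (syl_relIndex P) hPV hVU
  have hK : IsTotallyComplex K := by
    refine ⟨fun v => ?_⟩
    rw [← InfinitePlace.not_isReal_iff_isComplex]
    intro hv
    have h1 : ComplexEmbedding.IsReal v.embedding := InfinitePlace.isReal_iff.mp hv
    let φ : N →+* ℂ := ComplexEmbedding.lift N v.embedding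
    have h2 : φ.comp (algebraMap K N) = v.embedding := ComplexEmbedding.lift_comp_algebraMap N _
    obtain ⟨c, hc⟩ := exists_conj (K := K) (φ := φ) (by rw [h2]; exact h1)
    have h3 : ((e.symm c : V) : N ≃ₐ[ℚ] N) ∈ CC ℚ N := by
      refine ⟨φ, ?_⟩
      have h4 := he (e.symm c)
      rw [MulEquiv.apply_symm_apply] at h4
      rw [← h4]
      ext x
      exact (hc.eq x).symm
    have h4 := CC_conj h3 g⁻¹
    rw [inv_inv] at h4
    exact hCC _ h4 (hVU _ (e.symm c).2)
  apply hdeg t ht hK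
  have h2 : V.index = Module.finrank ℚ K := by
    have hVc : Nat.card V = Module.finrank K N := by
      rw [Nat.card_congr e.toEquiv, IsGalois.card_aut_eq_finrank]
    have h3 := V.card_mul_index
    have : FiniteDimensional K N := Module.Finite.of_restrictScalars_finite ℚ K N
    rw [hVc, IsGalois.card_aut_eq_finrank, ← Module.finrank_mul_finrank ℚ K N, mul_comm] at h3
    exact Nat.eq_of_mul_eq_mul_right Module.finrank_pos h3
  rw [h2, hU] at hidx
  exact hidx

/-- characters of abelian extensions of `ℚ` -/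
theorem Sep.abel (h : Sep p U A ψ) (P : Sylow p U) (hU : U ≠ ⊤) [IsGalois ℚ L]
    (hab : ∀ a b : L ≃ₐ[ℚ] L, a * b = b * a) (lam : (L ≃ₐ[K] L) →* ℂˣ) :
    PI p (lv ψ P (indChar ℚ K N (fun g => lc lam (AlgEquiv.restrictNormalHom L g)))) := by
  classical
  obtain ⟨V, e, he, hind⟩ := indChar_range ℚ K N
  rw [hind]
  let lam' : V →* ℂˣ := (lam.comp (AlgEquiv.restrictNormalHom L)).comp e.toMonoidHom
  refine Fn_ind_dvd (V := V) (syl_pgroup P) _ lam' ?_
  intro g hPV hlam
  apply hU
  have t1 : IsScalarTower ℚ L N := IsScalarTower.of_algebraMap_eq' (Subsingleton.elim _ _)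
  let r : (N ≃ₐ[ℚ] N) →* (L ≃ₐ[ℚ] L) := AlgEquiv.restrictNormalHom L
  have hr : ∀ (s : N ≃ₐ[ℚ] N) (x : L), algebraMap L N (r s x) = s (algebraMap L N x) :=
    fun s x => AlgEquiv.restrictNormal_commutes s L x
  have hconj : ∀ w y : N ≃ₐ[ℚ] N, ∀ x : L, (w * y * w⁻¹) (algebraMap L N x)
      = y (algebraMap L N x) := by
    intro w y x
    rw [← hr, ← hr]
    congr 2
    rw [map_mul, map_mul, map_inv, hab (r w), mul_inv_cancel_right]
  -- the elements of `V` are those which fix `K`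
  have hV : ∀ y : N ≃ₐ[ℚ] N, y ∈ V ↔ ∀ x : K, y (algebraMap K N x) = algebraMap K N x := by
    intro y
    constructor
    · intro hy x
      have h1 : (e ⟨y, hy⟩) (algebraMap K N x) = y (algebraMap K N x) :=
        DFunLike.congr_fun (he ⟨y, hy⟩) (algebraMap K N x)
      rw [← h1]
      exact (e ⟨y, hy⟩).commutes x
    · intro hy
      let y' : N ≃ₐ[K] N := AlgEquiv.ofRingEquiv (f := y.toRingEquiv) hy
      have h1 := he (e.symm y')
      rw [MulEquiv.apply_symm_apply] at h1
      have h2 : y'.restrictScalars ℚ = y := by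
        ext x
        rfl
      rw [h2] at h1
      rw [h1]
      exact (e.symm y').2
  rw [eq_top_iff]
  intro w _
  have hw : ∀ v : N ≃ₐ[ℚ] N, g * v * g⁻¹ ∈ U := by
    intro v
    refine h.contains' (syl_le P) (h.relA P) lam' hPV hlam fun y hy => ?_
    have h1 : v * y * v⁻¹ ∈ V := by
      rw [hV] at hy ⊢
      intro x
      rw [IsScalarTower.algebraMap_apply K L N, hconj, ← IsScalarTower.algebraMap_apply K L N]
      exact hy x
    refine ⟨h1, ?_⟩
    change lam (AlgEquiv.restrictNormalHom L (e ⟨v * y * v⁻¹, h1⟩))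
      = lam (AlgEquiv.restrictNormalHom L (e ⟨y, hy⟩))
    congr 1
    ext x
    apply (algebraMap L N).injective
    rw [res_apply, res_apply]
    have h2 : ∀ z : V, (e z) (algebraMap L N x) = (z : N ≃ₐ[ℚ] N) (algebraMap L N x) := by
      intro z
      rw [← he z]
      rfl
    rw [h2, h2]
    exact hconj v y x
  have h1 := hw (g⁻¹ * w * g)
  have h2 : g * (g⁻¹ * w * g) * g⁻¹ = w := by group
  rwa [h2] at h1

end lin

end Pool.Agent.H99.Ov
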