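import Mathlib
import Pool.Agent.H99.Ov.Nec

/-!
# Necessity
-/

set_option autoImplicit false
set_option linter.unusedSectionVars false

namespace Pool.Agent.H99.Ov

open NumberField Pool.Agent.R389 Pool.Agent.H37.Stk Pool.Agent.K4H74.ST Pool.Agent.K4H74.SC
  Pool.Agent.W446.AS

/-- the vector of the values at all automorphisms of the field of the algebraic numbers -/
noncomputable def Phi (K L : Type) [Field K] [Field L] [Algebra K L]
    (χ : (L ≃ₐ[K] L) → ℂ) : (EE ≃ₐ[ℚ] EE) → ℂ := fun c => tv (c : EE ≃+* EE) K L χ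

/-- the invariant, modulo a group of vectors -/
noncomputable def nInv (W : AddSubgroup ((EE ≃ₐ[ℚ] EE) → ℂ)) :
    ArtinInvariant (Multiplicative (((EE ≃ₐ[ℚ] EE) → ℂ) ⧸ W)) where
  val K L _ _ _ _ _ _ χ := Multiplicative.ofAdd (QuotientAddGroup.mk (Phi K L χ))
  val_add K L _ _ _ _ _ _ χ χ' _ _ := by
    have h : Phi K L (χ + χ') = Phi K L χ + Phi K L χ' := funext fun c => tv_add _ K L χ χ'
    rw [h, QuotientAddGroup.mk_add, ofAdd_add]
  val_infl K L N _ _ _ _ _ _ _ _ _ _ _ _ χ _ := by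
    have h : Phi K N (fun g => χ (AlgEquiv.restrictNormalHom L g)) = Phi K L χ :=
      funext fun c => tv_infl _ jj K L N χ
    rw [h]
  val_ind K F L _ _ _ _ _ _ _ _ _ _ _ _ χ _ := by
    have h : Phi K L (indChar K F L χ) = Phi F L χ := funext fun c => tv_ind _ K F L χ
    rw [h]

lemma nInv_iff {W : AddSubgroup ((EE ≃ₐ[ℚ] EE) → ℂ)} (K L : Type) [Field K] [NumberField K]
    [Field L] [NumberField L] [Algebra K L] [IsGalois K L] (χ : (L ≃ₐ[K] L) → ℂ) :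
    (nInv W).val K L χ = 1 ↔ Phi K L χ ∈ W := by
  change Multiplicative.ofAdd (QuotientAddGroup.mk (Phi K L χ)) = 1 ↔ _
  rw [ofAdd_eq_one, QuotientAddGroup.eq_zero_iff]

/-- the generators -/
def gens (D : Set ℕ) : Set ((EE ≃ₐ[ℚ] EE) → ℂ) :=
  {f | (∃ (K L : Type) (_ : Field K) (_ : NumberField K) (_ : Field L) (_ : NumberField L)
      (_ : Algebra K L) (_ : IsGalois K L) (χ : (L ≃ₐ[K] L) → ℂ), IsChar χ ∧
        (∀ g, ∃ q : ℚ, χ g = q) ∧ f = Phi K L χ) ∨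
    (∃ (K L : Type) (_ : Field K) (_ : NumberField K) (_ : Field L) (_ : NumberField L)
      (_ : Algebra K L) (_ : IsGalois K L) (ψ : (L ≃ₐ[K] L) →* ℂˣ),
        (IsTotallyComplex K → ∃ d ∈ D, Module.finrank ℚ K = 2 * d) ∧ f = Phi K L (lc ψ)) ∨
    (∃ (K L : Type) (_ : Field K) (_ : NumberField K) (_ : Field L) (_ : NumberField L)
      (_ : Algebra K L) (_ : IsGalois K L) (_ : IsGalois ℚ L) (ψ : (L ≃ₐ[K] L) →* ℂˣ),
        (∀ a b : L ≃ₐ[ℚ] L, a * b = b * a) ∧ f = Phi K L (lc ψ))}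

/-- the vectors with a multiple prime to `p` in the group generated by the generators -/
def WW (p : ℕ) (hp : p.Prime) (D : Set ℕ) : AddSubgroup ((EE ≃ₐ[ℚ] EE) → ℂ) where
  carrier := {f | ∃ n : ℕ, ¬ p ∣ n ∧ n • f ∈ AddSubgroup.closure (gens D)}
  zero_mem' := ⟨1, fun h => hp.one_lt.ne' (Nat.dvd_one.mp h), by
    rw [smul_zero]; exact zero_mem _⟩
  add_mem' := by
    rintro a b ⟨n, hn, ha⟩ ⟨m, hm, hb⟩
    refine ⟨n * m, fun h => (hp.dvd_mul.mp h).elim hn hm, ?_⟩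
    have h1 : (n * m) • (a + b) = m • (n • a) + n • (m • b) := by
      rw [smul_add, mul_smul n m b, mul_comm n m, mul_smul m n a]
    rw [h1]
    exact add_mem (nsmul_mem ha m) (nsmul_mem hb n)
  neg_mem' := by
    rintro a ⟨n, hn, ha⟩
    refine ⟨n, hn, ?_⟩
    rw [smul_neg]
    exact neg_mem ha

lemma WW_torsion {p : ℕ} (hp : p.Prime) (D P : Set ℕ) (hpP : p ∈ P) :
    TorsionIn P (Multiplicative (((EE ≃ₐ[ℚ] EE) → ℂ) ⧸ WW p hp D)) := by
  intro ℓ hℓ hℓP x hx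
  have hne : ℓ ≠ p := fun h => hℓP (h ▸ hpP)
  obtain ⟨y, rfl⟩ := Multiplicative.ofAdd.surjective x
  obtain ⟨f, rfl⟩ := QuotientAddGroup.mk_surjective y
  rw [← ofAdd_nsmul, ofAdd_eq_one, ← QuotientAddGroup.mk_nsmul, QuotientAddGroup.eq_zero_iff] at hx
  obtain ⟨n, hn, h⟩ := hx
  rw [ofAdd_eq_one, QuotientAddGroup.eq_zero_iff]
  refine ⟨n * ℓ, fun h1 => ?_, by rwa [mul_smul]⟩
  rcases hp.dvd_mul.mp h1 with h2 | h2
  · exact hn h2
  · exact hne ((Nat.prime_dvd_prime_iff_eq hp hℓ).mp h2).symm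

section level

variable {N : Type} [Field N] [NumberField N] [IsGalois ℚ N]

lemma Phi_level {ι : N →+* EE} {lift : (N ≃ₐ[ℚ] N) → (EE ≃ₐ[ℚ] EE)}
    (hl : ∀ g, Tw (lift g : EE ≃+* EE) ι g) (K L : Type) [Field K] [NumberField K] [Field L]
    [NumberField L] [Algebra K L] [IsGalois K L] [Algebra K N] [IsGalois K N] [Algebra L N]
    [IsScalarTower K L N] {χ : (L ≃ₐ[K] L) → ℂ} (hχ : IsChar χ) :
    (fun g => Phi K L χ (lift g))
      = indChar ℚ K N (fun g => χ (AlgEquiv.restrictNormalHom L g)) := by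
  funext g
  have h1 : IsChar (fun g : N ≃ₐ[K] N => χ (AlgEquiv.restrictNormalHom L g)) :=
    IsChar.comp' hχ (AlgEquiv.restrictNormalHom L)
  rw [← tv_level (hl g) (isChar_indChar (K := ℚ) h1), tv_ind, tv_infl _ jj K L N χ]
  rfl

end level

lemma ind_rat {G : Type} [Group G] [Finite G] (V : Subgroup G) {f : V → ℂ}
    (hf : ∀ v, ∃ q : ℚ, f v = q) (g : G) : ∃ q : ℚ, ind V f g = q := by
  classical
  have : Fintype G := Fintype.ofFinite _
  choose q hq using hf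
  have h1 : ∀ y : G, ext V f y = ((ext V q y : ℚ) : ℂ) := by
    intro y
    by_cases h : y ∈ V
    · rw [ext_mem _ _ h, ext_mem _ _ h, hq]
    · rw [ext_not _ _ h, ext_not _ _ h, Rat.cast_zero]
  refine ⟨(Nat.card V : ℚ)⁻¹ * ∑ x : G, ext V q (x⁻¹ * g * x), ?_⟩
  rw [ind_eq]
  push_cast
  congr 1
  exact Finset.sum_congr rfl fun x _ => h1 _

section main

variable {p : ℕ} [hp : Fact p.Prime] {F : Type} [Field F] [NumberField F] [IsGalois ℚ F]
  {U A : Subgroup (F ≃ₐ[ℚ] F)} {ψ : U →* ℂˣ}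

/-- divisibility of the functional at all sufficiently large levels -/
def QQ (p : ℕ) [Fact p.Prime] (ψ : U →* ℂˣ) (f : (EE ≃ₐ[ℚ] EE) → ℂ) : Prop :=
  ∃ (L₀ : Type) (_ : Field L₀) (_ : NumberField L₀), ∀ (N : Type) [Field N] [NumberField N]
    [IsGalois ℚ N] [Algebra F N] [IsScalarTower ℚ F N], Nonempty (L₀ →+* N) →
    ∀ (ι : N →+* EE) (lift : (N ≃ₐ[ℚ] N) → (EE ≃ₐ[ℚ] EE)),
      (∀ g, Tw (lift g : EE ≃+* EE) ι g) →
      ∀ P : Sylow p (U.comap (AlgEquiv.restrictNormalHom F : (N ≃ₐ[ℚ] N) →* (F ≃ₐ[ℚ] F))),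
        PI p (lv (ψ.comp ((AlgEquiv.restrictNormalHom F :
          (N ≃ₐ[ℚ] N) →* (F ≃ₐ[ℚ] F)).subgroupComap U)) P (fun g => f (lift g)))

lemma QQ.zero : QQ p ψ 0 := by
  refine ⟨ℚ, inferInstance, inferInstance, ?_⟩
  intro N _ _ _ _ _ _ ι lift hl P
  have h1 : (fun g : N ≃ₐ[ℚ] N => (0 : (EE ≃ₐ[ℚ] EE) → ℂ) (lift g)) = 0 := rfl
  rw [h1, map_zero]
  exact PI.zero

lemma QQ.add {f f' : (EE ≃ₐ[ℚ] EE) → ℂ} (h : QQ p ψ f) (h' : QQ p ψ f') : QQ p ψ (f + f') := by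
  obtain ⟨L₀, _, _, h⟩ := h
  obtain ⟨L₁, _, _, h'⟩ := h'
  obtain ⟨L₂, i1, i2, _, ⟨a⟩, ⟨b⟩⟩ := exists_big L₀ L₁
  refine ⟨L₂, i1, i2, ?_⟩
  rintro N _ _ _ _ _ ⟨c⟩ ι lift hl P
  have h1 : (fun g : N ≃ₐ[ℚ] N => (f + f') (lift g))
      = (fun g => f (lift g)) + (fun g => f' (lift g)) := rfl
  rw [h1, map_add]
  exact (h N ⟨c.comp a⟩ ι lift hl P).add (h' N ⟨c.comp b⟩ ι lift hl P)

lemma QQ.neg {f : (EE ≃ₐ[ℚ] EE) → ℂ} (h : QQ p ψ f) : QQ p ψ (-f) := by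
  obtain ⟨L₀, i1, i2, h⟩ := h
  refine ⟨L₀, i1, i2, ?_⟩
  intro N _ _ _ _ _ hc ι lift hl P
  have h1 : (fun g : N ≃ₐ[ℚ] N => (-f) (lift g)) = -(fun g => f (lift g)) := rfl
  rw [h1, map_neg]
  exact (h N hc ι lift hl P).neg

theorem QQ_gens (hs : Sep p U A ψ) {n : ℕ} (hU : U.index = n * 2)
    (hCC : ∀ c ∈ CC ℚ F, c ∉ U)
    {D : Set ℕ} (hD : ∀ t : ℕ, ¬ p ∣ t → t * n ∉ D) {f : (EE ≃ₐ[ℚ] EE) → ℂ}
    (hf : f ∈ gens D) : QQ p ψ f := by
  rcases hf with ⟨K, L, _, _, _, _, _, _, χ, hχ, hr, rfl⟩ |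
    ⟨K, L, _, _, _, _, _, _, lam, ho, rfl⟩ | ⟨K, L, _, _, _, _, _, _, _, lam, hab, rfl⟩
  · refine ⟨L, inferInstance, inferInstance, ?_⟩
    rintro N _ _ _ _ _ ⟨i⟩ ι lift hl P
    let _ : Algebra L N := i.toAlgebra
    let _ : Algebra K N := ((algebraMap L N).comp (algebraMap K L)).toAlgebra
    have h1 : IsScalarTower K L N := IsScalarTower.of_algebraMap_eq fun x => rfl
    have h2 : IsGalois K N := IsGalois.tower_top_of_isGalois ℚ K N
    rw [Phi_level hl K L hχ]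
    have hs' := hs.comap (π := (AlgEquiv.restrictNormalHom F : (N ≃ₐ[ℚ] N) →* (F ≃ₐ[ℚ] F)))
      (AlgEquiv.restrictNormalHom_surjective N)
    have h3 : IsChar (fun g : N ≃ₐ[K] N => χ (AlgEquiv.restrictNormalHom L g)) :=
      IsChar.comp' hχ (AlgEquiv.restrictNormalHom L)
    refine hs'.rat P (isChar_indChar (K := ℚ) h3) ?_
    obtain ⟨V, e, -, hind⟩ := indChar_range ℚ K N
    rw [hind]
    exact ind_rat V fun v => hr _
  · refine ⟨L, inferInstance, inferInstance, ?_⟩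
    rintro N _ _ _ _ _ ⟨i⟩ ι lift hl P
    let _ : Algebra L N := i.toAlgebra
    let _ : Algebra K N := ((algebraMap L N).comp (algebraMap K L)).toAlgebra
    have h1 : IsScalarTower K L N := IsScalarTower.of_algebraMap_eq fun x => rfl
    have h2 : IsGalois K N := IsGalois.tower_top_of_isGalois ℚ K N
    rw [Phi_level hl K L (IsChar.lc lam)]
    have hsurj : Function.Surjective
        (AlgEquiv.restrictNormalHom F : (N ≃ₐ[ℚ] N) →* (F ≃ₐ[ℚ] F)) :=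
      AlgEquiv.restrictNormalHom_surjective N
    have hs' := hs.comap hsurj
    refine hs'.lin P (n := n) ?_ ?_ lam ?_
    · rw [Subgroup.index_comap_of_surjective _ hsurj, hU]
    · intro c hc hcU
      exact hCC _ (CC_res hc) hcU
    · intro t ht hK h3
      obtain ⟨d, hd, h4⟩ := ho hK
      apply hD t ht
      have h5 : t * n = d := by
        rw [h4] at h3
        have h6 : 2 * d = 2 * (t * n) := by rw [h3]; ring
        omega
      rw [h5]
      exact hd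
  · refine ⟨L, inferInstance, inferInstance, ?_⟩
    rintro N _ _ _ _ _ ⟨i⟩ ι lift hl P
    let _ : Algebra L N := i.toAlgebra
    let _ : Algebra K N := ((algebraMap L N).comp (algebraMap K L)).toAlgebra
    have h1 : IsScalarTower K L N := IsScalarTower.of_algebraMap_eq fun x => rfl
    have h2 : IsGalois K N := IsGalois.tower_top_of_isGalois ℚ K N
    rw [Phi_level hl K L (IsChar.lc lam)]
    have hsurj : Function.Surjective
        (AlgEquiv.restrictNormalHom F : (N ≃ₐ[ℚ] N) →* (F ≃ₐ[ℚ] F)) :=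
      AlgEquiv.restrictNormalHom_surjective N
    have hs' := hs.comap hsurj
    refine hs'.abel P ?_ hab lam
    intro h3
    have h4 := Subgroup.index_comap_of_surjective U hsurj
    rw [h3, Subgroup.index_top, hU] at h4
    omega

theorem QQ_closure (hs : Sep p U A ψ) {n : ℕ} (hU : U.index = n * 2)
    (hCC : ∀ c ∈ CC ℚ F, c ∉ U)
    {D : Set ℕ} (hD : ∀ t : ℕ, ¬ p ∣ t → t * n ∉ D) {f : (EE ≃ₐ[ℚ] EE) → ℂ}
    (hf : f ∈ AddSubgroup.closure (gens D)) : QQ p ψ f := by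
  induction hf using AddSubgroup.closure_induction with
  | mem f hf => exact QQ_gens hs hU hCC hD hf
  | zero => exact QQ.zero
  | add a b _ _ ha hb => exact ha.add hb
  | neg a _ ha => exact ha.neg

/-- the induced character is not in the group -/
theorem not_mem_WW (hs : Sep p U A ψ) {n : ℕ} (hU : U.index = n * 2)
    (hCC : ∀ c ∈ CC ℚ F, c ∉ U) {D : Set ℕ} (hD : ∀ t : ℕ, ¬ p ∣ t → t * n ∉ D) :
    Phi ℚ F (ind U (fun v => ((ψ v : ℂˣ) : ℂ))) ∉ WW p hp.out D := by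
  rintro ⟨m, hm, h⟩
  obtain ⟨L₀, _, _, hQ⟩ := QQ_closure hs hU hCC hD h
  obtain ⟨N, _, _, _, ⟨a⟩, ⟨i⟩⟩ := exists_big L₀ F
  let _ : Algebra F N := i.toAlgebra
  have h1 : IsScalarTower ℚ F N := IsScalarTower.of_algebraMap_eq' (Subsingleton.elim _ _)
  obtain ⟨ι⟩ := exists_emb N
  choose lift hl using exists_lift_aut (N := N) ι
  have hsurj : Function.Surjective
      (AlgEquiv.restrictNormalHom F : (N ≃ₐ[ℚ] N) →* (F ≃ₐ[ℚ] F)) :=
    AlgEquiv.restrictNormalHom_surjective N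
  have hs' := hs.comap hsurj
  obtain ⟨P⟩ : Nonempty (Sylow p (U.comap
    (AlgEquiv.restrictNormalHom F : (N ≃ₐ[ℚ] N) →* (F ≃ₐ[ℚ] F)))) := inferInstance
  have h2 := hQ N ⟨a⟩ ι lift hl P
  have h3 : (fun g : N ≃ₐ[ℚ] N => (m • Phi ℚ F (ind U (fun v => ((ψ v : ℂˣ) : ℂ)))) (lift g))
      = m • (ind (U.comap (AlgEquiv.restrictNormalHom F : (N ≃ₐ[ℚ] N) →* (F ≃ₐ[ℚ] F)))
        (fun v => (((ψ.comp ((AlgEquiv.restrictNormalHom F :
          (N ≃ₐ[ℚ] N) →* (F ≃ₐ[ℚ] F)).subgroupComap U)) v : ℂˣ) : ℂ))) := by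
    funext g
    have hch : IsChar (ind U (fun v => ((ψ v : ℂˣ) : ℂ))) := isChar_ind U (IsChar.lc ψ)
    have hch' : IsChar (fun g : N ≃ₐ[ℚ] N =>
        ind U (fun v => ((ψ v : ℂˣ) : ℂ)) (AlgEquiv.restrictNormalHom F g)) :=
      IsChar.comp' hch (AlgEquiv.restrictNormalHom F)
    change m • tv (lift g : EE ≃+* EE) ℚ F (ind U (fun v => ((ψ v : ℂˣ) : ℂ))) = m • _
    rw [← tv_infl _ jj ℚ F N, tv_level (hl g) hch']
    congr 1
    exact congrFun (ind_comap hsurj U (fun v => ((ψ v : ℂˣ) : ℂ))) g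
  rw [h3, map_nsmul] at h2
  have h4 := hs'.one P
  obtain ⟨y, hy, h5⟩ := h4
  have h6 : PI p (m : ℤ) := by
    have h7 : PI p (-(m * (p * y))) := ⟨-(m * y), ((isIntegral_natCast m).mul hy).neg, by ring⟩
    have h8 := h2.add h7
    rw [← h5] at h8
    rw [nsmul_eq_mul] at h8
    have h9 : ((m : ℤ) : ℂ) = (m : ℂ) := by push_cast; rfl
    rw [h9]
    convert h8 using 1
    ring
  have h7 := PI.int h6
  exact hm (by exact_mod_cast h7)

end main

/-- **Necessity** -/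
theorem necessity {P D : Set ℕ} (h : Suff P fun A => TrivRational A ∧ TrivAbelian A ∧ TrivReal A ∧
    TrivDegrees A D) : Rich P D := by
  intro m hm p hpP hp
  by_contra hcon
  push Not at hcon
  have : Fact p.Prime := ⟨hp⟩
  have hp1 : ¬ p ∣ 1 := fun h => hp.one_lt.ne' (Nat.dvd_one.mp h)
  obtain ⟨n₀, hn₀⟩ := exists_sep p
  have hle : n₀ ≤ m * (p * n₀ + 1) := by
    have h1 : n₀ ≤ p * n₀ + 1 := by
      have := Nat.le_mul_of_pos_left n₀ hp.pos
      omega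
    exact h1.trans (Nat.le_mul_of_pos_left _ hm)
  have hpos : 0 < m * (p * n₀ + 1) := Nat.mul_pos hm (Nat.succ_pos _)
  obtain ⟨F, _, _, _, U, A, ψ, hs, hU, hCC⟩ := hn₀ _ hle hpos
  have h1 := h _ (WW_torsion hp D P hpP) (nInv (WW p hp D)) (by
      refine ⟨?_, ?_, ?_, ?_⟩
      · intro K L i1 i2 i3 i4 i5 i6 χ hχ hr
        rw [nInv_iff]
        refine ⟨1, hp1, ?_⟩
        rw [one_smul]
        exact AddSubgroup.subset_closure (Or.inl ⟨K, L, i1, i2, i3, i4, i5, i6, χ, hχ, hr, rfl⟩)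
      · intro K L i1 i2 i3 i4 i5 i6 i7 hab χ hχ
        refine Subgroup.mem_bot.mp (brauer_red ⊥ (fun V ψ => Subgroup.mem_bot.mpr ?_) hχ)
        rw [nInv_iff]
        refine ⟨1, hp1, ?_⟩
        rw [one_smul]
        exact AddSubgroup.subset_closure (Or.inr (Or.inr ⟨_, L, inferInstance, inferInstance,
          inferInstance, inferInstance, inferInstance, inferInstance, i7, ψ, hab, rfl⟩))
      · intro K L i1 i2 i3 i4 i5 i6 ψ hK
        rw [nInv_iff]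
        refine ⟨1, hp1, ?_⟩
        rw [one_smul]
        exact AddSubgroup.subset_closure (Or.inr (Or.inl ⟨K, L, i1, i2, i3, i4, i5, i6, ψ,
          fun h => absurd h hK, rfl⟩))
      · intro K L i1 i2 i3 i4 i5 i6 ψ hK hd
        rw [nInv_iff]
        refine ⟨1, hp1, ?_⟩
        rw [one_smul]
        exact AddSubgroup.subset_closure (Or.inr (Or.inl ⟨K, L, i1, i2, i3, i4, i5, i6, ψ,
          fun _ => hd, rfl⟩))) ℚ F _ (isChar_ind U (IsChar.lc ψ))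
  rw [nInv_iff] at h1
  refine not_mem_WW hs hU hCC (D := D) ?_ h1
  intro t ht h2
  have h3 := hcon _ h2 ⟨t * (p * n₀ + 1), by ring⟩
  have h4 : t * (m * (p * n₀ + 1)) = m * (t * (p * n₀ + 1)) := by ring
  rw [h4, mul_comm p m] at h3
  have h5 := Nat.dvd_of_mul_dvd_mul_left hm h3
  rcases hp.dvd_mul.mp h5 with h6 | h6
  · exact ht h6
  · have h7 : p ∣ 1 := (Nat.dvd_add_right (Dvd.intro n₀ rfl)).mp h6
    exact hp.one_lt.ne' (Nat.dvd_one.mp h7)

end Pool.Agent.H99.Ov
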