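import Mathlib
import Pool.Agent.H99.Ov.Fnl2

/-!
# A second functional
-/

set_option autoImplicit false
set_option linter.unusedSectionVars false

namespace Pool.Agent.H99.Ov

open Pool.Agent.R389 Pool.Agent.H37.Stk Pool.Agent.K4H74.ST Pool.Agent.W446.AS

/-- the weight -/
noncomputable def hh (S : Finset ℕ) (N : ℕ) (u : ℤ) (c : ℂˣ) : ℂ :=
  ((c ^ (-u) : ℂˣ) : ℂ) * ∏ q ∈ S, (2 - ((c ^ (N / q) : ℂˣ) : ℂ) - (((c ^ (N / q))⁻¹ : ℂˣ) : ℂ))

lemma hh_insert {S : Finset ℕ} {q : ℕ} (hq : q ∉ S) (N : ℕ) (u : ℤ) (c : ℂˣ) :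
    hh (insert q S) N u c = 2 * hh S N u c - hh S N (u - (N / q : ℕ)) c
      - hh S N (u + (N / q : ℕ)) c := by
  classical
  unfold hh
  rw [Finset.prod_insert hq]
  have h1 : ((c ^ (-(u - (N / q : ℕ)) : ℤ) : ℂˣ) : ℂ)
      = ((c ^ (-u) : ℂˣ) : ℂ) * ((c ^ (N / q) : ℂˣ) : ℂ) := by
    rw [← Units.val_mul, ← zpow_natCast, ← zpow_add]
    congr 2
    ring
  have h2 : ((c ^ (-(u + (N / q : ℕ)) : ℤ) : ℂˣ) : ℂ)
      = ((c ^ (-u) : ℂˣ) : ℂ) * (((c ^ (N / q))⁻¹ : ℂˣ) : ℂ) := by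
    rw [← Units.val_mul, ← zpow_natCast, ← zpow_neg, ← zpow_add]
    congr 2
    ring
  rw [h1, h2]
  ring

lemma hh_mul {S : Finset ℕ} {N M : ℕ} (hS : ∀ q ∈ S, M ∣ N / q) (u : ℤ) (c : ℂˣ) {e : ℂˣ}
    (he : e ^ M = 1) : hh S N u (c * e) = ((e ^ (-u) : ℂˣ) : ℂ) * hh S N u c := by
  unfold hh
  have h1 : ∀ q ∈ S, (c * e) ^ (N / q) = c ^ (N / q) := by
    intro q hq
    obtain ⟨k, hk⟩ := hS q hq
    rw [mul_pow, hk, pow_mul e, he, one_pow, mul_one]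
  rw [Finset.prod_congr rfl (fun q hq => by rw [h1 q hq]), mul_zpow, Units.val_mul]
  ring

lemma hh_ne {N : ℕ} (hN : 0 < N) {u : ℤ} {c : ℂˣ} (hc : c ^ N = 1)
    (h : hh N.primeFactors N u c ≠ 0) : orderOf c = N := by
  refine orderOf_eq_of_pow_and_pow_div_prime hN hc fun q hq hqN h1 => h ?_
  unfold hh
  rw [Finset.prod_eq_zero (Nat.mem_primeFactors.mpr ⟨hq, hqN, hN.ne'⟩), mul_zero]
  rw [h1, inv_one, Units.val_one]
  norm_num

lemma hh_val {N : ℕ} (hN : 0 < N) {c : ℂˣ} (hc : c ^ N = 1) :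
    ∃ r : ℝ, 0 ≤ r ∧ (c : ℂ) * hh N.primeFactors N 1 c = r ∧ (orderOf c = N → 0 < r) := by
  have hnorm : ‖(c : ℂ)‖ = 1 := by
    have h1 : (c : ℂ) ^ N = 1 := by
      rw [← Units.val_pow_eq_pow_val, hc, Units.val_one]
    exact Complex.norm_eq_one_of_pow_eq_one h1 hN.ne'
  have hfac : ∀ q : ℕ, (2 - ((c ^ (N / q) : ℂˣ) : ℂ) - (((c ^ (N / q))⁻¹ : ℂˣ) : ℂ))
      = ((Complex.normSq (1 - (c : ℂ) ^ (N / q)) : ℝ) : ℂ) := by
    intro q
    have hw : ‖((c : ℂ) ^ (N / q))‖ = 1 := by rw [norm_pow, hnorm, one_pow]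
    have hw0 : (c : ℂ) ^ (N / q) ≠ 0 := pow_ne_zero _ c.ne_zero
    have h2 : ((c : ℂ) ^ (N / q))⁻¹ = (starRingEnd ℂ) ((c : ℂ) ^ (N / q)) := by
      rw [Complex.inv_def, Complex.normSq_eq_norm_sq, hw]
      simp
    rw [← Complex.mul_conj, map_sub, map_one, ← h2, Units.val_inv_eq_inv_val,
      Units.val_pow_eq_pow_val]
    field_simp
    ring
  refine ⟨∏ q ∈ N.primeFactors, Complex.normSq (1 - (c : ℂ) ^ (N / q)),
    Finset.prod_nonneg fun q _ => Complex.normSq_nonneg _, ?_, ?_⟩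
  · unfold hh
    rw [Finset.prod_congr rfl (fun q _ => hfac q), ← mul_assoc, ← Units.val_mul, zpow_neg, zpow_one,
      mul_inv_cancel, Units.val_one, one_mul, Complex.ofReal_prod]
  · intro hord
    refine Finset.prod_pos fun q hq => Complex.normSq_pos.mpr ?_
    obtain ⟨hq1, hq2, -⟩ := Nat.mem_primeFactors.mp hq
    intro h1
    have h2 : c ^ (N / q) = 1 := by
      apply Units.ext
      rw [Units.val_pow_eq_pow_val, Units.val_one]
      exact (sub_eq_zero.mp h1).symm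
    have h3 : orderOf c ∣ N / q := orderOf_dvd_of_pow_eq_one h2
    rw [hord] at h3
    have h4 := Nat.le_of_dvd (Nat.div_pos (Nat.le_of_dvd hN hq2) hq1.pos) h3
    exact absurd h4 (not_le.mpr (Nat.div_lt_self hN hq1.one_lt))

section

variable {G : Type} [Group G] [Finite G] {H : Subgroup G}

/-- the functional -/
noncomputable def La (β : H →* ℂˣ) (S : Finset ℕ) (N : ℕ) (u : ℤ) (θ : G → ℂ) : ℂ :=
  ∑ᶠ x : H, θ x * hh S N u (β x)

lemma La_eq [Fintype H] (β : H →* ℂˣ) (S : Finset ℕ) (N : ℕ) (u : ℤ) (θ : G → ℂ) :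
    La β S N u θ = ∑ x : H, θ x * hh S N u (β x) := by
  rw [La, finsum_eq_sum_of_fintype]

lemma La_add (β : H →* ℂˣ) (S : Finset ℕ) (N : ℕ) (u : ℤ) (θ θ' : G → ℂ) :
    La β S N u (θ + θ') = La β S N u θ + La β S N u θ' := by
  have : Fintype H := Fintype.ofFinite _
  rw [La_eq, La_eq, La_eq, ← Finset.sum_add_distrib]
  refine Finset.sum_congr rfl fun x _ => ?_
  rw [Pi.add_apply, add_mul]

/-- the functional, as a homomorphism -/
noncomputable def LaHom (β : H →* ℂˣ) (S : Finset ℕ) (N : ℕ) (u : ℤ) : (G → ℂ) →+ ℂ :=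
  AddMonoidHom.mk' (La β S N u) (La_add β S N u)

lemma La_insert (β : H →* ℂˣ) {S : Finset ℕ} {q : ℕ} (hq : q ∉ S) (N : ℕ) (u : ℤ) (θ : G → ℂ) :
    La β (insert q S) N u θ = 2 * La β S N u θ - La β S N (u - (N / q : ℕ)) θ
      - La β S N (u + (N / q : ℕ)) θ := by
  have : Fintype H := Fintype.ofFinite _
  rw [La_eq, La_eq, La_eq, La_eq, Finset.mul_sum, ← Finset.sum_sub_distrib,
    ← Finset.sum_sub_distrib]
  refine Finset.sum_congr rfl fun x _ => ?_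
  rw [hh_insert hq]
  ring

/-- rational valued characters, without the factors -/
lemma La_empty (β : H →* ℂˣ) {N : ℕ} (hN : 0 < N) (hβ : ∀ x, β x ^ N = 1) {θ : G → ℂ}
    (hθ : IsChar θ) (hr : ∀ g, ∃ q : ℚ, θ g = q) :
    ∃ r : ℂ, ∀ u : ℤ, IsCoprime u (N : ℤ) → La β ∅ N u θ = r := by
  classical
  have : Fintype H := Fintype.ofFinite _
  choose q hq using hr
  obtain ⟨k, hk⟩ := mt_int β hθ
  have hP0 : (Nat.card H : ℂ) ≠ 0 := by exact_mod_cast Nat.card_pos.ne'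
  have h1 : ∑ x : H, (q x : ℂ) * (((β x)⁻¹ : ℂˣ) : ℂ) = ((Nat.card H * k : ℚ) : ℂ) := by
    have h2 : (Nat.card H : ℂ) * mt H β θ = Nat.card H * k := by rw [hk]
    rw [mt, mul_inv_cancel_left₀ hP0, finsum_eq_sum_of_fintype] at h2
    push_cast
    rw [← h2]
    exact Finset.sum_congr rfl fun x _ => by rw [hq, Units.val_inv_eq_inv_val]
  refine ⟨((Nat.card H * k : ℚ) : ℂ), fun u hu => ?_⟩
  have hN' : (N : ℤ) ≠ 0 := by exact_mod_cast hN.ne'
  obtain ⟨a, ha⟩ : ∃ a : ℕ, (a : ℤ) = u % N := ⟨(u % N).toNat, Int.toNat_of_nonneg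
    (Int.emod_nonneg _ hN')⟩
  have hu2 : u = a + N * (u / N) := by rw [ha, Int.emod_add_mul_ediv]
  have hcop : a.Coprime N := by
    rw [← Nat.isCoprime_iff_coprime, ha]
    rw [hu2] at hu
    have h2 : IsCoprime (a : ℤ) (N : ℤ) := by
      rwa [IsCoprime.add_mul_left_left_iff] at hu
    rwa [ha] at h2
  have h3 := conj_sum (fun x : H => q x) (fun x : H => (((β x)⁻¹ : ℂˣ) : ℂ))
    (n := N) hN (by
      intro x
      rw [← Units.val_pow_eq_pow_val, inv_pow, hβ, inv_one, Units.val_one]) hcop h1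
  rw [La_eq, ← h3]
  refine Finset.sum_congr rfl fun x _ => ?_
  rw [hq]
  congr 1
  unfold hh
  rw [Finset.prod_empty, mul_one, ← Units.val_pow_eq_pow_val]
  congr 1
  rw [hu2, neg_add, zpow_add, zpow_neg, zpow_natCast, inv_pow, ← mul_neg, zpow_mul, zpow_natCast,
    hβ, one_zpow, mul_one]

/-- rational valued characters -/
lemma La_rat (β : H →* ℂˣ) {M : ℕ} (hM : 2 ≤ M) (hβ : ∀ x, β x ^ (M ^ 2) = 1) {θ : G → ℂ}
    (hθ : IsChar θ) (hr : ∀ g, ∃ q : ℚ, θ g = q) :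
    La β (M ^ 2).primeFactors (M ^ 2) 1 θ = 0 := by
  classical
  have hN : 0 < M ^ 2 := by positivity
  have hdvd : ∀ q ∈ (M ^ 2).primeFactors, (M : ℤ) ∣ ((M ^ 2 / q : ℕ) : ℤ) := by
    intro q hq
    obtain ⟨hq1, hq2, -⟩ := Nat.mem_primeFactors.mp hq
    have h1 : q ∣ M := hq1.dvd_of_dvd_pow hq2
    rw [pow_two, Nat.mul_div_assoc _ h1]
    exact_mod_cast Dvd.intro _ rfl
  have hcop : ∀ u : ℤ, (M : ℤ) ∣ u - 1 → IsCoprime u ((M ^ 2 : ℕ) : ℤ) := by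
    intro u hu
    push_cast
    apply IsCoprime.pow_right
    obtain ⟨k, hk⟩ := hu
    refine ⟨1, -k, ?_⟩
    linarith
  obtain ⟨r, hr'⟩ := La_empty β hN hβ hθ hr
  have key : ∀ S : Finset ℕ, S ⊆ (M ^ 2).primeFactors →
      ∃ r : ℂ, ∀ u : ℤ, (M : ℤ) ∣ u - 1 → La β S (M ^ 2) u θ = r := by
    intro S
    induction S using Finset.induction_on with
    | empty => exact fun _ => ⟨r, fun u hu => hr' u (hcop u hu)⟩
    | insert q S hq ih =>
      intro hS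
      obtain ⟨r, h⟩ := ih ((Finset.subset_insert q S).trans hS)
      have h1 := hdvd q (hS (Finset.mem_insert_self q S))
      refine ⟨2 * r - r - r, fun u hu => ?_⟩
      rw [La_insert β hq, h u hu, h _ (by
        have h2 := dvd_sub hu h1
        rwa [sub_right_comm] at h2), h _ (by
        have h2 := dvd_add hu h1
        rwa [sub_add_eq_add_sub] at h2)]
  have hne : (M ^ 2).primeFactors.Nonempty := by
    rw [Nat.nonempty_primeFactors]
    nlinarith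
  obtain ⟨q, hq⟩ := hne
  obtain ⟨r, h⟩ := key ((M ^ 2).primeFactors.erase q) (Finset.erase_subset _ _)
  have h1 := hdvd q hq
  rw [← Finset.insert_erase hq, La_insert β (Finset.notMem_erase q _), h 1 (by simp), h _ (by
        have h2 : (M : ℤ) ∣ -((M ^ 2 / q : ℕ) : ℤ) := h1.neg_right
        have e : (1 : ℤ) - ((M ^ 2 / q : ℕ) : ℤ) - 1 = -((M ^ 2 / q : ℕ) : ℤ) := by ring
        rwa [e]), h _ (by
        have e : (1 : ℤ) + ((M ^ 2 / q : ℕ) : ℤ) - 1 = ((M ^ 2 / q : ℕ) : ℤ) := by ring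
        rwa [e])]
  ring

end

end Pool.Agent.H99.Ov
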