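import Mathlib
import Pool.Agent.H99.Ov.Tf1

/-!
# The second functional: values on induced characters
-/

set_option autoImplicit false
set_option linter.unusedSectionVars false

namespace Pool.Agent.H99.Ov

open Pool.Agent.R389 Pool.Agent.H37.Stk Pool.Agent.K4H74.ST Pool.Agent.W446.AS

/-- `x ↦ g⁻¹ x g` -/
def cj {G : Type} [Group G] (g : G) : G →* G :=
  MonoidHom.mk' (fun x => g⁻¹ * x * g) (fun a b => by group)

lemma cj_apply {G : Type} [Group G] (g x : G) : cj g x = g⁻¹ * x * g := rfl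

lemma cj_surj {G : Type} [Group G] (g : G) : Function.Surjective (cj g) := fun x =>
  ⟨g * x * g⁻¹, by rw [cj_apply]; group⟩

section

variable {G : Type} [Group G] {H : Subgroup G}

/-- the pairs which are detected -/
structure Bad (β : H →* ℂˣ) (M : ℕ) (V : Subgroup G) (lam : V →* ℂˣ) : Prop where
  gen : ∃ x : H, (x : G) ∈ V ∧ orderOf (β x) = M ^ 2
  eq : ∀ (e : H) (he : (e : G) ∈ V), β e ^ M = 1 → lam ⟨e, he⟩ = β e

variable [Finite G]

/-- the inner sum -/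
noncomputable def Sg (β : H →* ℂˣ) (S : Finset ℕ) (N : ℕ) (u : ℤ) {V : Subgroup G}
    (lam : V →* ℂˣ) (g : G) : ℂ :=
  ∑ᶠ x : H, ext V (fun v => ((lam v : ℂˣ) : ℂ)) (g⁻¹ * x * g) * hh S N u (β x)

lemma Sg_eq [Fintype H] (β : H →* ℂˣ) (S : Finset ℕ) (N : ℕ) (u : ℤ) {V : Subgroup G}
    (lam : V →* ℂˣ) (g : G) : Sg β S N u lam g =
      ∑ x : H, ext V (fun v => ((lam v : ℂˣ) : ℂ)) (g⁻¹ * x * g) * hh S N u (β x) := by
  rw [Sg, finsum_eq_sum_of_fintype]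

lemma La_ind [Fintype G] (β : H →* ℂˣ) (S : Finset ℕ) (N : ℕ) (u : ℤ) {V : Subgroup G}
    (lam : V →* ℂˣ) : La β S N u (ind V (fun v => ((lam v : ℂˣ) : ℂ)))
      = (Nat.card V : ℂ)⁻¹ * ∑ g : G, Sg β S N u lam g := by
  classical
  have : Fintype H := Fintype.ofFinite _
  simp only [Sg_eq]
  rw [La_eq, Finset.sum_comm, Finset.mul_sum]
  refine Finset.sum_congr rfl fun x _ => ?_
  rw [ind_eq, mul_assoc, Finset.sum_mul]

/-- translation -/
lemma Sg_mul (β : H →* ℂˣ) {S : Finset ℕ} {N M : ℕ} (hS : ∀ q ∈ S, M ∣ N / q) (u : ℤ)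
    {V : Subgroup G} (lam : V →* ℂˣ) (g : G) {e : H} (he : g⁻¹ * e * g ∈ V) (heM : β e ^ M = 1) :
    Sg β S N u lam g = ((lam ⟨g⁻¹ * e * g, he⟩ * β e ^ (-u) : ℂˣ) : ℂ) * Sg β S N u lam g := by
  classical
  have : Fintype H := Fintype.ofFinite _
  conv_lhs => rw [Sg_eq, ← Equiv.sum_comp (Equiv.mulRight e)]
  rw [Sg_eq, Finset.mul_sum]
  refine Finset.sum_congr rfl fun x _ => ?_
  rw [Equiv.coe_mulRight, map_mul, hh_mul hS u _ heM]
  have h1 : g⁻¹ * ((x * e : H) : G) * g = (g⁻¹ * (x : G) * g) * (g⁻¹ * e * g) := by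
    rw [Subgroup.coe_mul]
    group
  have h2 : ext V (fun v => ((lam v : ℂˣ) : ℂ)) (g⁻¹ * ((x * e : H) : G) * g)
      = ext V (fun v => ((lam v : ℂˣ) : ℂ)) (g⁻¹ * (x : G) * g)
        * ((lam ⟨g⁻¹ * e * g, he⟩ : ℂˣ) : ℂ) := by
    by_cases hx : g⁻¹ * (x : G) * g ∈ V
    · rw [h1, ext_mem _ _ (V.mul_mem hx he), ext_mem _ _ hx, ← Units.val_mul, ← map_mul]
      rfl
    · rw [ext_not _ _ hx, zero_mul, ext_not]
      intro h3
      rw [h1] at h3
      exact hx ((V.mul_mem_cancel_right he).mp h3)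
  rw [h2, Units.val_mul]
  ring

lemma dvd_sq_div {M q : ℕ} (hq : q ∈ (M ^ 2).primeFactors) : M ∣ M ^ 2 / q := by
  obtain ⟨hq1, hq2, -⟩ := Nat.mem_primeFactors.mp hq
  have h1 : q ∣ M := hq1.dvd_of_dvd_pow hq2
  rw [pow_two, Nat.mul_div_assoc _ h1]
  exact Dvd.intro _ rfl

/-- **detection** -/
theorem exists_bad (β : H →* ℂˣ) {M : ℕ} (hM : 0 < M) (hβ : ∀ x, β x ^ (M ^ 2) = 1)
    {V : Subgroup G} (lam : V →* ℂˣ)
    (h : La β (M ^ 2).primeFactors (M ^ 2) 1 (ind V (fun v => ((lam v : ℂˣ) : ℂ))) ≠ 0) :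
    ∃ g : G, Bad β M (V.comap (cj g)) (lam.comp ((cj g).subgroupComap V)) := by
  classical
  have : Fintype G := Fintype.ofFinite _
  have : Fintype H := Fintype.ofFinite _
  rw [La_ind] at h
  obtain ⟨g, -, hg⟩ := Finset.exists_ne_zero_of_sum_ne_zero (right_ne_zero_of_mul h)
  refine ⟨g, ?_, ?_⟩
  · rw [Sg_eq] at hg
    obtain ⟨x, -, hx⟩ := Finset.exists_ne_zero_of_sum_ne_zero hg
    refine ⟨x, ?_, hh_ne (by positivity) (hβ x) (right_ne_zero_of_mul hx)⟩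
    by_contra hcon
    apply left_ne_zero_of_mul hx
    exact ext_not _ _ hcon
  · intro e he heM
    have h1 := Sg_mul β (S := (M ^ 2).primeFactors) (fun q hq => dvd_sq_div hq) 1 lam g
      (e := e) he heM
    have h2 : ((lam ⟨g⁻¹ * e * g, he⟩ * β e ^ (-1 : ℤ) : ℂˣ) : ℂ) = 1 :=
      (mul_eq_right₀ hg).mp h1.symm
    rw [Units.val_eq_one, zpow_neg, zpow_one, mul_inv_eq_one] at h2
    exact h2

end

end Pool.Agent.H99.Ov
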