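import Mathlib
import Pool.Agent.H99.Ov.Tf2

/-!
# Central subgroups
-/

set_option autoImplicit false
set_option linter.unusedSectionVars false

namespace Pool.Agent.H99.Ov

open Pool.Agent.R389 Pool.Agent.H37.Stk Pool.Agent.K4H74.ST Pool.Agent.W446.AS

/-- the data -/
structure Cen {Q : Type} [Group Q] (M : ℕ) (H W U : Subgroup Q) (κ : H →* ℂˣ) (ψ : U →* ℂˣ) :
    Prop where
  nH : H.Normal
  cen : ∀ w ∈ W, ∀ x ∈ H, w * x * w⁻¹ = x
  inv : ∀ w ∉ W, ∀ x ∈ H, w * x * w⁻¹ = x⁻¹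
  inj : Function.Injective κ
  pw : ∀ x, κ x ^ (M ^ 2) = 1
  gen : ∃ x, orderOf (κ x) = M ^ 2
  idx : W.index = 2
  com : ∃ s ∈ W, ∃ t ∈ W, ∃ h : s * t * s⁻¹ * t⁻¹ ∈ H, orderOf (κ ⟨_, h⟩) = M
  hU : H ≤ U
  hψ : ∀ x (hx : x ∈ H), ψ ⟨x, hU hx⟩ = κ ⟨x, hx⟩

section

variable {Q : Type} [Group Q] [Finite Q] {M : ℕ} {H W U : Subgroup Q} {κ : H →* ℂˣ}
  {ψ : U →* ℂˣ} {G : Type} [Group G] [Finite G] {π : G →* Q}

lemma kp_apply (π : G →* Q) (κ : H →* ℂˣ) (x : H.comap π) :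
    κ.comp (π.subgroupComap H) x = κ ⟨π x, x.2⟩ := rfl

theorem Cen.le (h : Cen M H W U κ ψ) (hM : 3 ≤ M) {V : Subgroup G} {lam : V →* ℂˣ}
    (hb : Bad (κ.comp (π.subgroupComap H)) M V lam) {v : G} (hv : v ∈ V) : π v ∈ W := by
  by_contra hW
  obtain ⟨x, hxV, hord⟩ := hb.gen
  set β := κ.comp (π.subgroupComap H) with hβ
  have he1 : β (x ^ M) ^ M = 1 := by
    rw [← map_pow, ← pow_mul, ← pow_two, map_pow, ← hord, pow_orderOf_eq_one]
  have heV : ((x ^ M : H.comap π) : G) ∈ V := by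
    rw [Subgroup.coe_pow]
    exact V.pow_mem hxV M
  have h1 := hb.eq (x ^ M) heV he1
  have hπ : π (v * ((x ^ M : H.comap π) : G) * v⁻¹) = (π ((x ^ M : H.comap π) : G))⁻¹ := by
    rw [map_mul, map_mul, map_inv]
    exact h.inv _ hW _ (x ^ M).2
  have hmem : v * ((x ^ M : H.comap π) : G) * v⁻¹ ∈ H.comap π := by
    rw [Subgroup.mem_comap, hπ]
    exact H.inv_mem (x ^ M).2
  have hβ' : β ⟨_, hmem⟩ = (β (x ^ M))⁻¹ := by
    rw [hβ, kp_apply, kp_apply, ← map_inv]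
    congr 1
    exact Subtype.ext hπ
  have heV' : v * ((x ^ M : H.comap π) : G) * v⁻¹ ∈ V :=
    V.mul_mem (V.mul_mem hv heV) (V.inv_mem hv)
  have h2 := hb.eq ⟨_, hmem⟩ heV' (by rw [hβ', inv_pow, he1, inv_one])
  have h3 : lam ⟨_, heV'⟩ = lam ⟨_, heV⟩ := by
    have e : (⟨_, heV'⟩ : V) = ⟨v, hv⟩ * ⟨_, heV⟩ * ⟨v, hv⟩⁻¹ := by
      apply Subtype.ext
      simp only [Subgroup.coe_mul, Subgroup.coe_inv]
    rw [e, map_mul, map_mul, map_inv, mul_comm (lam ⟨v, hv⟩), mul_inv_cancel_right]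
  have h4 : β (x ^ M) * β (x ^ M) = 1 := by
    rw [mul_eq_one_iff_eq_inv, ← hβ', ← h2]
    exact h1.symm.trans h3.symm
  rw [← map_mul, ← pow_add, map_pow] at h4
  have h5 := orderOf_dvd_of_pow_eq_one h4
  rw [hord, pow_two, ← two_mul] at h5
  have h6 := Nat.dvd_of_mul_dvd_mul_right (by omega) h5
  have := Nat.le_of_dvd (by norm_num) h6
  omega

theorem Cen.index (h : Cen M H W U κ ψ) (hM : 3 ≤ M) (hπ : Function.Surjective π)
    {V : Subgroup G} {lam : V →* ℂˣ}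
    (hb : Bad (κ.comp (π.subgroupComap H)) M V lam) : 2 * M ∣ V.index := by
  classical
  have hVW : V.map π ≤ W := by
    rintro _ ⟨v, hv, rfl⟩
    exact h.le hM hb hv
  obtain ⟨x, hxV, hord⟩ := hb.gen
  set β := κ.comp (π.subgroupComap H) with hβ
  -- the character of the image
  have hker : (π.subgroupMap V).ker ≤ lam.ker := by
    intro v hv
    have h1 : π (v : G) = 1 := congrArg Subtype.val (MonoidHom.mem_ker.mp hv)
    have h2 : (v : G) ∈ H.comap π := by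
      rw [Subgroup.mem_comap, h1]
      exact H.one_mem
    have h3 : β ⟨v, h2⟩ = 1 := by
      rw [hβ, kp_apply]
      have : (⟨π (v : G), h2⟩ : H) = 1 := Subtype.ext h1
      rw [this, map_one]
    have h4 := hb.eq ⟨v, h2⟩ v.2 (by rw [h3, one_pow])
    rw [h3] at h4
    exact h4
  let lb : V.map π →* ℂˣ := (π.subgroupMap V).liftOfSurjective
    (MonoidHom.subgroupMap_surjective π V) ⟨lam, hker⟩
  have hlb : ∀ v : V, lb (π.subgroupMap V v) = lam v := fun v =>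
    MonoidHom.liftOfRightInverse_comp_apply _ _ _ ⟨lam, hker⟩ v
  -- the commutator
  obtain ⟨s, hs, t, ht, hz, hzM⟩ := h.com
  set z := s * t * s⁻¹ * t⁻¹ with hzdef
  have hprim : IsPrimitiveRoot ((β x : ℂˣ) : ℂ) (M ^ 2) := by
    rw [IsPrimitiveRoot.coe_units_iff, ← hord]
    exact IsPrimitiveRoot.orderOf _
  have : NeZero (M ^ 2) := ⟨by positivity⟩
  obtain ⟨j, -, hj⟩ := hprim.eq_pow_of_pow_eq_one (ξ := ((κ ⟨z, hz⟩ : ℂˣ) : ℂ)) (by
    rw [← Units.val_pow_eq_pow_val, h.pw, Units.val_one])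
  have hj' : β (x ^ j) = κ ⟨z, hz⟩ := by
    rw [map_pow]
    apply Units.ext
    rw [Units.val_pow_eq_pow_val, hj]
  have hjz : π ((x ^ j : H.comap π) : G) = z := by
    have h1 : (⟨π ((x ^ j : H.comap π) : G), (x ^ j).2⟩ : H) = ⟨z, hz⟩ := h.inj hj'
    exact congrArg Subtype.val h1
  have heV : ((x ^ j : H.comap π) : G) ∈ V := by
    rw [Subgroup.coe_pow]
    exact V.pow_mem hxV j
  have hlam := hb.eq (x ^ j) heV (by rw [hj', ← hzM, pow_orderOf_eq_one])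
  rw [hj'] at hlam
  have hzV : z ∈ V.map π := ⟨_, heV, hjz⟩
  have hlbz : lb ⟨z, hzV⟩ = κ ⟨z, hz⟩ := by
    rw [← hlam, ← hlb]
    congr 1
    exact Subtype.ext hjz.symm
  -- the transfer
  let φ : (V.map π).subgroupOf W →* ℂˣ := lb.comp (W.subtype.subgroupComap (V.map π))
  let sW : W := ⟨s, hs⟩
  let tW : W := ⟨t, ht⟩
  have key : ∀ (k : ℕ) (g₀ : W), g₀⁻¹ * (sW * tW * sW⁻¹ * tW⁻¹) ^ k * g₀ ∈
      (V.map π).subgroupOf W → g₀⁻¹ * (sW * tW * sW⁻¹ * tW⁻¹) ^ k * g₀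
        = (sW * tW * sW⁻¹ * tW⁻¹) ^ k := by
    intro k g₀ _
    apply Subtype.ext
    have h1 := h.cen (g₀ : Q)⁻¹ (W.inv_mem g₀.2) (z ^ k) (H.pow_mem hz k)
    rw [inv_inv] at h1
    exact h1
  have h1 := MonoidHom.transfer_eq_pow φ (sW * tW * sW⁻¹ * tW⁻¹) key
  have h2 : MonoidHom.transfer φ (sW * tW * sW⁻¹ * tW⁻¹) = 1 := by
    rw [map_mul, map_mul, map_mul, map_inv, map_inv, mul_comm (MonoidHom.transfer φ sW),
      mul_inv_cancel_right, mul_inv_cancel]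
  rw [h2] at h1
  have h3 : φ ⟨(sW * tW * sW⁻¹ * tW⁻¹) ^ ((V.map π).subgroupOf W).index,
      MonoidHom.transfer_eq_pow_aux _ key⟩ = lb ⟨z, hzV⟩ ^ ((V.map π).subgroupOf W).index := by
    rw [← map_pow]
    change lb _ = lb _
    congr 1
  rw [h3, hlbz] at h1
  have h4 : M ∣ (V.map π).relIndex W := by
    rw [← hzM]
    exact orderOf_dvd_of_pow_eq_one h1.symm
  have h5 := Subgroup.relIndex_mul_index hVW
  rw [h.idx] at h5
  refine (mul_comm 2 M ▸ Nat.mul_dvd_mul_right h4 2).trans ?_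
  rw [h5]
  exact Subgroup.index_map_dvd V hπ

end

end Pool.Agent.H99.Ov
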