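import Mathlib
import Pool.Agent.H99.Ov.Tf3
import Pool.Agent.H99.Ov.Fd

/-!
# Central subgroups: nonvanishing
-/

set_option autoImplicit false
set_option linter.unusedSectionVars false

namespace Pool.Agent.H99.Ov

open Pool.Agent.R389 Pool.Agent.H37.Stk Pool.Agent.K4H74.ST Pool.Agent.W446.AS

section

variable {Q : Type} [Group Q] [Finite Q] {M : ℕ} {H W U : Subgroup Q} {κ : H →* ℂˣ}
  {ψ : U →* ℂˣ} {G : Type} [Group G] [Finite G] {π : G →* Q}

lemma Cen.conjH (h : Cen M H W U κ ψ) (x : H.comap π) (g : G) : π (g⁻¹ * x * g) ∈ H := by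
  have hn := h.nH
  have h1 := hn.conj_mem _ x.2 (π g)⁻¹
  rw [inv_inv] at h1
  rwa [map_mul, map_mul, map_inv]

lemma Cen.val_psi (h : Cen M H W U κ ψ) {g x : G} (hx : π x ∈ H) (y : U.comap π)
    (hy : π (y : G) = π x) : ψ.comp (π.subgroupComap U) y
      = κ.comp (π.subgroupComap H) ⟨x, hx⟩ := by
  refine Eq.trans ?_ (h.hψ (π x) hx)
  change ψ ⟨π (y : G), y.2⟩ = ψ ⟨π x, h.hU hx⟩
  congr 1
  exact Subtype.ext hy

theorem Cen.ne (h : Cen M H W U κ ψ) (hM : 3 ≤ M) (hπ : Function.Surjective π) :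
    La (κ.comp (π.subgroupComap H)) (M ^ 2).primeFactors (M ^ 2) 1
      (ind (U.comap π) (fun v => ((ψ.comp (π.subgroupComap U) v : ℂˣ) : ℂ))) ≠ 0 := by
  classical
  have : Fintype G := Fintype.ofFinite _
  have : Fintype (H.comap π) := Fintype.ofFinite _
  have hMpos : 0 < M ^ 2 := by positivity
  set β := κ.comp (π.subgroupComap H) with hβ
  have hβN : ∀ x, β x ^ (M ^ 2) = 1 := fun x => h.pw _
  obtain ⟨x₀, hx₀⟩ := h.gen
  obtain ⟨y₀, hy₀⟩ := hπ x₀
  have hy₀H : y₀ ∈ H.comap π := by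
    rw [Subgroup.mem_comap, hy₀]
    exact x₀.2
  have hord : orderOf (β ⟨y₀, hy₀H⟩) = M ^ 2 := by
    rw [← hx₀, hβ, kp_apply]
    congr 2
    exact Subtype.ext hy₀
  rw [La_ind]
  have key : ∀ g : G, ∃ r : ℝ, 0 ≤ r ∧ Sg β (M ^ 2).primeFactors (M ^ 2) 1
      (ψ.comp (π.subgroupComap U)) g = r ∧ (g = 1 → 0 < r) := by
    intro g
    by_cases hg : π g ∈ W
    · choose r hr0 hr1 hr2 using fun x => hh_val hMpos (hβN x)
      refine ⟨∑ x, r x, Finset.sum_nonneg fun x _ => hr0 x, ?_, fun _ => ?_⟩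
      · rw [Sg_eq, Complex.ofReal_sum]
        refine Finset.sum_congr rfl fun x _ => ?_
        rw [← hr1]
        congr 1
        have hπx : π (g⁻¹ * x * g) = π x := by
          have h1 := h.cen (π g)⁻¹ (W.inv_mem hg) _ x.2
          rw [inv_inv] at h1
          rwa [map_mul, map_mul, map_inv]
        have hmem : g⁻¹ * (x : G) * g ∈ U.comap π := h.hU (h.conjH x g)
        rw [ext_mem _ _ hmem]
        congr 1
        exact h.val_psi (g := g) x.2 ⟨_, hmem⟩ hπx
      · exact Finset.sum_pos' (fun x _ => hr0 x) ⟨_, Finset.mem_univ _, hr2 _ hord⟩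
    · refine ⟨0, le_rfl, ?_, fun h1 => absurd (by rw [h1, map_one]; exact W.one_mem) hg⟩
      rw [Complex.ofReal_zero]
      let e : H.comap π := ⟨y₀, hy₀H⟩ ^ M
      have heM : β e ^ M = 1 := by
        rw [← map_pow, ← pow_mul, ← pow_two, map_pow, hβN]
      have hmem : g⁻¹ * (e : G) * g ∈ U.comap π := h.hU (h.conjH e g)
      have h1 := Sg_mul β (S := (M ^ 2).primeFactors) (fun q hq => dvd_sq_div hq) 1
        (ψ.comp (π.subgroupComap U)) g (e := e) hmem heM
      by_contra hne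
      have h2 := (mul_eq_right₀ hne).mp h1.symm
      rw [Units.val_eq_one, zpow_neg, zpow_one, mul_inv_eq_one] at h2
      have hπx : π (g⁻¹ * e * g) = π ((e⁻¹ : H.comap π) : G) := by
        have h1 := h.inv (π g)⁻¹ (fun h3 => hg (by simpa using W.inv_mem h3)) _ e.2
        rw [inv_inv] at h1
        rw [map_mul, map_mul, map_inv, Subgroup.coe_inv, map_inv]
        exact h1
      rw [h.val_psi (g := g) (e⁻¹).2 ⟨_, hmem⟩ hπx] at h2
      have h3 : β e⁻¹ = β e := h2
      rw [map_inv, inv_eq_iff_mul_eq_one, ← map_mul, ← pow_add, map_pow] at h3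
      have h5 := orderOf_dvd_of_pow_eq_one h3
      rw [hord, pow_two, ← two_mul] at h5
      have h6 := Nat.dvd_of_mul_dvd_mul_right (by omega) h5
      have := Nat.le_of_dvd (by norm_num) h6
      omega
  choose r hr0 hr1 hr2 using key
  have h1 : ∑ g : G, Sg β (M ^ 2).primeFactors (M ^ 2) 1 (ψ.comp (π.subgroupComap U)) g
      = ((∑ g, r g : ℝ) : ℂ) := by
    rw [Complex.ofReal_sum]
    exact Finset.sum_congr rfl fun g _ => hr1 g
  rw [h1]
  refine mul_ne_zero (inv_ne_zero (by exact_mod_cast Nat.card_pos.ne')) ?_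
  rw [Complex.ofReal_ne_zero]
  exact (Finset.sum_pos' (fun g _ => hr0 g) ⟨1, Finset.mem_univ _, hr2 1 rfl⟩).ne'

end

/-! ### The group -/

section grp

variable {Γ : Type} [Group Γ] {n : ℕ} {C : Type} [CommGroup C]

lemma GG_ext {a b : GG Γ C n} (h1 : ∀ i x, co a i x = co b i x)
    (h2 : a.left.right = b.left.right) (h3 : a.right = b.right) : a = b := by
  apply SemidirectProduct.ext
  · apply SemidirectProduct.ext
    · funext i x
      exact h1 i x
    · exact h2
  · exact h3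

end grp

end Pool.Agent.H99.Ov
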