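import Mathlib
import Pool.Agent.H99.Ov.Tf4

/-!
# Central subgroups: the group
-/

set_option autoImplicit false
set_option linter.unusedSectionVars false

namespace Pool.Agent.H99.Ov

open Pool.Agent.H391R2 Pool.Agent.H391R2.T4 Pool.Agent.K4H74.ST

section grp

variable {Γ C : Type} [Group Γ] [CommGroup C] {n : ℕ}

/-- the constant element -/
noncomputable def cst (t : C) : GG Γ C n :=
  ⟨⟨fun _ x => @ite _ (x = 1) (Classical.propDecidable _) t t⁻¹, 1⟩, 1⟩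

lemma co_cst_one (t : C) (i : Fin n) : co (cst t : GG Γ C n) i 1 = t := by
  change @ite _ ((1 : Γ) = 1) (Classical.propDecidable _) t t⁻¹ = t
  rw [if_pos rfl]

lemma co_cst_ne (t : C) (i : Fin n) {x : Γ} (hx : x ≠ 1) : co (cst t : GG Γ C n) i x = t⁻¹ := by
  change @ite _ (x = 1) (Classical.propDecidable _) t t⁻¹ = t⁻¹
  rw [if_neg hx]

lemma mem_ker_top {z : GG Γ C n} : z ∈ (top : GG Γ C n →* _).ker ↔ z.left.right = 1 ∧ z.right = 1 := by
  rw [MonoidHom.mem_ker, top_apply, Prod.mk_eq_one]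

lemma cst_ker (t : C) : (cst t : GG Γ C n) ∈ (top : GG Γ C n →* _).ker := mem_ker_top.mpr ⟨rfl, rfl⟩

lemma co_mul_ker {a : GG Γ C n} (ha : a ∈ (top : GG Γ C n →* _).ker) (b : GG Γ C n) (i : Fin n)
    (x : Γ) : co (a * b) i x = co a i x * co b i x := by
  obtain ⟨h1, h2⟩ := mem_ker_top.mp ha
  rw [co_mul, h1, h2, inv_one, inv_one, one_mul, Equiv.Perm.one_apply]

lemma co_one (i : Fin n) (x : Γ) : co (1 : GG Γ C n) i x = 1 := rfl

lemma co_inv_ker {a : GG Γ C n} (ha : a ∈ (top : GG Γ C n →* _).ker) (i : Fin n)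
    (x : Γ) : co a⁻¹ i x = (co a i x)⁻¹ := by
  rw [eq_inv_iff_mul_eq_one, mul_comm, ← co_mul_ker ha, mul_inv_cancel, co_one]

lemma ker_ext {a b : GG Γ C n} (ha : a ∈ (top : GG Γ C n →* _).ker)
    (hb : b ∈ (top : GG Γ C n →* _).ker) (h1 : ∀ i x, co a i x = co b i x) : a = b := by
  obtain ⟨h2, h3⟩ := mem_ker_top.mp ha
  obtain ⟨h4, h5⟩ := mem_ker_top.mp hb
  exact GG_ext h1 (h2.trans h4.symm) (h3.trans h5.symm)

variable (Γ C n) in
/-- the homomorphism of the constant elements -/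
noncomputable def cstHom : C →* GG Γ C n :=
  MonoidHom.mk' cst (fun a b => by
    refine ker_ext (cst_ker _) (mul_mem (cst_ker _) (cst_ker _)) fun i x => ?_
    rw [co_mul_ker (cst_ker a)]
    by_cases hx : x = 1
    · rw [hx, co_cst_one, co_cst_one, co_cst_one]
    · rw [co_cst_ne _ _ hx, co_cst_ne _ _ hx, co_cst_ne _ _ hx, mul_inv])

lemma cstHom_apply (t : C) : cstHom Γ C n t = cst t := rfl

variable (Γ C n) in
/-- the elements with trivial component in `Γ` -/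
def Wn : Subgroup (GG Γ C n) := ((MonoidHom.snd (Equiv.Perm (Fin n)) Γ).comp top).ker

lemma mem_Wn {z : GG Γ C n} : z ∈ Wn Γ C n ↔ z.right = 1 := Iff.rfl

lemma index_Wn : (Wn Γ C n).index = Nat.card Γ := by
  rw [Wn, Subgroup.index_ker]
  have h : ((MonoidHom.snd (Equiv.Perm (Fin n)) Γ).comp
      (top : GG Γ C n →* Equiv.Perm (Fin n) × Γ)).range = ⊤ := by
    rw [MonoidHom.range_eq_top]
    intro x
    obtain ⟨z, hz⟩ := top_surj (Γ := Γ) (C := C) (n := n) (1, x)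
    exact ⟨z, by rw [MonoidHom.comp_apply, hz]; rfl⟩
  rw [h, Subgroup.card_top]

lemma conj_cst (w : GG Γ C n) (t : C) (i : Fin n) (x : Γ) :
    co (w * cst t * w⁻¹) i x = co (cst t : GG Γ C n) i (w.right⁻¹ * x) := by
  rw [co_conj (cst_ker t)]
  rfl

lemma conj_cst_ker (w : GG Γ C n) (t : C) : w * cst t * w⁻¹ ∈ (top : GG Γ C n →* _).ker :=
  (MonoidHom.normal_ker (top : GG Γ C n →* _)).conj_mem _ (cst_ker t) w

lemma cst_cen {w : GG Γ C n} (hw : w ∈ Wn Γ C n) (t : C) : w * cst t * w⁻¹ = cst t := by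
  refine ker_ext (conj_cst_ker w t) (cst_ker t) fun i x => ?_
  rw [conj_cst, mem_Wn.mp hw, inv_one, one_mul]

lemma cst_inv (t : C) : (cst t : GG Γ C n)⁻¹ = cst t⁻¹ := by
  rw [← cstHom_apply, ← cstHom_apply, map_inv]

lemma two_elem (hΓ : Nat.card Γ = 2) {a b : Γ} (ha : a ≠ 1) (hb : b ≠ 1) : a = b := by
  have hf : Finite Γ := Nat.finite_of_card_ne_zero (by omega)
  by_contra hab
  have : Fintype Γ := Fintype.ofFinite _
  classical
  have h1 : ({1, a, b} : Finset Γ).card ≤ Fintype.card Γ := Finset.card_le_univ _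
  rw [← Nat.card_eq_fintype_card, hΓ, Finset.card_insert_of_notMem, Finset.card_pair hab] at h1
  · omega
  · simp only [Finset.mem_insert, Finset.mem_singleton, not_or]
    exact ⟨ha.symm, hb.symm⟩

lemma cst_conj_inv (hΓ : Nat.card Γ = 2) {w : GG Γ C n} (hw : w ∉ Wn Γ C n) (t : C) :
    w * cst t * w⁻¹ = (cst t)⁻¹ := by
  rw [cst_inv]
  refine ker_ext (conj_cst_ker w t) (cst_ker _) fun i x => ?_
  rw [conj_cst]
  have hc : w.right ≠ 1 := fun h => hw (mem_Wn.mpr h)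
  by_cases hx : x = 1
  · rw [hx, mul_one, co_cst_ne _ _ (inv_ne_one.mpr hc), co_cst_one]
  · rw [two_elem hΓ hx hc, inv_mul_cancel, co_cst_one, co_cst_ne _ _ hc, inv_inv]

end grp

section cen

variable {Γ : Type} [Group Γ] {n : ℕ}

lemma cst_le_UU {C : Type} [CommGroup C] (i₀ : Fin n) :
    (cstHom Γ C n).range ≤ UU Γ C i₀ := by
  rintro _ ⟨t, rfl⟩
  rw [mem_UU]
  exact ⟨rfl, rfl⟩

lemma exists_prim (m : ℕ) (hm : 0 < m) : ∃ z : ℂˣ, orderOf z = m := by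
  have hζ := Complex.isPrimitiveRoot_exp m hm.ne'
  refine ⟨hζ.isUnit hm.ne' |>.unit, ?_⟩
  exact ((hζ.isUnit_unit hm.ne').eq_orderOf).symm

theorem cen_GG (hΓ : Nat.card Γ = 2) {M : ℕ} (hM : 0 < M) (hn : M ∣ n) (i₀ : Fin n) :
    Cen M (cstHom Γ (rootsOfUnity (M ^ 2) ℂ) n).range (Wn Γ (rootsOfUnity (M ^ 2) ℂ) n)
      (UU Γ (rootsOfUnity (M ^ 2) ℂ) i₀)
      (((rootsOfUnity (M ^ 2) ℂ).subtype.comp (psi i₀)).comp (Subgroup.inclusion (cst_le_UU i₀)))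
      ((rootsOfUnity (M ^ 2) ℂ).subtype.comp (psi i₀)) := by
  classical
  have hn0 : NeZero n := ⟨i₀.pos.ne'⟩
  have hval : ∀ t : rootsOfUnity (M ^ 2) ℂ, ∀ h : cst t ∈ (cstHom Γ (rootsOfUnity (M ^ 2) ℂ) n).range,
      (((rootsOfUnity (M ^ 2) ℂ).subtype.comp (psi i₀)).comp (Subgroup.inclusion (cst_le_UU i₀)))
        ⟨cst t, h⟩ = (t : ℂˣ) := by
    intro t h
    change ((co (cst t : GG Γ (rootsOfUnity (M ^ 2) ℂ) n) i₀ 1 : rootsOfUnity (M ^ 2) ℂ) : ℂˣ) = t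
    rw [co_cst_one]
  refine ⟨?_, ?_, ?_, ?_, ?_, ?_, ?_, ?_, cst_le_UU i₀, fun _ _ => rfl⟩
  · refine ⟨?_⟩
    rintro _ ⟨t, rfl⟩ w
    rw [cstHom_apply]
    by_cases hw : w ∈ Wn Γ (rootsOfUnity (M ^ 2) ℂ) n
    · rw [cst_cen hw]
      exact ⟨t, rfl⟩
    · rw [cst_conj_inv hΓ hw, cst_inv]
      exact ⟨t⁻¹, rfl⟩
  · rintro w hw _ ⟨t, rfl⟩
    exact cst_cen hw t
  · rintro w hw _ ⟨t, rfl⟩
    exact cst_conj_inv hΓ hw t
  · rintro ⟨_, t, rfl⟩ ⟨_, t', rfl⟩ h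
    have h1 := (hval t ⟨t, rfl⟩).symm.trans (h.trans (hval t' ⟨t', rfl⟩))
    have h2 : t = t' := Subtype.ext h1
    subst h2
    rfl
  · rintro ⟨_, t, rfl⟩
    have h1 := hval t ⟨t, rfl⟩
    have h2 := t.2
    rw [mem_rootsOfUnity, ← h1] at h2
    exact h2
  · obtain ⟨z, hz⟩ := exists_prim (M ^ 2) (by positivity)
    have hz' : z ∈ rootsOfUnity (M ^ 2) ℂ := by
      rw [mem_rootsOfUnity, ← hz, pow_orderOf_eq_one]
    refine ⟨⟨cst ⟨z, hz'⟩, ⟨_, rfl⟩⟩, ?_⟩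
    rw [hval]
    exact hz
  · rw [index_Wn, hΓ]
  · obtain ⟨z, hz⟩ := exists_prim M hM
    have hz' : z ∈ rootsOfUnity (M ^ 2) ℂ := by
      rw [mem_rootsOfUnity, pow_two, pow_mul, ← hz, pow_orderOf_eq_one, one_pow]
    let ω : rootsOfUnity (M ^ 2) ℂ := ⟨z, hz'⟩
    have hωn : ω ^ n = 1 := by
      obtain ⟨k, hk⟩ := hn
      apply Subtype.ext
      change z ^ n = 1
      rw [hk, pow_mul, ← hz, pow_orderOf_eq_one, one_pow]
    let s : GG Γ (rootsOfUnity (M ^ 2) ℂ) n := ⟨⟨1, Equiv.addRight (1 : Fin n)⟩, 1⟩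
    let t : GG Γ (rootsOfUnity (M ^ 2) ℂ) n :=
      ⟨⟨fun i x => if x = 1 then ω ^ (i : ℕ) else (ω ^ (i : ℕ))⁻¹, 1⟩, 1⟩
    have ht : t ∈ (top : GG Γ (rootsOfUnity (M ^ 2) ℂ) n →* _).ker := mem_ker_top.mpr ⟨rfl, rfl⟩
    have hst : s * t * s⁻¹ ∈ (top : GG Γ (rootsOfUnity (M ^ 2) ℂ) n →* _).ker :=
      (MonoidHom.normal_ker (top : GG Γ (rootsOfUnity (M ^ 2) ℂ) n →* _)).conj_mem _ ht s
    have hcot : ∀ i x, co t i x = if x = 1 then ω ^ (i : ℕ) else (ω ^ (i : ℕ))⁻¹ := fun i x => rfl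
    have hpow : ∀ i : Fin n, ω ^ (i : ℕ) = ω ^ ((i - 1 : Fin n) : ℕ) * ω := by
      intro i
      have h1 : ω ^ (((i - 1) + 1 : Fin n) : ℕ) = ω ^ ((i - 1 : Fin n) : ℕ) * ω := by
        rw [Fin.val_add, ← pow_eq_pow_mod _ hωn, pow_add]
        congr 1
        have h2 : ((1 : Fin n) : ℕ) = 1 % n := Fin.val_one' n
        rw [h2, ← pow_eq_pow_mod _ hωn, pow_one]
      rwa [sub_add_cancel] at h1
    have hcomm : s * t * s⁻¹ * t⁻¹ = cst ω⁻¹ := by
      refine ker_ext (mul_mem hst (inv_mem ht)) (cst_ker _) fun i x => ?_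
      rw [co_mul_ker hst, co_inv_ker ht, co_conj ht]
      have h0 : s.left.right⁻¹ i = i - 1 := by
        rw [Equiv.Perm.inv_eq_iff_eq]
        change i = (i - 1) + 1
        rw [sub_add_cancel]
      have h1 : s.right⁻¹ * x = x := by
        change (1 : Γ)⁻¹ * x = x
        rw [inv_one, one_mul]
      rw [h0, h1, hcot, hcot]
      by_cases hx : x = 1
      · rw [if_pos hx, if_pos hx, hx, co_cst_one, hpow i, mul_inv, mul_inv_cancel_left]
      · rw [if_neg hx, if_neg hx, co_cst_ne _ _ hx, inv_inv, inv_inv, hpow i,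
          inv_mul_cancel_left]
    refine ⟨s, mem_Wn.mpr rfl, t, mem_Wn.mpr rfl, ?_, ?_⟩
    · rw [hcomm]
      exact ⟨_, rfl⟩
    · have h1 : ∀ y (h : y = cst ω⁻¹) (hy : y ∈ (cstHom Γ (rootsOfUnity (M ^ 2) ℂ) n).range),
          orderOf ((((rootsOfUnity (M ^ 2) ℂ).subtype.comp (psi i₀)).comp
            (Subgroup.inclusion (cst_le_UU i₀))) ⟨y, hy⟩) = M := by
        rintro y rfl hy
        rw [hval]
        change orderOf z⁻¹ = M
        rw [orderOf_inv, hz]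
      exact h1 _ hcomm _

end cen

end Pool.Agent.H99.Ov
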