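import Mathlib
import Pool.Agent.H99.Ov.Tf5
import Pool.Agent.H99.Ov.Nec2

/-!
# Necessity of the divisibility condition for torsion-free groups
-/

set_option autoImplicit false
set_option linter.unusedSectionVars false

namespace Pool.Agent.H99.Ov

open NumberField Pool.Agent.R389 Pool.Agent.H37.Stk Pool.Agent.K4H74.ST Pool.Agent.K4H74.SC
  Pool.Agent.W446.AS Pool.Agent.H391R2 Pool.Agent.H391R2.T4

lemma fc_aux {M : ℕ} (hM : 0 < M) {L F : Type} [Field L] [NumberField L] [IsGalois ℚ L]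
    (hcard : Nat.card (L ≃ₐ[ℚ] L) = 2) {j : L} (hj : j * j = -1) {n : ℕ} (hn0 : 0 < n)
    (hn : M ∣ n)
    [Field F] [hch : CharZero F] (i2 : Algebra ℚ F) (h2 : i2 = DivisionRing.toRatAlgebra)
    [i3 : Algebra L F] (i7 : FiniteDimensional ℚ F) (i8 : IsGalois ℚ F)
    (γ : (F ≃ₐ[ℚ] F) ≃* GG (L ≃ₐ[ℚ] L) (rootsOfUnity (M ^ 2) ℂ) n)
    (hγ : ∀ (σ : F ≃ₐ[ℚ] F) (x : L), σ (algebraMap L F x) = algebraMap L F ((γ σ).right x)) :
    ∃ (F : Type) (_ : Field F) (_ : NumberField F) (_ : IsGalois ℚ F)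
      (Q : Type) (_ : Group Q) (_ : Finite Q) (π : (F ≃ₐ[ℚ] F) →* Q) (H W U : Subgroup Q)
      (κ : H →* ℂˣ) (ψ : U →* ℂˣ), Function.Surjective π ∧ Cen M H W U κ ψ ∧
        ∀ c ∈ CC ℚ F, π c ∉ W := by
  subst h2
  have hNF : NumberField F := ⟨⟩
  let i₀ : Fin n := ⟨0, hn0⟩
  have hfin : Finite (GG (L ≃ₐ[ℚ] L) (rootsOfUnity (M ^ 2) ℂ) n) :=
    Finite.of_equiv _ γ.toEquiv
  refine ⟨F, _, hNF, i8, GG (L ≃ₐ[ℚ] L) (rootsOfUnity (M ^ 2) ℂ) n, inferInstance, hfin,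
    γ.toMonoidHom, _, _, _, _, _, γ.surjective, cen_GG hcard hM hn i₀, ?_⟩
  rintro c ⟨φ, hφ⟩ hc
  have h1 : (γ c).right = 1 := mem_Wn.mp hc
  have h2 := hγ c j
  rw [h1] at h2
  have h3 : algebraMap L F j * algebraMap L F j = -1 := by
    rw [← map_mul, hj, map_neg, map_one]
  have e0 : φ (algebraMap L F j * algebraMap L F j) = -1 := by
    rw [h3, map_neg, map_one]
  have e1 : (φ (algebraMap L F j * algebraMap L F j)).im = 0 := by
    rw [e0]; simp
  have e2 : (φ (algebraMap L F j * algebraMap L F j)).re < 0 := by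
    rw [e0]; simp
  have h4 : c (algebraMap L F j) = - algebraMap L F j := sqrt_neg hφ e1 e2
  rw [h4] at h2
  have h5 : algebraMap L F j = 0 := self_eq_neg.mp h2.symm
  rw [h5, mul_zero] at h3
  exact one_ne_zero (neg_eq_zero.mp h3.symm)

theorem exists_cen {M : ℕ} (hM : 0 < M) :
    ∃ (F : Type) (_ : Field F) (_ : NumberField F) (_ : IsGalois ℚ F)
      (Q : Type) (_ : Group Q) (_ : Finite Q) (π : (F ≃ₐ[ℚ] F) →* Q) (H W U : Subgroup Q)
      (κ : H →* ℂˣ) (ψ : U →* ℂˣ), Function.Surjective π ∧ Cen M H W U κ ψ ∧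
        ∀ c ∈ CC ℚ F, π c ∉ W := by
  classical
  obtain ⟨L, _, _, _, hcard, j, hj⟩ := exists_gauss
  have hp2 : NeZero (M ^ 2) := ⟨pow_ne_zero 2 hM.ne'⟩
  obtain ⟨n₀, hn₀⟩ := (rat_fin ((L ≃ₐ[ℚ] L) → rootsOfUnity (M ^ 2) ℂ)).2 L
    (phi (L ≃ₐ[ℚ] L) (rootsOfUnity (M ^ 2) ℂ))
  have hle : n₀ ≤ M * (n₀ + 1) := (Nat.le_succ n₀).trans (Nat.le_mul_of_pos_left _ hM)
  have hpos : 0 < M * (n₀ + 1) := Nat.mul_pos hM (Nat.succ_pos _)
  obtain ⟨F, i1, i2, i3, i4, i5, i6, i7, i8, γ, hγ, _⟩ := hn₀ _ hle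
  have hch : CharZero F := charZero_of_injective_algebraMap (algebraMap ℚ F).injective
  exact fc_aux hM hcard hj hpos (Dvd.intro _ rfl) (F := F) i2 (Subsingleton.elim _ _) i7 i8 γ hγ

section level

variable {M : ℕ} {N : Type} [Field N] [NumberField N] [IsGalois ℚ N]
  {Q : Type} [Group Q] [Finite Q] {π : (N ≃ₐ[ℚ] N) →* Q} {H W U : Subgroup Q} {κ : H →* ℂˣ}
  {ψ : U →* ℂˣ}
  {K L : Type} [Field K] [NumberField K] [Field L] [NumberField L] [Algebra K L]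
  [IsGalois K L] [Algebra K N] [IsGalois K N] [Algebra L N] [IsScalarTower K L N]

theorem Cen.lin (h : Cen M H W U κ ψ) (hM : 3 ≤ M) (hπ : Function.Surjective π)
    (hCC : ∀ c ∈ CC ℚ N, π c ∉ W) (lam : (L ≃ₐ[K] L) →* ℂˣ)
    (hdeg : IsTotallyComplex K → ¬ 2 * M ∣ Module.finrank ℚ K) :
    La (κ.comp (π.subgroupComap H)) (M ^ 2).primeFactors (M ^ 2) 1
      (indChar ℚ K N (fun g => lc lam (AlgEquiv.restrictNormalHom L g))) = 0 := by
  classical
  obtain ⟨V, e, he, hind⟩ := indChar_range ℚ K N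
  rw [hind]
  let lam' : V →* ℂˣ := (lam.comp (AlgEquiv.restrictNormalHom L)).comp e.toMonoidHom
  by_contra hne
  obtain ⟨g, hb⟩ := exists_bad (κ.comp (π.subgroupComap H)) (M := M) (by omega)
    (fun x => h.pw _) (V := V) lam' hne
  have hK : IsTotallyComplex K := by
    refine ⟨fun v => ?_⟩
    rw [← InfinitePlace.not_isReal_iff_isComplex]
    intro hv
    have h1 : ComplexEmbedding.IsReal v.embedding := InfinitePlace.isReal_iff.mp hv
    let φ : N →+* ℂ := ComplexEmbedding.lift N v.embedding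
    have h2 : φ.comp (algebraMap K N) = v.embedding := ComplexEmbedding.lift_comp_algebraMap N _
    obtain ⟨c, hc⟩ := exists_conj (K := K) (φ := φ) (by rw [h2]; exact h1)
    have h3 : ((e.symm c : V) : N ≃ₐ[ℚ] N) ∈ CC ℚ N := by
      refine ⟨φ, ?_⟩
      have h4 := he (e.symm c)
      rw [MulEquiv.apply_symm_apply] at h4
      rw [← h4]
      ext x
      exact (hc.eq x).symm
    have h4 := CC_conj h3 g⁻¹
    rw [inv_inv] at h4
    refine hCC _ h4 (h.le hM hb ?_)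
    rw [Subgroup.mem_comap, cj_apply]
    have h5 : g⁻¹ * (g * ((e.symm c : V) : N ≃ₐ[ℚ] N) * g⁻¹) * g = (e.symm c : V) := by group
    rw [h5]
    exact (e.symm c).2
  apply hdeg hK
  have h1 := h.index hM hπ hb
  rw [Subgroup.index_comap_of_surjective _ (cj_surj g)] at h1
  have h2 : V.index = Module.finrank ℚ K := by
    have hVc : Nat.card V = Module.finrank K N := by
      rw [Nat.card_congr e.toEquiv, IsGalois.card_aut_eq_finrank]
    have h3 := V.card_mul_index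
    have : FiniteDimensional K N := Module.Finite.of_restrictScalars_finite ℚ K N
    rw [hVc, IsGalois.card_aut_eq_finrank, ← Module.finrank_mul_finrank ℚ K N, mul_comm] at h3
    exact Nat.eq_of_mul_eq_mul_right Module.finrank_pos h3
  rwa [h2] at h1

/-- characters of abelian extensions of `ℚ` -/
theorem Cen.abel (h : Cen M H W U κ ψ) (hM : 3 ≤ M) (hπ : Function.Surjective π) [IsGalois ℚ L]
    (hab : ∀ a b : L ≃ₐ[ℚ] L, a * b = b * a) (lam : (L ≃ₐ[K] L) →* ℂˣ) :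
    La (κ.comp (π.subgroupComap H)) (M ^ 2).primeFactors (M ^ 2) 1
      (indChar ℚ K N (fun g => lc lam (AlgEquiv.restrictNormalHom L g))) = 0 := by
  classical
  obtain ⟨V, e, he, hind⟩ := indChar_range ℚ K N
  rw [hind]
  let lam' : V →* ℂˣ := (lam.comp (AlgEquiv.restrictNormalHom L)).comp e.toMonoidHom
  by_contra hne
  obtain ⟨g, hb⟩ := exists_bad (κ.comp (π.subgroupComap H)) (M := M) (by omega)
    (fun x => h.pw _) (V := V) lam' hne
  have t1 : IsScalarTower ℚ L N := IsScalarTower.of_algebraMap_eq' (Subsingleton.elim _ _)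
  let r : (N ≃ₐ[ℚ] N) →* (L ≃ₐ[ℚ] L) := AlgEquiv.restrictNormalHom L
  have hr : ∀ (s : N ≃ₐ[ℚ] N) (x : L), algebraMap L N (r s x) = s (algebraMap L N x) :=
    fun s x => AlgEquiv.restrictNormal_commutes s L x
  obtain ⟨s, -, t, -, hz, hzM⟩ := h.com
  obtain ⟨s', rfl⟩ := hπ s
  obtain ⟨t', rfl⟩ := hπ t
  set z := s' * t' * s'⁻¹ * t'⁻¹ with hzdef
  have hπz : π z = π s' * π t' * (π s')⁻¹ * (π t')⁻¹ := by
    rw [hzdef, map_mul, map_mul, map_mul, map_inv, map_inv]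
  have hzH : z ∈ H.comap π := by
    rw [Subgroup.mem_comap, hπz]
    exact hz
  have hβz : orderOf (κ.comp (π.subgroupComap H) ⟨z, hzH⟩) = M := by
    have h1 : κ.comp (π.subgroupComap H) ⟨z, hzH⟩ = κ ⟨_, hz⟩ := by
      rw [kp_apply]
      congr 1
      exact Subtype.ext hπz
    rw [h1, hzM]
  -- the action on `L`
  have hrz : r (g⁻¹ * z * g) = 1 := by
    rw [hzdef, map_mul, map_mul, map_mul, map_mul, map_mul, map_inv, map_inv, map_inv,
      hab (r s') (r t'), mul_inv_cancel_right, mul_inv_cancel, mul_one, inv_mul_cancel]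
  have hfix : ∀ x : L, (g⁻¹ * z * g) (algebraMap L N x) = algebraMap L N x := by
    intro x
    rw [← hr, hrz]
    rfl
  -- the elements of `V` are those which fix `K`
  have hV : g⁻¹ * z * g ∈ V := by
    let y' : N ≃ₐ[K] N := AlgEquiv.ofRingEquiv (f := (g⁻¹ * z * g).toRingEquiv) (fun x => by
      rw [IsScalarTower.algebraMap_apply K L N]
      exact hfix _)
    have h1 := he (e.symm y')
    rw [MulEquiv.apply_symm_apply] at h1
    have h2 : y'.restrictScalars ℚ = g⁻¹ * z * g := by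
      ext x
      rfl
    rw [h2] at h1
    rw [h1]
    exact (e.symm y').2
  have h1 := hb.eq ⟨z, hzH⟩ hV (by
    have := pow_orderOf_eq_one (κ.comp (π.subgroupComap H) ⟨z, hzH⟩)
    rwa [hβz] at this)
  have h2 : lam' ⟨g⁻¹ * z * g, hV⟩ = 1 := by
    change lam (AlgEquiv.restrictNormalHom L (e ⟨g⁻¹ * z * g, hV⟩)) = 1
    have h3 : AlgEquiv.restrictNormalHom L (e ⟨g⁻¹ * z * g, hV⟩) = 1 := by
      ext x
      apply (algebraMap L N).injective
      rw [res_apply]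
      have h4 : (e ⟨g⁻¹ * z * g, hV⟩) (algebraMap L N x) = (g⁻¹ * z * g) (algebraMap L N x) :=
        DFunLike.congr_fun (he ⟨g⁻¹ * z * g, hV⟩) (algebraMap L N x)
      rw [h4, hfix]
      rfl
    rw [h3, map_one]
  have h3 : κ.comp (π.subgroupComap H) ⟨z, hzH⟩ = 1 := h1.symm.trans h2
  rw [h3, orderOf_one] at hβz
  omega

end level

/-! ### The closure -/

/-- the vectors with a nonzero multiple in the group generated by the generators -/
def W0 (D : Set ℕ) : AddSubgroup ((EE ≃ₐ[ℚ] EE) → ℂ) where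
  carrier := {f | ∃ n : ℕ, n ≠ 0 ∧ n • f ∈ AddSubgroup.closure (gens D)}
  zero_mem' := ⟨1, one_ne_zero, by rw [smul_zero]; exact zero_mem _⟩
  add_mem' := by
    rintro a b ⟨n, hn, ha⟩ ⟨m, hm, hb⟩
    refine ⟨n * m, mul_ne_zero hn hm, ?_⟩
    have h1 : (n * m) • (a + b) = m • (n • a) + n • (m • b) := by
      rw [smul_add, mul_smul n m b, mul_comm n m, mul_smul m n a]
    rw [h1]
    exact add_mem (nsmul_mem ha m) (nsmul_mem hb n)
  neg_mem' := by
    rintro a ⟨n, hn, ha⟩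
    refine ⟨n, hn, ?_⟩
    rw [smul_neg]
    exact neg_mem ha

lemma W0_torsion (D P : Set ℕ) :
    TorsionIn P (Multiplicative (((EE ≃ₐ[ℚ] EE) → ℂ) ⧸ W0 D)) := by
  intro ℓ hℓ hℓP x hx
  obtain ⟨y, rfl⟩ := Multiplicative.ofAdd.surjective x
  obtain ⟨f, rfl⟩ := QuotientAddGroup.mk_surjective y
  rw [← ofAdd_nsmul, ofAdd_eq_one, ← QuotientAddGroup.mk_nsmul, QuotientAddGroup.eq_zero_iff] at hx
  obtain ⟨n, hn, h⟩ := hx
  rw [ofAdd_eq_one, QuotientAddGroup.eq_zero_iff]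
  exact ⟨n * ℓ, mul_ne_zero hn hℓ.ne_zero, by rwa [mul_smul]⟩

section main

variable {M : ℕ} {F : Type} [Field F] [NumberField F] [IsGalois ℚ F]
  {Q : Type} [Group Q] [Finite Q] {π : (F ≃ₐ[ℚ] F) →* Q} {H W U : Subgroup Q} {κ : H →* ℂˣ}
  {ψ : U →* ℂˣ}

/-- vanishing of the functional at all sufficiently large levels -/
def Q0 (M : ℕ) (π : (F ≃ₐ[ℚ] F) →* Q) (κ : H →* ℂˣ) (f : (EE ≃ₐ[ℚ] EE) → ℂ) : Prop :=
  ∃ (L₀ : Type) (_ : Field L₀) (_ : NumberField L₀), ∀ (N : Type) [Field N] [NumberField N]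
    [IsGalois ℚ N] [Algebra F N] [IsScalarTower ℚ F N], Nonempty (L₀ →+* N) →
    ∀ (ι : N →+* EE) (lift : (N ≃ₐ[ℚ] N) → (EE ≃ₐ[ℚ] EE)),
      (∀ g, Tw (lift g : EE ≃+* EE) ι g) →
        LaHom (κ.comp ((π.comp (AlgEquiv.restrictNormalHom F :
          (N ≃ₐ[ℚ] N) →* (F ≃ₐ[ℚ] F))).subgroupComap H)) (M ^ 2).primeFactors (M ^ 2) 1
            (fun g => f (lift g)) = 0

lemma Q0.zero : Q0 M π κ 0 := by
  refine ⟨ℚ, inferInstance, inferInstance, ?_⟩
  intro N _ _ _ _ _ _ ι lift hl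
  have h1 : (fun g : N ≃ₐ[ℚ] N => (0 : (EE ≃ₐ[ℚ] EE) → ℂ) (lift g)) = 0 := rfl
  rw [h1, map_zero]

lemma Q0.add {f f' : (EE ≃ₐ[ℚ] EE) → ℂ} (h : Q0 M π κ f) (h' : Q0 M π κ f') :
    Q0 M π κ (f + f') := by
  obtain ⟨L₀, _, _, h⟩ := h
  obtain ⟨L₁, _, _, h'⟩ := h'
  obtain ⟨L₂, i1, i2, _, ⟨a⟩, ⟨b⟩⟩ := Pool.Agent.H37.Stk.exists_big L₀ L₁
  refine ⟨L₂, i1, i2, ?_⟩
  rintro N _ _ _ _ _ ⟨c⟩ ι lift hl
  have h1 : (fun g : N ≃ₐ[ℚ] N => (f + f') (lift g))
      = (fun g => f (lift g)) + (fun g => f' (lift g)) := rfl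
  rw [h1, map_add, h N ⟨c.comp a⟩ ι lift hl, h' N ⟨c.comp b⟩ ι lift hl, add_zero]

lemma Q0.neg {f : (EE ≃ₐ[ℚ] EE) → ℂ} (h : Q0 M π κ f) : Q0 M π κ (-f) := by
  obtain ⟨L₀, i1, i2, h⟩ := h
  refine ⟨L₀, i1, i2, ?_⟩
  intro N _ _ _ _ _ hc ι lift hl
  have h1 : (fun g : N ≃ₐ[ℚ] N => (-f) (lift g)) = -(fun g => f (lift g)) := rfl
  rw [h1, map_neg, h N hc ι lift hl, neg_zero]

theorem Q0_gens (hs : Cen M H W U κ ψ) (hM : 3 ≤ M) (hπ : Function.Surjective π)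
    (hCC : ∀ c ∈ CC ℚ F, π c ∉ W)
    {D : Set ℕ} (hD : ∀ t : ℕ, 0 < t → t * M ∉ D) {f : (EE ≃ₐ[ℚ] EE) → ℂ}
    (hf : f ∈ gens D) : Q0 M π κ f := by
  rcases hf with ⟨K, L, _, _, _, _, _, _, χ, hχ, hr, rfl⟩ |
    ⟨K, L, _, _, _, _, _, _, lam, ho, rfl⟩ | ⟨K, L, _, _, _, _, _, _, _, lam, hab, rfl⟩
  · refine ⟨L, inferInstance, inferInstance, ?_⟩
    rintro N _ _ _ _ _ ⟨i⟩ ι lift hl
    let _ : Algebra L N := i.toAlgebra
    let _ : Algebra K N := ((algebraMap L N).comp (algebraMap K L)).toAlgebra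
    have h1 : IsScalarTower K L N := IsScalarTower.of_algebraMap_eq fun x => rfl
    have h2 : IsGalois K N := IsGalois.tower_top_of_isGalois ℚ K N
    rw [Phi_level hl K L hχ]
    have h3 : IsChar (fun g : N ≃ₐ[K] N => χ (AlgEquiv.restrictNormalHom L g)) :=
      IsChar.comp' hχ (AlgEquiv.restrictNormalHom L)
    have h4 : ∀ g, ∃ q : ℚ,
        indChar ℚ K N (fun g => χ (AlgEquiv.restrictNormalHom L g)) g = q := by
      obtain ⟨V, e, -, hind⟩ := indChar_range ℚ K N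
      rw [hind]
      exact ind_rat V fun v => hr _
    exact La_rat (κ.comp ((π.comp (AlgEquiv.restrictNormalHom F :
      (N ≃ₐ[ℚ] N) →* (F ≃ₐ[ℚ] F))).subgroupComap H)) (M := M) (by omega) (fun x => hs.pw _)
        (isChar_indChar (K := ℚ) h3) h4
  · refine ⟨L, inferInstance, inferInstance, ?_⟩
    rintro N _ _ _ _ _ ⟨i⟩ ι lift hl
    let _ : Algebra L N := i.toAlgebra
    let _ : Algebra K N := ((algebraMap L N).comp (algebraMap K L)).toAlgebra
    have h1 : IsScalarTower K L N := IsScalarTower.of_algebraMap_eq fun x => rfl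
    have h2 : IsGalois K N := IsGalois.tower_top_of_isGalois ℚ K N
    rw [Phi_level hl K L (IsChar.lc lam)]
    have hsurj : Function.Surjective
        (AlgEquiv.restrictNormalHom F : (N ≃ₐ[ℚ] N) →* (F ≃ₐ[ℚ] F)) :=
      AlgEquiv.restrictNormalHom_surjective N
    have hπ' : Function.Surjective (π.comp (AlgEquiv.restrictNormalHom F :
      (N ≃ₐ[ℚ] N) →* (F ≃ₐ[ℚ] F))) := hπ.comp hsurj
    refine hs.lin hM hπ' ?_ lam ?_
    · intro c hc hcU
      exact hCC _ (CC_res hc) hcU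
    · intro hK h3
      obtain ⟨d, hd, h4⟩ := ho hK
      rw [h4] at h3
      obtain ⟨t, rfl⟩ := Nat.dvd_of_mul_dvd_mul_left (by norm_num) h3
      rcases Nat.eq_zero_or_pos t with rfl | ht
      · have h5 : 0 < Module.finrank ℚ K := Module.finrank_pos
        rw [h4] at h5
        omega
      · exact hD t ht (mul_comm M t ▸ hd)
  · refine ⟨L, inferInstance, inferInstance, ?_⟩
    rintro N _ _ _ _ _ ⟨i⟩ ι lift hl
    let _ : Algebra L N := i.toAlgebra
    let _ : Algebra K N := ((algebraMap L N).comp (algebraMap K L)).toAlgebra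
    have h1 : IsScalarTower K L N := IsScalarTower.of_algebraMap_eq fun x => rfl
    have h2 : IsGalois K N := IsGalois.tower_top_of_isGalois ℚ K N
    rw [Phi_level hl K L (IsChar.lc lam)]
    have hsurj : Function.Surjective
        (AlgEquiv.restrictNormalHom F : (N ≃ₐ[ℚ] N) →* (F ≃ₐ[ℚ] F)) :=
      AlgEquiv.restrictNormalHom_surjective N
    have hπ' : Function.Surjective (π.comp (AlgEquiv.restrictNormalHom F :
      (N ≃ₐ[ℚ] N) →* (F ≃ₐ[ℚ] F))) := hπ.comp hsurj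
    exact hs.abel hM hπ' hab lam

theorem Q0_closure (hs : Cen M H W U κ ψ) (hM : 3 ≤ M) (hπ : Function.Surjective π)
    (hCC : ∀ c ∈ CC ℚ F, π c ∉ W)
    {D : Set ℕ} (hD : ∀ t : ℕ, 0 < t → t * M ∉ D) {f : (EE ≃ₐ[ℚ] EE) → ℂ}
    (hf : f ∈ AddSubgroup.closure (gens D)) : Q0 M π κ f := by
  induction hf using AddSubgroup.closure_induction with
  | mem f hf => exact Q0_gens hs hM hπ hCC hD hf
  | zero => exact Q0.zero
  | add a b _ _ ha hb => exact ha.add hb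
  | neg a _ ha => exact ha.neg

/-- the induced character is not in the group -/
theorem not_mem_W0 (hs : Cen M H W U κ ψ) (hM : 3 ≤ M) (hπ : Function.Surjective π)
    (hCC : ∀ c ∈ CC ℚ F, π c ∉ W)
    {D : Set ℕ} (hD : ∀ t : ℕ, 0 < t → t * M ∉ D) :
    Phi ℚ F (ind (U.comap π) (fun v => ((ψ.comp (π.subgroupComap U) v : ℂˣ) : ℂ))) ∉ W0 D := by
  rintro ⟨m, hm, h⟩
  obtain ⟨L₀, _, _, hQ⟩ := Q0_closure hs hM hπ hCC hD h
  obtain ⟨N, _, _, _, ⟨a⟩, ⟨i⟩⟩ := Pool.Agent.H37.Stk.exists_big L₀ F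
  let _ : Algebra F N := i.toAlgebra
  have h1 : IsScalarTower ℚ F N := IsScalarTower.of_algebraMap_eq' (Subsingleton.elim _ _)
  obtain ⟨ι⟩ := exists_emb N
  choose lift hl using exists_lift_aut (N := N) ι
  have hsurj : Function.Surjective
      (AlgEquiv.restrictNormalHom F : (N ≃ₐ[ℚ] N) →* (F ≃ₐ[ℚ] F)) :=
    AlgEquiv.restrictNormalHom_surjective N
  let r : (N ≃ₐ[ℚ] N) →* (F ≃ₐ[ℚ] F) := AlgEquiv.restrictNormalHom F
  have h2 := hQ N ⟨a⟩ ι lift hl
  have h3 : (fun g : N ≃ₐ[ℚ] N => (m • Phi ℚ F (ind (U.comap π)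
      (fun v => ((ψ.comp (π.subgroupComap U) v : ℂˣ) : ℂ)))) (lift g))
      = m • (ind (U.comap (π.comp r))
        (fun v => ((ψ.comp ((π.comp r).subgroupComap U) v : ℂˣ) : ℂ))) := by
    funext g
    have hch : IsChar (ind (U.comap π) (fun v => ((ψ.comp (π.subgroupComap U) v : ℂˣ) : ℂ))) :=
      isChar_ind (U.comap π) (IsChar.lc (ψ.comp (π.subgroupComap U)))
    have hch' : IsChar (fun g : N ≃ₐ[ℚ] N =>
        ind (U.comap π) (fun v => ((ψ.comp (π.subgroupComap U) v : ℂˣ) : ℂ))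
          (AlgEquiv.restrictNormalHom F g)) :=
      IsChar.comp' hch (AlgEquiv.restrictNormalHom F)
    change m • tv (lift g : EE ≃+* EE) ℚ F (ind (U.comap π)
      (fun v => ((ψ.comp (π.subgroupComap U) v : ℂˣ) : ℂ))) = m • _
    rw [← tv_infl _ jj ℚ F N, tv_level (hl g) hch']
    congr 1
    exact congrFun (ind_comap hsurj (U.comap π)
      (fun v => ((ψ.comp (π.subgroupComap U) v : ℂˣ) : ℂ))) g
  rw [h3, map_nsmul, smul_eq_zero] at h2
  rcases h2 with h2 | h2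
  · exact hm h2
  · have hπ' : Function.Surjective (π.comp r) := hπ.comp hsurj
    exact hs.ne hM hπ' h2

end main

/-- **Necessity of the divisibility condition** -/
theorem necessity_pos {P D : Set ℕ} (h : Suff P fun A => TrivRational A ∧ TrivAbelian A ∧
    TrivReal A ∧ TrivDegrees A D) : ∀ m > 0, ∃ d ∈ D, 0 < d ∧ m ∣ d := by
  intro m hm
  by_contra hcon
  push Not at hcon
  have hM : 3 ≤ 3 * m := by omega
  obtain ⟨F, _, _, _, Q, _, _, π, H, W, U, κ, ψ, hπ, hs, hCC⟩ := exists_cen (M := 3 * m) (by omega)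
  have h1 := h _ (W0_torsion D P) (nInv (W0 D)) (by
      refine ⟨?_, ?_, ?_, ?_⟩
      · intro K L i1 i2 i3 i4 i5 i6 χ hχ hr
        rw [nInv_iff]
        refine ⟨1, one_ne_zero, ?_⟩
        rw [one_smul]
        exact AddSubgroup.subset_closure (Or.inl ⟨K, L, i1, i2, i3, i4, i5, i6, χ, hχ, hr, rfl⟩)
      · intro K L i1 i2 i3 i4 i5 i6 i7 hab χ hχ
        refine Subgroup.mem_bot.mp (brauer_red ⊥ (fun V ψ => Subgroup.mem_bot.mpr ?_) hχ)
        rw [nInv_iff]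
        refine ⟨1, one_ne_zero, ?_⟩
        rw [one_smul]
        exact AddSubgroup.subset_closure (Or.inr (Or.inr ⟨_, L, inferInstance, inferInstance,
          inferInstance, inferInstance, inferInstance, inferInstance, i7, ψ, hab, rfl⟩))
      · intro K L i1 i2 i3 i4 i5 i6 ψ hK
        rw [nInv_iff]
        refine ⟨1, one_ne_zero, ?_⟩
        rw [one_smul]
        exact AddSubgroup.subset_closure (Or.inr (Or.inl ⟨K, L, i1, i2, i3, i4, i5, i6, ψ,
          fun h => absurd h hK, rfl⟩))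
      · intro K L i1 i2 i3 i4 i5 i6 ψ hK hd
        rw [nInv_iff]
        refine ⟨1, one_ne_zero, ?_⟩
        rw [one_smul]
        exact AddSubgroup.subset_closure (Or.inr (Or.inl ⟨K, L, i1, i2, i3, i4, i5, i6, ψ,
          fun _ => hd, rfl⟩))) ℚ F _ (isChar_ind (U.comap π)
            (IsChar.lc (ψ.comp (π.subgroupComap U))))
  rw [nInv_iff] at h1
  refine not_mem_W0 hs hM hπ hCC (D := D) ?_ h1
  intro t ht h2
  exact hcon _ h2 (by positivity) ⟨3 * t, by ring⟩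

end Pool.Agent.H99.Ov
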