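import Mathlib
import Pool.Agent.H99.Ov.Tf6
import Pool.Agent.H99.Ov.Suf
import Pool.Graph.R_pool_sql_team_seeded_c8625f6e.K4H74.SC.Lead
import Pool.Graph.R_pool_sql_team_seeded_c8625f6e.K4H74.SC.Wrap
import Pool.Graph.R_pool_sql_team_seeded_c8625f6e.K4H77.SL.Def
import Pool.Graph.R_pool_sql_team_seeded_c8625f6e.K4H26.TC.Mod

/-!
# Which orders of vanishing suffice
-/

set_option autoImplicit false
set_option linter.unusedSectionVars false

namespace Pool.Agent.H99.Ov

open NumberField Pool.Agent.K4H74.ST Pool.Agent.H37.Stk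

/-- The arithmetical condition on the set `D` (for the set `P` of prime numbers): for every `m ≥ 1`
there is a positive multiple of `m` in `D` and, for every `p ∈ P`, there is a multiple `d` of `m` in
`D` such that `d / m` is prime to `p`. -/
def Ample (P D : Set ℕ) : Prop :=
  ∀ m > 0, (∃ d ∈ D, 0 < d ∧ m ∣ d) ∧ ∀ p ∈ P, p.Prime → ∃ d ∈ D, m ∣ d ∧ ¬ p * m ∣ d

lemma Ample.pos {P D : Set ℕ} (h : Ample P D) : ∀ m > 0, ∃ d ∈ D, 0 < d ∧ m ∣ d :=
  fun m hm => (h m hm).1

lemma Ample.rich {P D : Set ℕ} (h : Ample P D) : Rich P D := fun m hm => (h m hm).2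

lemma trivOne_of_rational {M : Type} [CommGroup M] {A : ArtinInvariant M} (h : TrivRational A) :
    TrivOne A := by
  intro K _ _
  have h1 : IsChar (lc (1 : (K ≃ₐ[K] K) →* ℂˣ)) := IsChar.lc 1
  have h2 : lc (1 : (K ≃ₐ[K] K) →* ℂˣ) = fun _ => 1 := by
    funext g
    simp [lc]
  rw [h2] at h1
  exact h K K _ h1 fun g => ⟨1, by simp⟩

lemma trivOrders_of {M : Type} [CommGroup M] {A : ArtinInvariant M} {D : Set ℕ}
    (hR : TrivReal A) (hD : TrivDegrees A D) : TrivOrders A D := by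
  intro K L _ _ _ _ _ _ ψ _ hord
  by_cases hK : IsTotallyComplex K
  · refine hD K L ψ hK ⟨ord K L ψ, ?_, by rw [ord_complex K L ψ, mul_comm]⟩
    rcases hord with h | h
    · exfalso
      have h1 := ord_complex K L ψ
      have h2 : 0 < Module.finrank ℚ K := Module.finrank_pos
      omega
    · exact h
  · exact hR K L ψ hK

lemma trivOdd_of {M : Type} [CommGroup M] {A : ArtinInvariant M} (hR : TrivReal A) :
    TrivOdd A := by
  intro K L _ _ _ _ _ _ hK ψ _
  refine hR K L ψ fun hK' => ?_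
  obtain ⟨v⟩ : Nonempty (InfinitePlace K) := inferInstance
  exact InfinitePlace.not_isReal_iff_isComplex.mpr (hK'.isComplex v) (hK.isReal v)

lemma trivMixed_of {M : Type} [CommGroup M] {A : ArtinInvariant M} (hR : TrivReal A) :
    TrivMixed A := fun K L _ _ _ _ _ _ _ hK _ _ ψ _ => hR K L ψ hK

lemma ample_of {P D : Set ℕ} (h : Suff P fun A => TrivRational A ∧ TrivAbelian A ∧
    TrivReal A ∧ TrivDegrees A D) : Ample P D :=
  fun m hm => ⟨necessity_pos h m hm, necessity h m hm⟩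

/-- **The criterion.** -/
theorem criterion (P D : Set ℕ) : List.TFAE [
    Suff P fun A => TrivOne A ∧ TrivOrders A D,
    Suff P fun A => TrivOne A ∧ TrivOdd A ∧ TrivMixed A ∧ TrivDegrees A D,
    Suff P fun A => TrivRational A ∧ TrivAbelian A ∧ TrivReal A ∧ TrivDegrees A D,
    Ample P D] := by
  tfae_have 4 → 1 := fun h => suff_orders h.pos h.rich
  tfae_have 4 → 2 := fun h => suff_mixed h.pos h.rich
  tfae_have 1 → 3 := fun h M _ hM A hA K _ _ =>
    h M hM A ⟨trivOne_of_rational hA.1, trivOrders_of hA.2.2.1 hA.2.2.2⟩ K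
  tfae_have 2 → 3 := fun h M _ hM A hA K _ _ =>
    h M hM A ⟨trivOne_of_rational hA.1, trivOdd_of hA.2.2.1, trivMixed_of hA.2.2.1, hA.2.2.2⟩ K
  tfae_have 3 → 4 := ample_of
  tfae_finish

/-- **The criterion for odd torsion.** -/
theorem criterion_odd (P D : Set ℕ) (h2 : 2 ∉ P) :
    (Suff P fun A => TrivOne A ∧ TrivDegrees A D) ↔ Ample P D :=
  ⟨fun h => ample_of fun M _ hM A hA K _ _ => h M hM A ⟨trivOne_of_rational hA.1, hA.2.2.2⟩ K,
    fun h => suff_degrees h.pos h.rich h2⟩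

end Pool.Agent.H99.Ov
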